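import Pool.Agent.Mot.Kim

/-!
# From the definitions of the hand-ins to the structure used in the proofs (MP_6c4da4_ag, helper97)
-/

open CategoryTheory MonoidalCategory BraidedCategory Limits

universe v u

namespace Mot

noncomputable section

variable {C : Type u} [Category.{v} C] [Abelian C] [Linear ℚ C] [MonoidalCategory C]
  [SymmetricCategory C] [MonoidalPreadditive C] [MonoidalLinear ℚ C] [RightRigidCategory C]

/-- the structure used in the proofs -/
def Frobenius.toFrob (W : Frobenius C) : Frob C where
  scalar := W.scalar
  ne := W.unit_ne
  F := W.F
  F_unit := W.F_unit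
  F_tensor := W.F_tensor
  α := W.even
  β := W.odd
  trace := by
    intro X n r h
    apply W.trace_formula X n r
    rw [← h]
    have h1 : component W.F X ^ n = (pw (W.F.app X) n : End X) := end_pow _ n
    rw [h1]
    rfl
  odd := W.one_not_odd

end

end Mot
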