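import Mathlib

/-!
# Traces in symmetric monoidal categories with duals

Problem MP_6c4da4_ag, by helper97.
-/

open CategoryTheory MonoidalCategory BraidedCategory

universe v u

namespace Mot

noncomputable section

variable {C : Type u} [Category.{v} C] [MonoidalCategory C] [SymmetricCategory C]

/-- the evaluation X ⊗ X' ⟶ 𝟙 -/
def ev (X X' : C) [ExactPairing X X'] : X ⊗ X' ⟶ 𝟙_ C := (β_ X X').hom ≫ ε_ X X'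

/-- the trace with respect to an exact pairing -/
def trP (X X' : C) [ExactPairing X X'] (f : X ⟶ X) : 𝟙_ C ⟶ 𝟙_ C :=
  η_ X X' ≫ f ▷ X' ≫ ev X X'

section Mate

variable {X Y X' Y' : C} [ExactPairing X X'] [ExactPairing Y Y']

/-- the mate of f -/
def mt (X' Y' : C) [ExactPairing X X'] [ExactPairing Y Y'] (f : X ⟶ Y) : Y' ⟶ X' :=
  let _ : HasRightDual X := ⟨X'⟩
  let _ : HasRightDual Y := ⟨Y'⟩
  rightAdjointMate f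

lemma mt_coev (f : X ⟶ Y) : η_ Y Y' ≫ Y ◁ mt X' Y' f = η_ X X' ≫ f ▷ X' := by
  let _ : HasRightDual X := ⟨X'⟩
  let _ : HasRightDual Y := ⟨Y'⟩
  exact coevaluation_comp_rightAdjointMate f

lemma mt_ev' (f : X ⟶ Y) : mt X' Y' f ▷ X ≫ ε_ X X' = Y' ◁ f ≫ ε_ Y Y' := by
  let _ : HasRightDual X := ⟨X'⟩
  let _ : HasRightDual Y := ⟨Y'⟩
  exact rightAdjointMate_comp_evaluation f

lemma mt_ev (f : X ⟶ Y) : X ◁ mt X' Y' f ≫ ev X X' = f ▷ Y' ≫ ev Y Y' := by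
  unfold ev
  rw [braiding_naturality_right_assoc, mt_ev', braiding_naturality_left_assoc]

lemma mt_comp {Z Z' : C} [ExactPairing Z Z'] (f : X ⟶ Y) (g : Y ⟶ Z) :
    mt X' Z' (f ≫ g) = mt Y' Z' g ≫ mt X' Y' f := by
  let _ : HasRightDual X := ⟨X'⟩
  let _ : HasRightDual Y := ⟨Y'⟩
  let _ : HasRightDual Z := ⟨Z'⟩
  exact comp_rightAdjointMate

/-- cyclicity of the trace -/
lemma trP_comm (f : X ⟶ Y) (g : Y ⟶ X) : trP X X' (f ≫ g) = trP Y Y' (g ≫ f) := by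
  unfold trP
  rw [comp_whiskerRight, Category.assoc, ← Category.assoc (η_ X X'), ← mt_coev (Y' := Y') f,
    Category.assoc, comp_whiskerRight, Category.assoc, ← mt_ev (X' := X') f,
    whisker_exchange_assoc]

end Mate

/-- the trace does not depend on the dual -/
lemma trP_indep {X X' X'' : C} [ExactPairing X X'] [ExactPairing X X''] (f : X ⟶ X) :
    trP X X' f = trP X X'' f := by
  have h := trP_comm (X' := X') (Y' := X'') (𝟙 X) f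
  simpa using h

lemma slide {X X' Y : C} (e : X ⊗ X' ⟶ 𝟙_ C) :
    (α_ X Y X').hom ≫ X ◁ (β_ Y X').hom ≫ (α_ X X' Y).inv ≫ e ▷ Y ≫ (λ_ Y).hom =
      (β_ X Y).hom ▷ X' ≫ (α_ Y X X').hom ≫ Y ◁ e ≫ (ρ_ Y).hom := by
  have h1 : Y ◁ e ≫ (ρ_ Y).hom = (β_ Y (X ⊗ X')).hom ≫ e ▷ Y ≫ (λ_ Y).hom := by
    rw [← braiding_naturality_right_assoc, braiding_tensorUnit_right]
    simp
  rw [h1, braiding_tensor_right_hom]
  simp only [Category.assoc, Iso.hom_inv_id_assoc]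
  rw [← comp_whiskerRight_assoc, SymmetricCategory.symmetry, id_whiskerRight, Category.id_comp]

lemma ev_tensor (X Y X' Y' : C) [ExactPairing X X'] [ExactPairing Y Y'] :
    ev (X ⊗ Y) (Y' ⊗ X') = 𝟙 _ ⊗≫ (X ◁ ev Y Y') ▷ X' ⊗≫ ev X X' := by
  unfold ev
  rw [ExactPairing.tensor_evaluation]
  calc (β_ (X ⊗ Y) (Y' ⊗ X')).hom ≫ (𝟙 _ ⊗≫ Y' ◁ (ε_ X X' ▷ Y) ⊗≫ ε_ Y Y')
      = 𝟙 _ ⊗≫ (β_ (X ⊗ Y) Y').hom ▷ X' ⊗≫ Y' ◁ ((α_ X Y X').hom ≫ X ◁ (β_ Y X').hom ≫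
          (α_ X X' Y).inv ≫ ((β_ X X').hom ≫ ε_ X X') ▷ Y ≫ (λ_ Y).hom) ⊗≫ ε_ Y Y' := by
        rw [braiding_tensor_right_hom, braiding_tensor_left_hom X Y X']
        monoidal
    _ = 𝟙 _ ⊗≫ (β_ (X ⊗ Y) Y').hom ▷ X' ⊗≫ Y' ◁ ((β_ X Y).hom ▷ X' ≫ (α_ Y X X').hom ≫
          Y ◁ ((β_ X X').hom ≫ ε_ X X') ≫ (ρ_ Y).hom) ⊗≫ ε_ Y Y' := by
        rw [slide]
    _ = 𝟙 _ ⊗≫ (X ◁ (β_ Y Y').hom) ▷ X' ⊗≫ (β_ X (Y' ⊗ Y)).hom ▷ X' ⊗≫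
          ((Y' ⊗ Y) ◁ ((β_ X X').hom ≫ ε_ X X') ≫ ε_ Y Y' ▷ 𝟙_ C) ⊗≫ 𝟙 _ := by
        rw [braiding_tensor_left_hom X Y Y', braiding_tensor_right_hom X Y' Y]
        monoidal
    _ = 𝟙 _ ⊗≫ (X ◁ (β_ Y Y').hom) ▷ X' ⊗≫ ((β_ X (Y' ⊗ Y)).hom ≫ ε_ Y Y' ▷ X) ▷ X' ⊗≫
          ((β_ X X').hom ≫ ε_ X X') := by
        rw [whisker_exchange]
        monoidal
    _ = 𝟙 _ ⊗≫ (X ◁ ((β_ Y Y').hom ≫ ε_ Y Y')) ▷ X' ⊗≫ ((β_ X X').hom ≫ ε_ X X') := by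
        rw [← braiding_naturality_right, braiding_tensorUnit_right]
        monoidal

/-- multiplicativity of the trace, when the trace of the second factor is scalar -/
lemma trP_tensor [Preadditive C] [Linear ℚ C] [MonoidalPreadditive C] [MonoidalLinear ℚ C]
    {X Y X' Y' : C} [ExactPairing X X'] [ExactPairing Y Y'] (f : X ⟶ X) (g : Y ⟶ Y) (r : ℚ)
    (hr : trP Y Y' g = r • 𝟙 (𝟙_ C)) :
    trP (X ⊗ Y) (Y' ⊗ X') (f ⊗ₘ g) = r • trP X X' f := by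
  unfold trP
  rw [ExactPairing.tensor_coevaluation, ev_tensor]
  calc (η_ X X' ⊗≫ (X ◁ η_ Y Y') ▷ X' ⊗≫ 𝟙 _) ≫ (f ⊗ₘ g) ▷ (Y' ⊗ X') ≫
        (𝟙 _ ⊗≫ (X ◁ ev Y Y') ▷ X' ⊗≫ ev X X')
      = η_ X X' ⊗≫ f ▷ X' ⊗≫ (X ◁ (η_ Y Y' ≫ g ▷ Y' ≫ ev Y Y')) ▷ X' ⊗≫ ev X X' := by
        rw [MonoidalCategory.tensorHom_def]
        calc _ = η_ X X' ⊗≫ (X ◁ η_ Y Y' ≫ f ▷ (Y ⊗ Y')) ▷ X' ⊗≫ (X ◁ g ▷ Y') ▷ X' ⊗≫
              (X ◁ ev Y Y') ▷ X' ⊗≫ ev X X' := by monoidal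
          _ = _ := by
            rw [whisker_exchange]
            monoidal
    _ = η_ X X' ⊗≫ f ▷ X' ⊗≫ (X ◁ (r • 𝟙 (𝟙_ C))) ▷ X' ⊗≫ ev X X' := by
        have : η_ Y Y' ≫ g ▷ Y' ≫ ev Y Y' = r • 𝟙 (𝟙_ C) := hr
        rw [this]
    _ = r • (η_ X X' ⊗≫ f ▷ X' ⊗≫ (X ◁ (𝟙 (𝟙_ C))) ▷ X' ⊗≫ ev X X') := by
        simp only [monoidalComp, MonoidalLinear.whiskerLeft_smul, MonoidalLinear.smul_whiskerRight,
          Linear.smul_comp, Linear.comp_smul]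
    _ = r • (η_ X X' ≫ f ▷ X' ≫ ev X X') := by
        congr 1
        monoidal

end

end Mot
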