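import Pool.Agent.Mot.Van

/-!
# The decomposition into an even and an odd part (MP_6c4da4_ag, by helper97)
-/

open CategoryTheory MonoidalCategory BraidedCategory Limits Polynomial

universe v u

namespace Mot

noncomputable section

set_option linter.unusedSectionVars false

section Num

/-- the net multiplicity -/
def nu (a b : Multiset ℂ) (z : ℂ) : ℤ := (a.count z : ℤ) - (b.count z : ℤ)

lemma sum_nu (a b : Multiset ℂ) (f : ℂ → ℂ) :
    (a.map f).sum - (b.map f).sum = ∑ z ∈ (a + b).toFinset, (nu a b z : ℂ) * f z := by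
  classical
  have h : ∀ (m : Multiset ℂ) (S : Finset ℂ), m.toFinset ⊆ S →
      (m.map f).sum = ∑ z ∈ S, (m.count z : ℂ) * f z := by
    intro m S hS
    rw [Finset.sum_multiset_map_count]
    have h1 : ∑ z ∈ m.toFinset, m.count z • f z = ∑ z ∈ m.toFinset, (m.count z : ℂ) * f z := by
      apply Finset.sum_congr rfl
      intro z _
      rw [nsmul_eq_mul]
    rw [h1]
    apply Finset.sum_subset hS
    intro z _ hz
    rw [Multiset.mem_toFinset] at hz
    rw [Multiset.count_eq_zero.mpr hz, Nat.cast_zero, zero_mul]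
  rw [h a (a + b).toFinset (by rw [Multiset.toFinset_add]; exact Finset.subset_union_left),
    h b (a + b).toFinset (by rw [Multiset.toFinset_add]; exact Finset.subset_union_right),
    ← Finset.sum_sub_distrib]
  apply Finset.sum_congr rfl
  intro z _
  unfold nu
  push_cast
  ring

lemma nu_of_notMem {a b : Multiset ℂ} {z : ℂ} (h : z ∉ (a + b).toFinset) : nu a b z = 0 := by
  classical
  rw [Multiset.mem_toFinset, Multiset.mem_add, not_or] at h
  unfold nu
  rw [Multiset.count_eq_zero.mpr h.1, Multiset.count_eq_zero.mpr h.2]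
  simp

/-- Lagrange interpolation: a finite exponential sum which vanishes is trivial -/
lemma lag (S : Finset ℂ) (a : ℂ → ℂ) (h : ∀ n : ℕ, ∑ z ∈ S, a z * z ^ n = 0) :
    ∀ z ∈ S, a z = 0 := by
  classical
  intro w hw
  set P : ℂ[X] := ∏ z ∈ S.erase w, (C (w - z)⁻¹ * (X - C z)) with hP
  have h1 : P.eval w = 1 := by
    rw [hP, eval_prod]
    apply Finset.prod_eq_one
    intro z hz
    have h1 : w - z ≠ 0 := sub_ne_zero.mpr (Finset.ne_of_mem_erase hz).symm
    simp [h1]
  have h2 : ∀ z ∈ S, z ≠ w → P.eval z = 0 := by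
    intro z hz h1
    rw [hP, eval_prod]
    apply Finset.prod_eq_zero (Finset.mem_erase.mpr ⟨h1, hz⟩)
    simp
  have h3 : ∑ z ∈ S, a z * P.eval z = a w := by
    rw [Finset.sum_eq_single w]
    · rw [h1, mul_one]
    · intro z hz hzw
      rw [h2 z hz hzw, mul_zero]
    · intro h
      exact absurd hw h
  rw [← h3]
  have h4 : ∀ z ∈ S, a z * P.eval z = ∑ k ∈ P.support, P.coeff k * (a z * z ^ k) := by
    intro z _
    rw [eval_eq_sum, Polynomial.sum, Finset.mul_sum]
    apply Finset.sum_congr rfl
    intro k _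
    ring
  rw [Finset.sum_congr rfl h4, Finset.sum_comm]
  apply Finset.sum_eq_zero
  intro k _
  rw [← Finset.mul_sum, h k, mul_zero]

/-- the divided difference of a rational polynomial -/
def dd (p : ℚ[X]) (y x : ℂ) : ℂ :=
  ∑ k ∈ p.support, (p.coeff k : ℂ) * ∑ i ∈ Finset.range k, x ^ i * y ^ (k - 1 - i)

lemma aeval_sum (p : ℚ[X]) (x : ℂ) : aeval x p = ∑ k ∈ p.support, (p.coeff k : ℂ) * x ^ k := by
  rw [aeval_eq_sum_range' (n := p.natDegree + 1) (by omega)]
  have h : ∀ k ∈ Finset.range (p.natDegree + 1), p.coeff k • x ^ k = (p.coeff k : ℂ) * x ^ k := by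
    intro k _
    rw [Algebra.smul_def]
    rfl
  rw [Finset.sum_congr rfl h]
  symm
  apply Finset.sum_subset
  · intro k hk
    rw [Finset.mem_range]
    exact Nat.lt_succ_of_le (le_natDegree_of_mem_supp k hk)
  · intro k _ hk
    rw [notMem_support_iff] at hk
    rw [hk]
    simp

lemma dd_mul (p : ℚ[X]) (y x : ℂ) : dd p y x * (x - y) = aeval x p - aeval y p := by
  unfold dd
  rw [Finset.sum_mul, aeval_sum, aeval_sum, ← Finset.sum_sub_distrib]
  apply Finset.sum_congr rfl
  intro k _
  rw [mul_assoc, (Commute.all x y).geom_sum₂_mul]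
  ring

lemma dd_self (p : ℚ[X]) (y : ℂ) : dd p y y = aeval y (derivative p) := by
  unfold dd
  rw [derivative_apply, Polynomial.sum, map_sum]
  apply Finset.sum_congr rfl
  intro k _
  have h : ∀ i ∈ Finset.range k, y ^ i * y ^ (k - 1 - i) = y ^ (k - 1) := by
    intro i hi
    rw [Finset.mem_range] at hi
    rw [← pow_add]
    congr 1
    omega
  rw [Finset.sum_congr rfl h, Finset.sum_const, Finset.card_range, nsmul_eq_mul, map_mul, aeval_C,
    map_pow, aeval_X]
  push_cast
  simp
  ring

/-- Galois invariance: an integer valued function with finite support, all of whose weighted power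
sums against rational polynomials are rational, is constant on conjugacy classes -/
lemma galois (a b : Multiset ℂ)
    (hr : ∀ g : ℚ[X], ∃ r : ℚ, (r : ℂ) = ∑ z ∈ (a + b).toFinset, (nu a b z : ℂ) * aeval z g)
    (halg : ∀ z, nu a b z ≠ 0 → IsIntegral ℚ z) (z w : ℂ) (hz : nu a b z ≠ 0)
    (hw : aeval w (minpoly ℚ z) = 0) : nu a b w = nu a b z := by
  classical
  set S := (a + b).toFinset with hS
  set p := minpoly ℚ z with hp
  have hpirr : Irreducible p := minpoly.irreducible (halg z hz)
  have hpz : aeval z p = 0 := minpoly.aeval ℚ z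
  have hmem : ∀ y, nu a b y ≠ 0 → y ∈ S := by
    intro y hy
    by_contra h
    exact hy (nu_of_notMem h)
  -- the product of the other minimal polynomials
  set R : ℚ[X] := ∏ y ∈ S.filter (fun y => nu a b y ≠ 0 ∧ aeval y p ≠ 0), minpoly ℚ y with hR
  have hR0 : ∀ y : ℂ, nu a b y ≠ 0 → aeval y p ≠ 0 → aeval y R = 0 := by
    intro y h1 h2
    rw [hR, map_prod]
    apply Finset.prod_eq_zero (i := y)
    · rw [Finset.mem_filter]
      exact ⟨hmem y h1, h1, h2⟩
    · exact minpoly.aeval ℚ y
  have hR1 : ∀ y : ℂ, aeval y p = 0 → aeval y R ≠ 0 := by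
    intro y hy
    rw [hR, map_prod, Finset.prod_ne_zero_iff]
    intro x hx h0
    rw [Finset.mem_filter] at hx
    have h1 : IsIntegral ℚ y := ⟨p, minpoly.monic (halg z hz), hy⟩
    have h2 : minpoly ℚ y = p :=
      (minpoly.eq_of_irreducible_of_monic hpirr hy (minpoly.monic (halg z hz))).symm
    have h3 : minpoly ℚ y = minpoly ℚ x :=
      (minpoly.eq_of_irreducible_of_monic (minpoly.irreducible (halg x hx.2.1)) h0
        (minpoly.monic (halg x hx.2.1))).symm
    apply hx.2.2
    rw [← h2, h3]
    exact minpoly.aeval ℚ x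
  choose r hr' using (fun i : ℕ => hr (R * X ^ i))
  set m : ℤ := nu a b z with hm
  set H : ℚ[X] := ∑ k ∈ p.support, ∑ i ∈ Finset.range k, C (p.coeff k * r i) * X ^ (k - 1 - i) -
    C (m : ℚ) * R * derivative p with hH
  have hHy : ∀ y : ℂ, aeval y H = ∑ x ∈ S, (nu a b x : ℂ) * (aeval x R * dd p y x) -
      (m : ℂ) * aeval y R * aeval y (derivative p) := by
    intro y
    rw [hH, map_sub, map_mul, map_mul, aeval_C, map_sum]
    congr 1
    · have h1 : ∀ x ∈ S, (nu a b x : ℂ) * (aeval x R * dd p y x) =
          ∑ k ∈ p.support, ∑ i ∈ Finset.range k,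
            (p.coeff k : ℂ) * y ^ (k - 1 - i) * ((nu a b x : ℂ) * aeval x (R * X ^ i)) := by
        intro x _
        unfold dd
        rw [Finset.mul_sum, Finset.mul_sum]
        apply Finset.sum_congr rfl
        intro k _
        rw [Finset.mul_sum, Finset.mul_sum, Finset.mul_sum]
        apply Finset.sum_congr rfl
        intro i _
        rw [map_mul, map_pow, aeval_X]
        ring
      rw [Finset.sum_congr rfl h1, Finset.sum_comm]
      apply Finset.sum_congr rfl
      intro k _
      rw [map_sum, Finset.sum_comm]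
      apply Finset.sum_congr rfl
      intro i _
      rw [← Finset.mul_sum, ← hr' i, map_mul, aeval_C, map_pow, aeval_X]
      simp
      ring
  have hroot : ∀ y ∈ S, aeval y p = 0 →
      ∑ x ∈ S, (nu a b x : ℂ) * (aeval x R * dd p y x) =
        (nu a b y : ℂ) * (aeval y R * aeval y (derivative p)) := by
    intro y hyS hy
    rw [Finset.sum_eq_single y]
    · rw [dd_self]
    · intro x hx hxy
      by_cases h1 : nu a b x = 0
      · rw [h1]
        simp
      · by_cases h2 : aeval x p = 0
        · have h3 := dd_mul p y x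
          rw [h2, hy, sub_zero] at h3
          rcases mul_eq_zero.mp h3 with h4 | h4
          · rw [h4, mul_zero, mul_zero]
          · exact absurd (sub_eq_zero.mp h4) hxy
        · rw [hR0 x h1 h2, zero_mul, mul_zero]
    · intro h
      exact absurd hyS h
  have hH0 : aeval z H = 0 := by
    rw [hHy, hroot z (hmem z hz) hpz]
    ring
  have hdvd : p ∣ H := minpoly.dvd ℚ z hH0
  have hHw : aeval w H = 0 := by
    obtain ⟨q, hq⟩ := hdvd
    rw [hq, map_mul, hw, zero_mul]
  have hsep : aeval w (derivative p) ≠ 0 :=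
    hpirr.separable.aeval_derivative_ne_zero hw
  by_cases hwS : w ∈ S
  · rw [hHy, hroot w hwS hw] at hHw
    have h1 : ((nu a b w : ℂ) - (m : ℂ)) * (aeval w R * aeval w (derivative p)) = 0 := by
      rw [← hHw]
      ring
    rcases mul_eq_zero.mp h1 with h2 | h2
    · have h3 := sub_eq_zero.mp h2
      exact_mod_cast h3
    · exact absurd h2 (mul_ne_zero (hR1 w hw) hsep)
  · exfalso
    rw [hHy] at hHw
    have h1 : ∑ x ∈ S, (nu a b x : ℂ) * (aeval x R * dd p w x) = 0 := by
      apply Finset.sum_eq_zero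
      intro x hx
      by_cases h1 : nu a b x = 0
      · rw [h1]
        simp
      · by_cases h2 : aeval x p = 0
        · have h3 := dd_mul p w x
          rw [h2, hw, sub_zero] at h3
          rcases mul_eq_zero.mp h3 with h4 | h4
          · rw [h4, mul_zero, mul_zero]
          · rw [sub_eq_zero] at h4
            rw [h4] at hx
            exact absurd hx hwS
        · rw [hR0 x h1 h2, zero_mul, mul_zero]
    rw [h1, zero_sub, neg_eq_zero, mul_assoc] at hHw
    rcases mul_eq_zero.mp hHw with h2 | h2
    · have h3 : m = 0 := by exact_mod_cast h2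
      exact hz h3
    · exact absurd h2 (mul_ne_zero (hR1 w hw) hsep)

end Num

end

end Mot
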