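import Pool.Agent.Mot.Tr

open CategoryTheory MonoidalCategory BraidedCategory Limits

/-!
# Additivity of the trace in abelian categories (MP_6c4da4_ag, by helper97)
-/

universe v u

namespace Mot

noncomputable section

set_option linter.unusedSectionVars false

variable {C : Type u} [Category.{v} C] [Abelian C] [MonoidalCategory C] [SymmetricCategory C]
  [MonoidalPreadditive C] [RightRigidCategory C]

instance presLim (Z : C) : PreservesFiniteLimits (tensorRight Z) := by
  let _ := exactPairing_swap Z Zᘁ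
  have := (tensorRightAdjunction Zᘁ Z).rightAdjoint_preservesLimits
  infer_instance

instance presColim (Z : C) : PreservesFiniteColimits (tensorRight Z) := by
  have := (tensorRightAdjunction Z Zᘁ).leftAdjoint_preservesColimits
  infer_instance

instance presLimL (Z : C) : PreservesFiniteLimits (tensorLeft Z) := by
  have := (tensorLeftAdjunction Z Zᘁ).rightAdjoint_preservesLimits
  infer_instance

instance presColimL (Z : C) : PreservesFiniteColimits (tensorLeft Z) := by
  let _ := exactPairing_swap Z Zᘁ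
  have := (tensorLeftAdjunction Zᘁ Z).leftAdjoint_preservesColimits
  infer_instance

instance mono_wR {X Y : C} (f : X ⟶ Y) [Mono f] (Z : C) : Mono (f ▷ Z) :=
  inferInstanceAs (Mono ((tensorRight Z).map f))

instance epi_wR {X Y : C} (f : X ⟶ Y) [Epi f] (Z : C) : Epi (f ▷ Z) :=
  inferInstanceAs (Epi ((tensorRight Z).map f))

instance mono_wL {X Y : C} (f : X ⟶ Y) [Mono f] (Z : C) : Mono (Z ◁ f) :=
  inferInstanceAs (Mono ((tensorLeft Z).map f))

instance epi_wL {X Y : C} (f : X ⟶ Y) [Epi f] (Z : C) : Epi (Z ◁ f) :=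
  inferInstanceAs (Epi ((tensorLeft Z).map f))

lemma shortExact_wR {S : ShortComplex C} (hS : S.ShortExact) (Z : C) :
    (S.map (tensorRight Z)).ShortExact := hS.map_of_exact (tensorRight Z)

lemma shortExact_wL {S : ShortComplex C} (hS : S.ShortExact) (Z : C) :
    (S.map (tensorLeft Z)).ShortExact := hS.map_of_exact (tensorLeft Z)

lemma mt_zero {X Y X' Y' : C} [ExactPairing X X'] [ExactPairing Y Y'] :
    mt X' Y' (0 : X ⟶ Y) = 0 := by
  simp [mt, rightAdjointMate]

/-- additivity of the trace -/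
theorem trP_additive {S : ShortComplex C} (hS : S.ShortExact) (A' B' D' : C)
    [ExactPairing S.X₁ A'] [ExactPairing S.X₂ B'] [ExactPairing S.X₃ D'] {a : S.X₁ ⟶ S.X₁}
    {b : S.X₂ ⟶ S.X₂} {c : S.X₃ ⟶ S.X₃} (h1 : S.f ≫ b = a ≫ S.f) (h2 : b ≫ S.g = S.g ≫ c) :
    trP S.X₂ B' b = trP S.X₁ A' a + trP S.X₃ D' c := by
  have := hS.mono_f
  have := hS.epi_g
  set i' : B' ⟶ A' := mt A' B' S.f with hi'
  set p' : D' ⟶ B' := mt B' D' S.g with hp'
  have hpi : p' ≫ i' = 0 := by
    rw [hi', hp', ← mt_comp, S.zero, mt_zero]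
  set x := η_ S.X₂ B' ≫ b ▷ B' with hx
  set y := η_ S.X₃ D' ≫ c ▷ D' with hy
  set z := η_ S.X₁ A' ≫ a ▷ A' with hz
  have hx1 : x ≫ S.g ▷ B' = y ≫ S.X₃ ◁ p' := by
    rw [hx, hy, Category.assoc, ← comp_whiskerRight, h2, comp_whiskerRight, ← Category.assoc,
      ← mt_coev (X' := B') (Y' := D') S.g, Category.assoc, Category.assoc, whisker_exchange]
  have hx2 : x ≫ S.X₂ ◁ i' = z ≫ S.f ▷ A' := by
    rw [hx, hz, Category.assoc, ← whisker_exchange, ← Category.assoc,
      mt_coev (X' := A') (Y' := B') S.f, Category.assoc, Category.assoc, ← comp_whiskerRight,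
      ← comp_whiskerRight, h1]
  have goal' : x ≫ ev S.X₂ B' = z ≫ ev S.X₁ A' + y ≫ ev S.X₃ D' → 
      trP S.X₂ B' b = trP S.X₁ A' a + trP S.X₃ D' c := by
    intro h
    unfold trP
    rw [← Category.assoc, ← Category.assoc, ← Category.assoc]
    exact h
  apply goal'
  clear goal'
  clear_value x y z
  -- refinement
  set π := pullback.fst y (S.g ▷ D') with hπ
  set t := pullback.snd y (S.g ▷ D') with ht
  have hπt : π ≫ y = t ≫ S.g ▷ D' := pullback.condition
  have hπe : Epi π := inferInstance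
  set δ := π ≫ x - t ≫ S.X₂ ◁ p' with hδ
  have hδ0 : δ ≫ S.g ▷ B' = 0 := by
    rw [hδ, Preadditive.sub_comp, Category.assoc, Category.assoc, hx1, whisker_exchange,
      ← Category.assoc, hπt, Category.assoc, sub_self]
  clear_value δ
  have hE := shortExact_wR hS B'
  have := hE.mono_f
  obtain ⟨w, hw⟩ : ∃ w : pullback y (S.g ▷ D') ⟶ S.X₁ ⊗ B', w ≫ S.f ▷ B' = δ :=
    ⟨hE.exact.lift δ hδ0, hE.exact.lift_f δ hδ0⟩
  have hw2 : w ≫ S.X₁ ◁ i' = π ≫ z := by
    rw [← cancel_mono (S.f ▷ A'), Category.assoc, whisker_exchange, ← Category.assoc, hw, hδ,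
      Preadditive.sub_comp, Category.assoc, hx2, Category.assoc, Category.assoc,
      ← MonoidalCategory.whiskerLeft_comp, hpi, MonoidalPreadditive.whiskerLeft_zero,
      Limits.comp_zero, sub_zero]
  have key : π ≫ (x ≫ ev S.X₂ B') = π ≫ (z ≫ ev S.X₁ A' + y ≫ ev S.X₃ D') := by
    have h3 : π ≫ x = w ≫ S.f ▷ B' + t ≫ S.X₂ ◁ p' := by
      rw [hw, hδ]
      abel
    rw [← Category.assoc, h3, Preadditive.add_comp, Category.assoc, Category.assoc,
      ← mt_ev (X' := A') (Y' := B') S.f, mt_ev (X' := B') (Y' := D') S.g, ← Category.assoc, hw2,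
      ← Category.assoc t, ← hπt, Preadditive.comp_add, Category.assoc, Category.assoc]
  exact (cancel_epi π).mp key

end

end Mot
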