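import Pool.Agent.Mot.Tate

/-!
# The two sided bound (MP_6c4da4_ag, by helper97)
-/

open CategoryTheory MonoidalCategory BraidedCategory Limits

universe v u

namespace Mot

noncomputable section

set_option linter.unusedSectionVars false

variable {C : Type u} [Category.{v} C] [Abelian C] [Linear ℚ C] [MonoidalCategory C]
  [SymmetricCategory C] [MonoidalPreadditive C] [MonoidalLinear ℚ C] [RightRigidCategory C]

/-- the numerically trivial morphisms from X to the unit -/
def Nt' (X : C) : Submodule ℚ (X ⟶ 𝟙_ C) where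
  carrier := {g | ∀ f : 𝟙_ C ⟶ X, f ≫ g = 0}
  add_mem' {a b} ha hb g := by
    rw [Preadditive.comp_add, ha g, hb g, add_zero]
  zero_mem' g := Limits.comp_zero
  smul_mem' r a ha g := by
    rw [Linear.comp_smul, ha g, smul_zero]

namespace Frob

variable (W : Frob C)

include W in
lemma epi_of_ne {X : C} {g : X ⟶ 𝟙_ C} (hg : g ≠ 0) : Epi g := by
  have := W.simple_unit
  have h1 : IsIso (image.ι g) := by
    rw [Simple.mono_isIso_iff_nonzero]
    intro h
    apply hg
    rw [← image.fac g, h, Limits.comp_zero]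
  rw [← image.fac g]
  infer_instance

lemma rank_aux' (n : ℕ) : ∀ X : C, W.F.app X = 𝟙 X → W.mult X = n →
    Module.rank ℚ (X ⟶ 𝟙_ C) ≤ n := by
  induction n with
  | zero =>
    intro X hX hm
    have h : Subsingleton (X ⟶ 𝟙_ C) := by
      constructor
      have key : ∀ f : X ⟶ 𝟙_ C, f = 0 := by
        intro f
        by_contra hf
        have hepi : Epi f := W.epi_of_ne hf
        have h1 := W.mult_le_of_epi f
        rw [W.mult_unit, hm] at h1
        omega
      intro a b
      rw [key a, key b]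
    rw [rank_subsingleton']
    simp
  | succ n ih =>
    intro X hX hm
    by_cases hex : ∃ f : X ⟶ 𝟙_ C, f ≠ 0
    · obtain ⟨f, hf⟩ := hex
      have hepi : Epi f := W.epi_of_ne hf
      have hS : (ShortComplex.mk (kernel.ι f) f (kernel.condition f)).ShortExact :=
        { exact := ShortComplex.exact_kernel f
          mono_f := inferInstanceAs (Mono (kernel.ι f))
          epi_g := hepi }
      have h := W.mult_add hS
      change W.mult X = W.mult (kernel f) + W.mult (𝟙_ C) at h
      rw [W.mult_unit, hm] at h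
      have hY : W.mult (kernel f) = n := by omega
      have hFY : W.F.app (kernel f) = 𝟙 (kernel f) := by
        rw [← cancel_mono (kernel.ι f), ← W.F_nat, hX]
        exact (Category.comp_id _).trans (Category.id_comp _).symm
      have hr := ih (kernel f) hFY hY
      set φ : (X ⟶ 𝟙_ C) →ₗ[ℚ] (kernel f ⟶ 𝟙_ C) :=
        Linear.leftComp ℚ (𝟙_ C) (kernel.ι f) with hφ
      rw [← LinearMap.rank_range_add_rank_ker φ]
      have h1 : Module.rank ℚ (LinearMap.range φ) ≤ n := (Submodule.rank_le _).trans hr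
      have h2 : LinearMap.ker φ ≤ Submodule.span ℚ {f} := by
        intro g hg
        rw [LinearMap.mem_ker] at hg
        have hg' : kernel.ι f ≫ g = 0 := hg
        have h3 : f ≫ hS.exact.desc g hg' = g := hS.exact.g_desc g hg'
        rw [W.val_spec (hS.exact.desc g hg'), Linear.comp_smul] at h3
        rw [Submodule.mem_span_singleton]
        refine ⟨W.val (hS.exact.desc g hg'), ?_⟩
        refine Eq.trans ?_ h3
        congr 1
        exact (Category.comp_id f).symm
      have h3 : Module.rank ℚ (LinearMap.ker φ) ≤ 1 := by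
        refine (Submodule.rank_mono h2).trans ?_
        refine (rank_span_le _).trans ?_
        simp
      push_cast
      exact add_le_add h1 h3
    · push Not at hex
      have h : Subsingleton (X ⟶ 𝟙_ C) := ⟨fun a b => by rw [hex a, hex b]⟩
      rw [rank_subsingleton']
      simp

/-- the dual bound -/
theorem rank_le' (X : C) : Module.rank ℚ (X ⟶ 𝟙_ C) ≤ W.mult X := by
  obtain ⟨F, hF⟩ : ∃ F : X ⟶ X, F = W.F.app X := ⟨_, rfl⟩
  set π := cokernel.π (F - 𝟙 X) with hπ
  have hepi : Epi π := inferInstanceAs (Epi (cokernel.π _))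
  have h1 : F ≫ π = π := by
    have h2 := cokernel.condition (F - 𝟙 X)
    rw [Preadditive.sub_comp, sub_eq_zero, Category.id_comp] at h2
    exact h2
  have hK : W.F.app (cokernel (F - 𝟙 X)) = 𝟙 (cokernel (F - 𝟙 X)) := by
    rw [← cancel_epi π, W.F_nat, ← hF, h1]
    exact (Category.comp_id _).symm
  have h3 := W.rank_aux' _ _ hK rfl
  have h4 := W.mult_le_of_epi π
  have h5 : Function.Surjective (Linear.leftComp ℚ (𝟙_ C) π) := by
    intro f
    have h6 : (F - 𝟙 X) ≫ f = 0 := by
      rw [Preadditive.sub_comp, hF, ← W.F_nat, W.F_unit, sub_eq_zero]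
      exact (Category.comp_id f).trans (Category.id_comp f).symm
    exact ⟨cokernel.desc _ f h6, cokernel.π_desc _ _ _⟩
  calc Module.rank ℚ (X ⟶ 𝟙_ C) ≤ Module.rank ℚ (cokernel (F - 𝟙 X) ⟶ 𝟙_ C) :=
        LinearMap.rank_le_of_surjective _ h5
    _ ≤ W.mult (cokernel (F - 𝟙 X)) := h3
    _ ≤ W.mult X := by exact_mod_cast h4

/-- dividing out linearly independent sections -/
lemma divide {X : C} (n : ℕ) : ∀ v : Fin n → (𝟙_ C ⟶ X), LinearIndependent ℚ v →
    ∃ (Z : C) (π : X ⟶ Z), Epi π ∧ W.mult X = W.mult Z + n ∧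
      (∀ h : 𝟙_ C ⟶ X, h ≫ π = 0 → h ∈ Submodule.span ℚ (Set.range v)) ∧
      (∀ g : X ⟶ 𝟙_ C, (∀ i, v i ≫ g = 0) → ∃ g' : Z ⟶ 𝟙_ C, π ≫ g' = g) := by
  induction n with
  | zero =>
    intro v _
    refine ⟨X, 𝟙 X, inferInstance, rfl, ?_, ?_⟩
    · intro h hh
      rw [Category.comp_id] at hh
      rw [hh]
      exact Submodule.zero_mem _
    · intro g _
      exact ⟨g, Category.id_comp g⟩
  | succ n ih =>
    intro v hv
    rw [linearIndependent_finSucc'] at hv
    obtain ⟨Z, π, hπ, hm, h1, h2⟩ := ih (Fin.init v) hv.1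
    have hf : v (Fin.last n) ≫ π ≠ 0 := fun h => hv.2 (h1 _ h)
    have := W.simple_unit
    have hmono : Mono (v (Fin.last n) ≫ π) := mono_of_nonzero_from_simple hf
    have hS : (ShortComplex.mk (v (Fin.last n) ≫ π) (cokernel.π (v (Fin.last n) ≫ π))
        (cokernel.condition (v (Fin.last n) ≫ π))).ShortExact :=
      { exact := ShortComplex.exact_cokernel _
        mono_f := hmono
        epi_g := inferInstanceAs (Epi (cokernel.π _)) }
    have h := W.mult_add hS
    change W.mult Z = W.mult (𝟙_ C) + W.mult (cokernel (v (Fin.last n) ≫ π)) at h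
    rw [W.mult_unit] at h
    have hsub : Submodule.span ℚ (Set.range (Fin.init v)) ≤ Submodule.span ℚ (Set.range v) := by
      apply Submodule.span_mono
      rintro _ ⟨i, rfl⟩
      exact ⟨i.castSucc, rfl⟩
    refine ⟨cokernel (v (Fin.last n) ≫ π), π ≫ cokernel.π _, epi_comp _ _, by omega, ?_, ?_⟩
    · intro k hk
      rw [← Category.assoc] at hk
      have h3 : hS.exact.lift (k ≫ π) hk ≫ (v (Fin.last n) ≫ π) = k ≫ π :=
        hS.exact.lift_f (k ≫ π) hk
      rw [W.val_spec (hS.exact.lift (k ≫ π) hk), Linear.smul_comp] at h3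
      set r := W.val (hS.exact.lift (k ≫ π) hk)
      have h3' : r • (v (Fin.last n) ≫ π) = k ≫ π := by
        refine Eq.trans ?_ h3
        congr 1
        exact (Category.id_comp _).symm
      have h4 : (k - r • v (Fin.last n)) ≫ π = 0 := by
        rw [Preadditive.sub_comp, Linear.smul_comp, h3', sub_self]
      have h5 := hsub (h1 _ h4)
      have h6 : k = (k - r • v (Fin.last n)) + r • v (Fin.last n) := by abel
      rw [h6]
      exact Submodule.add_mem _ h5 (Submodule.smul_mem _ _ (Submodule.subset_span ⟨_, rfl⟩))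
    · intro g hg
      obtain ⟨g', hg'⟩ := h2 g (fun i => hg i.castSucc)
      have h3 : (v (Fin.last n) ≫ π) ≫ g' = 0 := by
        rw [Category.assoc, hg', hg]
      refine ⟨cokernel.desc _ g' h3, ?_⟩
      rw [Category.assoc, cokernel.π_desc, hg']

/-- the two sided bound -/
theorem bound (X : C) :
    Module.finrank ℚ (𝟙_ C ⟶ X) + Module.finrank ℚ (Nt' X) ≤ W.mult X := by
  have hfin := W.finite_hom (𝟙_ C) X
  have hfin' := W.finite_hom X (𝟙_ C)
  obtain ⟨Z, π, hπ, hm, -, h2⟩ := W.divide (X := X) _ (Module.finBasis ℚ (𝟙_ C ⟶ X))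
    (Module.finBasis ℚ (𝟙_ C ⟶ X)).linearIndependent
  have hfin'' := W.finite_hom Z (𝟙_ C)
  have h3 := Module.finrank_le_of_rank_le (W.rank_le' Z)
  have h4 : Nt' X ≤ LinearMap.range (Linear.leftComp ℚ (𝟙_ C) π) := by
    intro g hg
    obtain ⟨g', hg'⟩ := h2 g (fun i => hg _)
    exact ⟨g', hg'⟩
  have h5 := Submodule.finrank_mono h4
  have h6 := LinearMap.finrank_range_le (Linear.leftComp ℚ (𝟙_ C) π)
  omega

/-- the local form: the strong Tate conjecture for X forces that numerically trivial morphisms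
𝟙 ⟶ X and X ⟶ 𝟙 are zero -/
theorem local_tate (X : C) (h : W.mult X = Module.finrank ℚ ((𝟙_ C ⟶ X) ⧸ Nt X)) :
    Nt X = ⊥ ∧ Nt' X = ⊥ := by
  have hfin := W.finite_hom (𝟙_ C) X
  have hfin' := W.finite_hom X (𝟙_ C)
  have h1 := W.bound X
  have h2 := Submodule.finrank_quotient_add_finrank (Nt X)
  constructor
  · exact Submodule.finrank_eq_zero.mp (by omega)
  · exact Submodule.finrank_eq_zero.mp (by omega)

end Frob

end

end Mot
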