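import Mathlib

/-!
# Definitions for MP_6c4da4_ag (abelianness of Chow motives over a finite field), by helper97
-/

open CategoryTheory MonoidalCategory BraidedCategory Limits

universe v u

namespace Mot

noncomputable section

section Monoidal

variable {C : Type u} [Category.{v} C] [MonoidalCategory C] [SymmetricCategory C]

/-- The trace of an endomorphism of an object with a dual, an endomorphism of the unit:
`𝟙 ⟶ X ⊗ X' ⟶ X ⊗ X' ⟶ X' ⊗ X ⟶ 𝟙` (coevaluation, `f ⊗ id`, symmetry, evaluation). -/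
def trace [RightRigidCategory C] {X : C} (f : X ⟶ X) : 𝟙_ C ⟶ 𝟙_ C :=
  η_ X Xᘁ ≫ f ▷ Xᘁ ≫ (β_ X Xᘁ).hom ≫ ε_ X Xᘁ

/-- The tensor power `X ^ (⊗ n)`, with the bracketing to the left. -/
def T (X : C) : ℕ → C
  | 0 => 𝟙_ C
  | n + 1 => T X n ⊗ X

/-- The exchange of the last two factors of `(P ⊗ X) ⊗ X`. -/
def sw (P X : C) : (P ⊗ X) ⊗ X ⟶ (P ⊗ X) ⊗ X :=
  (α_ P X X).hom ≫ P ◁ (β_ X X).hom ≫ (α_ P X X).inv

/-- `Adj X n s`: `s` is one of the `n - 1` exchanges of neighbouring factors of `X ^ (⊗ n)`. -/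
inductive Adj (X : C) : (n : ℕ) → (T X n ⟶ T X n) → Prop
  | last (n : ℕ) : Adj X (n + 2) (sw (T X n) X)
  | up (n : ℕ) (s : T X n ⟶ T X n) : Adj X n s → Adj X (n + 1) (s ▷ X)

/-- The `n`-th exterior power of `X` is zero: every alternating morphism out of `X ^ (⊗ n)` (one
which changes its sign under the exchange of two neighbouring factors) is zero. -/
def ExteriorPowerZero [Preadditive C] (X : C) (n : ℕ) : Prop :=
  ∀ (Z : C) (g : T X n ⟶ Z), (∀ s, Adj X n s → s ≫ g = -g) → g = 0

/-- The `n`-th symmetric power of `X` is zero: every symmetric morphism out of `X ^ (⊗ n)` is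
zero. -/
def SymmetricPowerZero [Preadditive C] (X : C) (n : ℕ) : Prop :=
  ∀ (Z : C) (g : T X n ⟶ Z), (∀ s, Adj X n s → s ≫ g = g) → g = 0

/-- The numerically trivial morphisms `X ⟶ 𝟙`: those orthogonal to all morphisms `𝟙 ⟶ X`. -/
def numTrivial [Preadditive C] [Linear ℚ C] (X : C) : Submodule ℚ (X ⟶ 𝟙_ C) where
  carrier := {g | ∀ f : 𝟙_ C ⟶ X, f ≫ g = 0}
  add_mem' {a b} ha hb g := by
    rw [Preadditive.comp_add, ha g, hb g, add_zero]
  zero_mem' g := Limits.comp_zero
  smul_mem' r a ha g := by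
    rw [Linear.comp_smul, ha g, smul_zero]

end Monoidal

/-- The component at `X` of a natural endomorphism of the identity functor, as an element of the
monoid of endomorphisms of `X`. -/
def component {C : Type u} [Category.{v} C] (F : 𝟭 C ⟶ 𝟭 C) (X : C) : End X := F.app X

/-- A Frobenius structure on a `ℚ`-linear abelian rigid symmetric monoidal category `C`.  The
endomorphisms of the unit are the rational scalars, `F` is a monoidal natural endomorphism of the
identity functor, and `even X`, `odd X` are finite multisets of complex numbers (the eigenvalues of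
Frobenius on the even and on the odd part of the cohomology of `X`) such that the trace formula
`tr (F_X ^ n) = ∑ z ^ n (z in even X) - ∑ z ^ n (z in odd X)` holds for all `n ≥ 0` and such that
`1` is never an odd eigenvalue. -/
structure Frobenius (C : Type u) [Category.{v} C] [Abelian C] [Linear ℚ C] [MonoidalCategory C]
    [SymmetricCategory C] [MonoidalPreadditive C] [MonoidalLinear ℚ C] [RightRigidCategory C] where
  scalar : ∀ f : 𝟙_ C ⟶ 𝟙_ C, ∃ r : ℚ, f = r • 𝟙 (𝟙_ C)
  unit_ne : 𝟙 (𝟙_ C) ≠ 0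
  F : 𝟭 C ⟶ 𝟭 C
  F_unit : F.app (𝟙_ C) = 𝟙 (𝟙_ C)
  F_tensor : ∀ X Y : C, F.app (X ⊗ Y) = F.app X ⊗ₘ F.app Y
  even : C → Multiset ℂ
  odd : C → Multiset ℂ
  trace_formula : ∀ (X : C) (n : ℕ) (r : ℚ),
    trace (component F X ^ n) = r • 𝟙 (𝟙_ C) →
      (r : ℂ) = ((even X).map (fun z => z ^ n)).sum - ((odd X).map (fun z => z ^ n)).sum
  one_not_odd : ∀ X : C, (1 : ℂ) ∉ odd X

end

end Mot
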