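import Pool.Agent.Mot.Index

/-!
# The linear bound for the length (MP_6c4da4_ag, by helper97)
-/

open CategoryTheory MonoidalCategory BraidedCategory Limits Polynomial

universe v u

namespace Mot

noncomputable section

set_option linter.unusedSectionVars false

variable {C : Type u} [Category.{v} C] [Abelian C] [Linear ℚ C] [MonoidalCategory C]
  [SymmetricCategory C] [MonoidalPreadditive C] [MonoidalLinear ℚ C] [RightRigidCategory C]

/-- the trace of an endomorphism of the dual -/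
lemma tr_dual {X : C} (G : Xᘁ ⟶ Xᘁ) (H : X ⟶ X) (h : η_ X Xᘁ ≫ X ◁ G = nm H) :
    tr Xᘁ G = tr X H := by
  let inst : ExactPairing Xᘁ X := exactPairing_swap X Xᘁ
  have h1 : tr Xᘁ G = @trP C _ _ _ Xᘁ X inst G := by
    unfold tr
    exact trP_indep G
  rw [h1]
  unfold trP ev
  have h2 : @ExactPairing.coevaluation C _ _ Xᘁ X inst = η_ X Xᘁ ≫ (β_ Xᘁ X).inv := rfl
  have h3 : @ExactPairing.evaluation C _ _ Xᘁ X inst = (β_ X Xᘁ).hom ≫ ε_ X Xᘁ := rfl
  rw [h2, h3]
  have h4 : (β_ Xᘁ X).inv = (β_ X Xᘁ).hom :=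
    (SymmetricCategory.braiding_swap_eq_inv_braiding Xᘁ X).symm
  rw [h4, SymmetricCategory.symmetry_assoc, Category.assoc, ← braiding_naturality_right_assoc,
    ← Category.assoc, h]
  unfold nm tr trP ev
  rw [Category.assoc]

namespace Frob

variable (W : Frob C)

/-- the inverse of the power of Frobenius and the trace on the dual -/
lemma dual_inv (X : C) (n : ℕ) : ∃ H : End X, (H : X ⟶ X) ≫ W.Fp X n = 𝟙 X ∧
    W.t Xᘁ n = W.val (tr X H) := by
  obtain ⟨H, hH⟩ := nm_surj (η_ X Xᘁ ≫ X ◁ W.Fp Xᘁ n)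
  have h1 : η_ X Xᘁ ≫ (W.Fp X n ⊗ₘ W.Fp Xᘁ n) = η_ X Xᘁ := by
    rw [← W.Fp_tensor, W.Fp_nat, W.Fp_of_one W.F_unit, Category.id_comp]
  refine ⟨H, ?_, ?_⟩
  · apply nm_inj
    rw [nm_comp, hH, Category.assoc, ← tensorHom_def', h1]
    unfold nm
    rw [id_whiskerRight, Category.comp_id]
  · unfold t
    rw [tr_dual _ H hH.symm]

/-- in a finite-dimensional algebra the inverse of an element is a polynomial in it -/
lemma inv_poly {A : Type v} [Ring A] [Algebra ℚ A] [Module.Finite ℚ A] (a b : A)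
    (h : a * b = 1) :
    ∃ g : ℚ[X], aeval a (X * g) = 1 ∧ minpoly ℚ a ∣ X * g - 1 := by
  have hint : IsIntegral ℚ a := IsIntegral.of_finite ℚ a
  set μ := minpoly ℚ a with hμ
  have hm : μ ≠ 0 := minpoly.ne_zero hint
  have hdiv := Polynomial.X_mul_divX_add μ
  have hc : μ.coeff 0 ≠ 0 := by
    intro h0
    rw [h0, C_0, add_zero] at hdiv
    have h1 : aeval a (divX μ) * a = 0 := by
      have h2 : aeval a (divX μ * X) = 0 := by
        rw [mul_comm, hdiv]
        exact minpoly.aeval ℚ a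
      rwa [map_mul, aeval_X] at h2
    have h2 : aeval a (divX μ) = 0 := by
      calc aeval a (divX μ) = aeval a (divX μ) * a * b := by rw [mul_assoc, h, mul_one]
        _ = 0 := by rw [h1, zero_mul]
    have h3 : divX μ ≠ 0 := by
      intro h4
      rw [h4, mul_zero] at hdiv
      exact hm hdiv.symm
    have h4 := minpoly.degree_le_of_ne_zero ℚ a h3 h2
    have h5 : degree μ = degree (divX μ) + 1 := by
      conv_lhs => rw [← hdiv]
      rw [degree_mul, degree_X, add_comm]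
    rw [← hμ, h5, degree_eq_natDegree h3] at h4
    have h6 : (((divX μ).natDegree + 1 : ℕ) : WithBot ℕ) ≤ ((divX μ).natDegree : WithBot ℕ) := by
      exact_mod_cast h4
    have h7 : (divX μ).natDegree + 1 ≤ (divX μ).natDegree := by exact_mod_cast h6
    omega
  have hg : X * (C (-(μ.coeff 0)⁻¹) * divX μ) - 1 = C (-(μ.coeff 0)⁻¹) * μ := by
    have h1 : C (-(μ.coeff 0)⁻¹) * μ = C (-(μ.coeff 0)⁻¹) * (X * divX μ + C (μ.coeff 0)) := by
      rw [hdiv]
    rw [h1, mul_add, ← C_mul]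
    have h2 : -(μ.coeff 0)⁻¹ * μ.coeff 0 = -1 := by
      rw [neg_mul, inv_mul_cancel₀ hc]
    rw [h2]
    simp only [map_neg, C_1]
    ring
  refine ⟨C (-(μ.coeff 0)⁻¹) * divX μ, ?_, ?_⟩
  · have h1 : aeval a (X * (C (-(μ.coeff 0)⁻¹) * divX μ) - 1) = 0 := by
      rw [hg, map_mul, hμ, minpoly.aeval, mul_zero]
    rw [map_sub, map_one, sub_eq_zero] at h1
    exact h1
  · rw [hg]
    exact Dvd.intro_left _ rfl

/-- the eigenvalues with a net multiplicity are roots of the minimal polynomial -/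
lemma ν_root {X : C} {z : ℂ} (h : W.ν X z ≠ 0) : aeval z (minpoly ℚ (W.FE X)) = 0 := by
  have hfin : Module.Finite ℚ (End X) := W.finite_hom X X
  set g := minpoly ℚ (W.FE X) with hg
  have h1 : ∀ n : ℕ, ∑ z ∈ W.S X, ((W.ν X z : ℂ) * aeval z g) * z ^ n = 0 := by
    intro n
    have h2 := W.tr_poly X (g * Polynomial.X ^ n)
    have h3 : aeval (W.FE X) (g * Polynomial.X ^ n) = 0 := by
      rw [map_mul, hg, minpoly.aeval, zero_mul]
    rw [h3] at h2
    have h4 : tr X ((0 : End X) : X ⟶ X) = 0 := tr_zero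
    rw [h4, W.val_zero] at h2
    rw [Rat.cast_zero] at h2
    rw [h2]
    apply Finset.sum_congr rfl
    intro z _
    rw [map_mul, map_pow, aeval_X]
    ring
  have h2 := lag (W.S X) _ h1 z (W.mem_of_ν h)
  rcases mul_eq_zero.mp h2 with h4 | h4
  · exfalso
    apply h
    exact_mod_cast h4
  · exact h4

/-- the traces of Frobenius on the dual, and the eigenvalues are not zero -/
lemma t_dual (X : C) : (∀ n, (W.t Xᘁ n : ℂ) = ∑ z ∈ W.S X, (W.ν X z : ℂ) * (z⁻¹) ^ n) ∧
    ∀ z, W.ν X z ≠ 0 → z ≠ 0 := by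
  have hfin : Module.Finite ℚ (End X) := W.finite_hom X X
  obtain ⟨H1, hH1, -⟩ := W.dual_inv X 1
  have hF : W.FE X * (H1 : End X) = 1 := by
    have h1 : W.Fp X 1 = W.FE X := by
      have h2 := W.FE_pow X 1
      rw [pow_one] at h2
      exact h2.symm
    rw [h1] at hH1
    exact hH1
  obtain ⟨g, hg1, hg2⟩ := inv_poly (W.FE X) H1 hF
  have hz : ∀ z, W.ν X z ≠ 0 → z * aeval z g = 1 := by
    intro z h
    obtain ⟨q, hq⟩ := hg2
    have h1 := congrArg (aeval z) hq
    rw [map_mul, W.ν_root h, zero_mul, map_sub, map_one, map_mul, aeval_X, sub_eq_zero] at h1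
    exact h1
  refine ⟨?_, ?_⟩
  · intro n
    obtain ⟨H, hH, ht⟩ := W.dual_inv X n
    have h1 : (H : End X) = aeval (W.FE X) (g ^ n) := by
      have h2 : W.FE X ^ n * (H : End X) = 1 := by
        rw [W.FE_pow]
        exact hH
      have h3 : aeval (W.FE X) (g ^ n) * W.FE X ^ n = 1 := by
        have h4 : aeval (W.FE X) ((Polynomial.X * g) ^ n) = 1 := by
          rw [map_pow, hg1, one_pow]
        have h5 : (Polynomial.X * g) ^ n = g ^ n * Polynomial.X ^ n := by
          rw [mul_pow, mul_comm]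
        rw [h5, map_mul, map_pow _ (Polynomial.X), aeval_X] at h4
        exact h4
      calc (H : End X) = (aeval (W.FE X) (g ^ n) * W.FE X ^ n) * (H : End X) := by
            rw [h3, one_mul]
        _ = aeval (W.FE X) (g ^ n) * (W.FE X ^ n * (H : End X)) := by rw [mul_assoc]
        _ = _ := by rw [h2, mul_one]
    have h2 := W.tr_poly X (g ^ n)
    rw [← h1] at h2
    rw [ht]
    refine h2.trans ?_
    apply Finset.sum_congr rfl
    intro z _
    by_cases h3 : W.ν X z = 0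
    · rw [h3]
      simp
    · have h4 := hz z h3
      have h5 : z ≠ 0 := by
        intro h6
        rw [h6, zero_mul] at h4
        exact zero_ne_one h4
      have h6 : aeval z g = z⁻¹ := by
        field_simp
        rw [mul_comm]
        exact h4
      rw [map_pow, h6]
  · intro z h h0
    have h4 := hz z h
    rw [h0, zero_mul] at h4
    exact zero_ne_one h4

/-- the multiplicity of 1 for a Hom object -/
lemma mult_hom (X Y : C) : (W.mult (X ⊗ Yᘁ) : ℂ) =
    ∑ z ∈ W.S X, ∑ w ∈ W.S Y, (W.ν X z : ℂ) * (W.ν Y w : ℂ) * (if z * w⁻¹ = 1 then 1 else 0) := by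
  classical
  obtain ⟨P, h1, hP⟩ := exP ((W.α (X ⊗ Yᘁ) + W.β (X ⊗ Yᘁ)).toFinset ∪
    Finset.image (fun p : ℂ × ℂ => p.1 * p.2⁻¹) (W.S X ×ˢ W.S Y))
  have e1 := W.mult_eq (X ⊗ Yᘁ) P h1
    (fun z hz => hP z (Finset.mem_union_left _ (by simp [hz])))
    (fun z hz => hP z (Finset.mem_union_left _ (by simp [hz])))
  rw [← e1]
  have e2 : ∀ k, (W.t (X ⊗ Yᘁ) k : ℂ) =
      ∑ z ∈ W.S X, ∑ w ∈ W.S Y, (W.ν X z : ℂ) * (W.ν Y w : ℂ) * (z * w⁻¹) ^ k := by
    intro k
    rw [W.t_tensor]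
    push_cast
    rw [(W.t_dual Y).1 k]
    have e3 : (W.t X k : ℂ) = ∑ z ∈ W.S X, (W.ν X z : ℂ) * z ^ k := by
      rw [W.t_formula, sum_nu]
      rfl
    rw [e3, Finset.sum_mul_sum]
    apply Finset.sum_congr rfl
    intro z _
    apply Finset.sum_congr rfl
    intro w _
    rw [mul_pow]
    ring
  have e3 : ∀ k ∈ P.support, P.coeff k * (W.t (X ⊗ Yᘁ) k : ℂ) =
      ∑ z ∈ W.S X, ∑ w ∈ W.S Y, (W.ν X z : ℂ) * (W.ν Y w : ℂ) * (P.coeff k * (z * w⁻¹) ^ k) := by
    intro k _
    rw [e2, Finset.mul_sum]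
    apply Finset.sum_congr rfl
    intro z _
    rw [Finset.mul_sum]
    apply Finset.sum_congr rfl
    intro w _
    ring
  rw [Finset.sum_congr rfl e3, Finset.sum_comm]
  apply Finset.sum_congr rfl
  intro z hz
  rw [Finset.sum_comm]
  apply Finset.sum_congr rfl
  intro w hw
  rw [← Finset.mul_sum]
  congr 1
  have e4 : ∑ k ∈ P.support, P.coeff k * (z * w⁻¹) ^ k = P.eval (z * w⁻¹) := by
    rw [eval_eq_sum, Polynomial.sum]
  rw [e4]
  split_ifs with h
  · rw [h, h1]
  · exact hP _ (Finset.mem_union_right _ (Finset.mem_image.mpr ⟨(z, w),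
      Finset.mem_product.mpr ⟨hz, hw⟩, rfl⟩)) h

end Frob

end

end Mot
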