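import Pool.Agent.Mot.EqDefs
import Pool.Agent.Mot.Conv

/-!
# Abelian implies that numerically trivial morphisms are zero, under the strong Tate property
(MP_6c4da4_ag, by helper97)
-/

open CategoryTheory MonoidalCategory BraidedCategory Limits

universe v u

namespace Mot

noncomputable section

set_option linter.unusedSectionVars false

section AbelianCase

variable {C : Type u} [Category.{v} C] [Abelian C] [Linear ℚ C] [MonoidalCategory C]
  [SymmetricCategory C] [MonoidalPreadditive C] [MonoidalLinear ℚ C] [RightRigidCategory C]

/-- the structure used in the proofs -/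
def AdditiveFrobenius.toFrob (W : AdditiveFrobenius C) : Frob C where
  scalar := W.scalar
  ne := W.unit_ne
  F := W.F
  F_unit := W.F_unit
  F_tensor := W.F_tensor
  α := W.even
  β := W.odd
  trace := by
    intro X n r h
    apply W.trace_formula X n r
    rw [← h]
    have h1 : component W.F X ^ n = (pw (W.F.app X) n : End X) := end_pow _ n
    rw [h1]
    rfl
  odd := W.one_not_odd

theorem numTrivialZero_of_abelian (W : AdditiveFrobenius C) (hT : StrongTate W) :
    NumTrivialZero C := by
  intro X Y f hf
  apply W.toFrob.numTriv_zero ?_ f hf
  intro Z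
  exact (Module.finrank_eq_of_rank_eq (hT Z)).symm

end AbelianCase

theorem numTrivialZero_of_isAbelian {C : Type u} [Category.{v} C] [Preadditive C] [Linear ℚ C]
    [MonoidalCategory C] [SymmetricCategory C] [MonoidalPreadditive C] [MonoidalLinear ℚ C]
    [RightRigidCategory C] [HasFiniteBiproducts C] (W : AdditiveFrobenius C) (hT : StrongTate W)
    (h : IsAbelian C) : NumTrivialZero C := by
  obtain ⟨hk, hc, hi⟩ := h
  have hi' : ∀ {X Y : C} (f : X ⟶ Y), IsIso (Abelian.coimageImageComparison f) := hi
  let inst : Abelian C := Abelian.ofCoimageImageComparisonIsIso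
  exact @numTrivialZero_of_abelian C _ inst _ _ _ _ _ _ W hT

end

end Mot
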