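import Pool.Agent.Mot.Defs

/-!
# Definitions for the equivalence under the strong Tate conjecture (MP_6c4da4_ag), by helper97
-/

open CategoryTheory MonoidalCategory BraidedCategory Limits

universe v u

namespace Mot

noncomputable section

/-- `C` is abelian: every morphism has a kernel and a cokernel, and the canonical morphism from the
coimage to the image is an isomorphism. -/
def IsAbelian (C : Type u) [Category.{v} C] [Preadditive C] : Prop :=
  ∃ (_ : HasKernels C) (_ : HasCokernels C), ∀ {X Y : C} (f : X ⟶ Y),
    IsIso (Abelian.coimageImageComparison f)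

/-- The numerically trivial morphisms `𝟙 ⟶ X`: those orthogonal to all morphisms `X ⟶ 𝟙`. -/
def numTrivialFrom {C : Type u} [Category.{v} C] [MonoidalCategory C] [Preadditive C] [Linear ℚ C]
    (X : C) : Submodule ℚ (𝟙_ C ⟶ X) where
  carrier := {f | ∀ g : X ⟶ 𝟙_ C, f ≫ g = 0}
  add_mem' {a b} ha hb g := by
    rw [Preadditive.add_comp, ha g, hb g, add_zero]
  zero_mem' g := Limits.zero_comp
  smul_mem' r a ha g := by
    rw [Linear.smul_comp, ha g, smul_zero]

/-- A Frobenius structure on a `ℚ`-linear additive rigid symmetric monoidal category `C` (not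
necessarily abelian).  The endomorphisms of the unit are the rational scalars, the trace of a
nilpotent endomorphism is zero, `F` is a monoidal natural endomorphism of the identity functor, and
`even X`, `odd X` are finite multisets of complex numbers (the eigenvalues of Frobenius on the even
and on the odd part of the cohomology of `X`) with the trace formula
`tr (F_X ^ n) = ∑ z ^ n (z in even X) - ∑ z ^ n (z in odd X)` for all `n ≥ 0`; `1` is never an odd
eigenvalue. -/
structure AdditiveFrobenius (C : Type u) [Category.{v} C] [Preadditive C] [Linear ℚ C]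
    [MonoidalCategory C] [SymmetricCategory C] [MonoidalPreadditive C] [MonoidalLinear ℚ C]
    [RightRigidCategory C] where
  scalar : ∀ f : 𝟙_ C ⟶ 𝟙_ C, ∃ r : ℚ, f = r • 𝟙 (𝟙_ C)
  unit_ne : 𝟙 (𝟙_ C) ≠ 0
  trace_nilpotent : ∀ (X : C) (f : End X), IsNilpotent f → trace f = 0
  F : 𝟭 C ⟶ 𝟭 C
  F_unit : F.app (𝟙_ C) = 𝟙 (𝟙_ C)
  F_tensor : ∀ X Y : C, F.app (X ⊗ Y) = F.app X ⊗ₘ F.app Y
  even : C → Multiset ℂ
  odd : C → Multiset ℂ
  trace_formula : ∀ (X : C) (n : ℕ) (r : ℚ),
    trace (component F X ^ n) = r • 𝟙 (𝟙_ C) →
      (r : ℂ) = ((even X).map (fun z => z ^ n)).sum - ((odd X).map (fun z => z ^ n)).sum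
  one_not_odd : ∀ X : C, (1 : ℂ) ∉ odd X

/-- The strong Tate property of a Frobenius structure: for every object `X` the multiplicity of the
Frobenius eigenvalue `1` in `even X` is the dimension of the space of morphisms `𝟙 ⟶ X` modulo the
numerically trivial ones. -/
def StrongTate {C : Type u} [Category.{v} C] [Preadditive C] [Linear ℚ C] [MonoidalCategory C]
    [SymmetricCategory C] [MonoidalPreadditive C] [MonoidalLinear ℚ C] [RightRigidCategory C]
    (W : AdditiveFrobenius C) : Prop :=
  ∀ X : C, Module.rank ℚ ((𝟙_ C ⟶ X) ⧸ numTrivialFrom X) = ((W.even X).count 1 : ℕ)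

/-- Every numerically trivial morphism of `C` is zero. -/
def NumTrivialZero (C : Type u) [Category.{v} C] [Preadditive C] [MonoidalCategory C]
    [SymmetricCategory C] [RightRigidCategory C] : Prop :=
  ∀ (X Y : C) (f : X ⟶ Y), (∀ g : Y ⟶ X, trace (f ≫ g) = 0) → f = 0

end

end Mot
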