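import Pool.Agent.Mot.EqDefs

/-!
# Numerically trivial morphisms are zero implies abelian (MP_6c4da4_ag, by helper97)
-/

open CategoryTheory MonoidalCategory BraidedCategory Limits

universe v u

namespace Mot

noncomputable section

set_option linter.unusedSectionVars false

/-! ## Regular rings -/

/-- a semisimple ring is von Neumann regular -/
theorem regular_of_semisimple {A : Type*} [Ring A] [IsSemisimpleRing A] (f : A) :
    ∃ g : A, f * g * f = f := by
  obtain ⟨e, he, hs⟩ := IsSemisimpleRing.ideal_eq_span_idempotent (Ideal.span {f})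
  have h1 : e ∈ Ideal.span {f} := hs ▸ Ideal.mem_span_singleton_self e
  obtain ⟨g, hg⟩ := Ideal.mem_span_singleton'.mp h1
  have h2 : f ∈ Ideal.span {e} := hs ▸ Ideal.mem_span_singleton_self f
  obtain ⟨a, ha⟩ := Ideal.mem_span_singleton'.mp h2
  refine ⟨g, ?_⟩
  rw [mul_assoc, hg, ← ha, mul_assoc, he.eq]

/-- a finite-dimensional algebra without nonzero left ideals of nilpotent elements is regular -/
theorem regular_of_nil {A : Type*} [Ring A] [Algebra ℚ A] [Module.Finite ℚ A]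
    (h : ∀ f : A, (∀ g : A, IsNilpotent (g * f)) → f = 0) (f : A) : ∃ g : A, f * g * f = f := by
  have hA : IsArtinianRing A := IsArtinianRing.of_finite ℚ A
  have hJ : Ring.jacobson A = ⊥ := by
    rw [eq_bot_iff]
    intro x hx
    rw [Submodule.mem_bot]
    apply h
    intro g
    have h1 : g * x ∈ Ring.jacobson A := Ideal.mul_mem_left _ g hx
    obtain ⟨n, hn⟩ := IsArtinianRing.isNilpotent_jacobson_bot (R := A)
    rw [Ideal.jacobson_bot] at hn
    refine ⟨n, ?_⟩
    have h2 : (g * x) ^ n ∈ (Ring.jacobson A) ^ n := Ideal.pow_mem_pow h1 n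
    rw [hn] at h2
    exact h2
  have hs : IsSemisimpleRing A := IsArtinianRing.isSemisimpleRing_iff_jacobson.mpr hJ
  exact regular_of_semisimple f

/-! ## Regular categories with split idempotents are abelian -/

section Regular

variable {C : Type u} [Category.{v} C] [Preadditive C] [IsIdempotentComplete C]

theorem kernel_of_regular {X Y : C} (f : X ⟶ Y) (g : Y ⟶ X) (h : f ≫ g ≫ f = f) :
    HasKernel f := by
  have he : (𝟙 X - f ≫ g) ≫ (𝟙 X - f ≫ g) = 𝟙 X - f ≫ g := by
    simp only [Preadditive.sub_comp, Preadditive.comp_sub, Category.id_comp, Category.comp_id,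
      Category.assoc]
    rw [← Category.assoc g f g, ← Category.assoc f (g ≫ f) g, h]
    abel
  obtain ⟨K, k, q, h1, h2⟩ := IsIdempotentComplete.idempotents_split X _ he
  have hk : k ≫ f = 0 := by
    have e1 : k = k ≫ q ≫ k := by rw [← Category.assoc, h1, Category.id_comp]
    rw [e1, h2]
    simp only [Preadditive.sub_comp, Preadditive.comp_sub, Category.comp_id, Category.assoc]
    rw [h, sub_self]
  have hm : ∀ {W : C} (x : W ⟶ X), x ≫ f = 0 → x ≫ q ≫ k = x := by
    intro W x hx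
    rw [h2, Preadditive.comp_sub, Category.comp_id, ← Category.assoc, hx, zero_comp, sub_zero]
  refine ⟨⟨⟨KernelFork.ofι k hk, KernelFork.IsLimit.ofι k hk (fun x _ => x ≫ q)
    (fun x hx => ?_) (fun x hx m hm' => ?_)⟩⟩⟩
  · rw [Category.assoc]
    exact hm x hx
  · rw [← hm', Category.assoc, h1, Category.comp_id]

theorem cokernel_of_regular {X Y : C} (f : X ⟶ Y) (g : Y ⟶ X) (h : f ≫ g ≫ f = f) :
    HasCokernel f := by
  have he : (𝟙 Y - g ≫ f) ≫ (𝟙 Y - g ≫ f) = 𝟙 Y - g ≫ f := by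
    simp only [Preadditive.sub_comp, Preadditive.comp_sub, Category.id_comp, Category.comp_id,
      Category.assoc]
    rw [h]
    abel
  obtain ⟨K, k, q, h1, h2⟩ := IsIdempotentComplete.idempotents_split Y _ he
  have hk : f ≫ q = 0 := by
    have e1 : q = (q ≫ k) ≫ q := by rw [Category.assoc, h1, Category.comp_id]
    rw [e1, h2]
    simp only [Preadditive.sub_comp, Preadditive.comp_sub, Category.id_comp]
    rw [← Category.assoc f (g ≫ f) q, h, sub_self]
  have hm : ∀ {W : C} (x : Y ⟶ W), f ≫ x = 0 → (q ≫ k) ≫ x = x := by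
    intro W x hx
    rw [h2, Preadditive.sub_comp, Category.id_comp, Category.assoc, hx, comp_zero, sub_zero]
  refine ⟨⟨⟨CokernelCofork.ofπ q hk, CokernelCofork.IsColimit.ofπ q hk (fun x _ => k ≫ x)
    (fun x hx => ?_) (fun x hx m hm' => ?_)⟩⟩⟩
  · rw [← Category.assoc]
    exact hm x hx
  · rw [← hm', ← Category.assoc, h1, Category.id_comp]

theorem comparison_of_regular [HasKernels C] [HasCokernels C] {X Y : C} (f : X ⟶ Y) (g : Y ⟶ X)
    (h : f ≫ g ≫ f = f) : IsIso (Abelian.coimageImageComparison f) := by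
  have hf := Abelian.coimage_image_factorisation f
  have k1 : (𝟙 X - f ≫ g) ≫ Abelian.coimage.π f = 0 := by
    have e1 : (𝟙 X - f ≫ g) ≫ f = 0 := by
      rw [Preadditive.sub_comp, Category.id_comp, Category.assoc, h, sub_self]
    have e2 : kernel.lift f _ e1 ≫ kernel.ι f = 𝟙 X - f ≫ g := kernel.lift_ι _ _ _
    rw [← e2, Category.assoc]
    have e3 : kernel.ι f ≫ Abelian.coimage.π f = 0 := cokernel.condition _
    rw [e3, comp_zero]
  have k2 : Abelian.image.ι f ≫ (𝟙 Y - g ≫ f) = 0 := by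
    have e1 : f ≫ (𝟙 Y - g ≫ f) = 0 := by
      rw [Preadditive.comp_sub, Category.comp_id, h, sub_self]
    have e2 : cokernel.π f ≫ cokernel.desc f _ e1 = 𝟙 Y - g ≫ f := cokernel.π_desc _ _ _
    rw [← e2, ← Category.assoc]
    have e3 : Abelian.image.ι f ≫ cokernel.π f = 0 := kernel.condition _
    rw [e3, zero_comp]
  rw [Preadditive.sub_comp, Category.id_comp, sub_eq_zero] at k1
  rw [Preadditive.comp_sub, Category.comp_id, sub_eq_zero] at k2
  refine ⟨⟨Abelian.image.ι f ≫ g ≫ Abelian.coimage.π f, ?_, ?_⟩⟩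
  · rw [← cancel_epi (Abelian.coimage.π f)]
    rw [← Category.assoc, ← Category.assoc, Category.assoc (Abelian.coimage.π f), hf,
      Category.comp_id, ← Category.assoc]
    exact k1.symm
  · rw [← cancel_mono (Abelian.image.ι f)]
    simp only [Category.assoc, Category.id_comp]
    rw [hf]
    exact k2.symm

theorem isAbelian_of_regular (h : ∀ {X Y : C} (f : X ⟶ Y), ∃ g : Y ⟶ X, f ≫ g ≫ f = f) :
    IsAbelian C := by
  have hk : HasKernels C := ⟨fun {X Y} f => by
    obtain ⟨g, hg⟩ := h f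
    exact kernel_of_regular f g hg⟩
  have hc : HasCokernels C := ⟨fun {X Y} f => by
    obtain ⟨g, hg⟩ := h f
    exact cokernel_of_regular f g hg⟩
  refine ⟨hk, hc, fun {X Y} f => ?_⟩
  obtain ⟨g, hg⟩ := h f
  exact comparison_of_regular f g hg

end Regular

/-! ## Hom spaces -/

section Rigid

variable {C : Type u} [Category.{v} C] [Preadditive C] [Linear ℚ C] [MonoidalCategory C]
  [SymmetricCategory C] [MonoidalPreadditive C] [MonoidalLinear ℚ C] [RightRigidCategory C]

/-- the name of a morphism, as a linear map -/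
def nameL (X Y : C) : (X ⟶ Y) →ₗ[ℚ] (𝟙_ C ⟶ Y ⊗ Xᘁ) where
  toFun f := η_ X Xᘁ ≫ f ▷ Xᘁ
  map_add' f g := by
    rw [MonoidalPreadditive.add_whiskerRight, Preadditive.comp_add]
  map_smul' r f := by
    rw [MonoidalLinear.smul_whiskerRight, Linear.comp_smul]
    rfl

lemma nameL_back {X Y : C} (f : X ⟶ Y) :
    nameL X Y f ▷ X ≫ (α_ Y Xᘁ X).hom ≫ Y ◁ ε_ X Xᘁ ≫ (ρ_ Y).hom = (λ_ X).hom ≫ f := by
  change (η_ X Xᘁ ≫ f ▷ Xᘁ) ▷ X ≫ _ = _
  rw [comp_whiskerRight, Category.assoc, associator_naturality_left_assoc,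
    ← whisker_exchange_assoc, ExactPairing.evaluation_coevaluation_assoc]
  simp

lemma nameL_inj {X Y : C} : Function.Injective (nameL X Y) := by
  intro f g h
  have h1 := nameL_back f
  rw [h, nameL_back g] at h1
  exact ((cancel_epi _).mp h1).symm

/-- the trace of a morphism of the form 𝟙 ⟶ Z ⟶ 𝟙 -/
lemma trace_unit (f : 𝟙_ C ⟶ 𝟙_ C) (h : f = 0) : trace f = 0 := by
  rw [h]
  unfold trace
  simp

theorem finite_of (W : AdditiveFrobenius C) (hT : StrongTate W) (h : NumTrivialZero C) (X Y : C) :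
    Module.Finite ℚ (X ⟶ Y) := by
  have h1 : numTrivialFrom (Y ⊗ Xᘁ) = ⊥ := by
    rw [eq_bot_iff]
    intro f hf
    rw [Submodule.mem_bot]
    apply h
    intro g
    exact trace_unit _ (hf g)
  have h2 := hT (Y ⊗ Xᘁ)
  have h3 : Module.rank ℚ (𝟙_ C ⟶ Y ⊗ Xᘁ) = ((W.even (Y ⊗ Xᘁ)).count 1 : ℕ) := by
    rw [← h2]
    exact (Submodule.quotEquivOfEqBot _ h1).rank_eq.symm
  have h4 : Module.rank ℚ (X ⟶ Y) < Cardinal.aleph0 := by
    refine lt_of_le_of_lt (LinearMap.rank_le_of_injective (nameL X Y) nameL_inj) ?_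
    rw [h3]
    exact Cardinal.natCast_lt_aleph0
  exact Module.rank_lt_aleph0_iff.mp h4

theorem regular_end (W : AdditiveFrobenius C) (hT : StrongTate W) (h : NumTrivialZero C) {X : C} (f : X ⟶ X) :
    ∃ g : X ⟶ X, f ≫ g ≫ f = f := by
  have h1 := finite_of W hT h X X
  have h2 : Module.Finite ℚ (End X) := h1
  have h3 : ∀ f : End X, (∀ g : End X, IsNilpotent (g * f)) → f = 0 := by
    intro f hf
    apply h X X f
    intro g
    exact W.trace_nilpotent X _ (hf g)
  obtain ⟨F, hF⟩ : ∃ F : End X, F = f := ⟨f, rfl⟩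
  obtain ⟨g, hg⟩ := regular_of_nil h3 F
  subst hF
  exact ⟨g, hg⟩

theorem isAbelian_of_numTrivialZero [HasFiniteBiproducts C] [IsIdempotentComplete C]
    (W : AdditiveFrobenius C) (hT : StrongTate W) (h : NumTrivialZero C) : IsAbelian C := by
  have : HasBinaryBiproducts C := hasBinaryBiproducts_of_finite_biproducts C
  apply isAbelian_of_regular
  intro X Y f
  obtain ⟨g, hg⟩ := regular_end W hT h (X := X ⊞ Y) (biprod.fst ≫ f ≫ biprod.inr)
  refine ⟨biprod.inr ≫ g ≫ biprod.fst, ?_⟩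
  have h1 : (biprod.inl : X ⟶ X ⊞ Y) ≫ ((biprod.fst ≫ f ≫ biprod.inr) ≫ g ≫
      biprod.fst ≫ f ≫ biprod.inr) ≫ (biprod.snd : X ⊞ Y ⟶ Y) = (biprod.inl : X ⟶ X ⊞ Y) ≫
      (biprod.fst ≫ f ≫ (biprod.inr : Y ⟶ X ⊞ Y)) ≫ (biprod.snd : X ⊞ Y ⟶ Y) := by
    rw [hg]
  simpa using h1

end Rigid

end

end Mot
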