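import Pool.Agent.Mot.Add

/-!
# Frobenius structures on rigid abelian tensor categories (MP_6c4da4_ag, by helper97)
-/

open CategoryTheory MonoidalCategory BraidedCategory Limits

universe v u

namespace Mot

noncomputable section

set_option linter.unusedSectionVars false

variable (C : Type u) [Category.{v} C] [Abelian C] [Linear ℚ C] [MonoidalCategory C]
  [SymmetricCategory C] [MonoidalPreadditive C] [MonoidalLinear ℚ C] [RightRigidCategory C]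

variable {C} in
/-- the trace of an endomorphism -/
def tr (X : C) (f : X ⟶ X) : 𝟙_ C ⟶ 𝟙_ C := trP X Xᘁ f

/-- iterates of an endomorphism -/
def pw {C : Type u} [Category.{v} C] {X : C} (f : X ⟶ X) : ℕ → (X ⟶ X)
  | 0 => 𝟙 X
  | n + 1 => pw f n ≫ f

/-- A Frobenius structure: scalar endomorphisms of the unit, a monoidal natural endomorphism F of
the identity functor, and multisets of eigenvalues α (even), β (odd) with the trace formula, such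
that 1 is never an odd eigenvalue -/
structure Frob where
  scalar : ∀ f : 𝟙_ C ⟶ 𝟙_ C, ∃ r : ℚ, f = r • 𝟙 (𝟙_ C)
  ne : 𝟙 (𝟙_ C) ≠ 0
  F : 𝟭 C ⟶ 𝟭 C
  F_unit : F.app (𝟙_ C) = 𝟙 (𝟙_ C)
  F_tensor : ∀ X Y : C, F.app (X ⊗ Y) = F.app X ⊗ₘ F.app Y
  α : C → Multiset ℂ
  β : C → Multiset ℂ
  trace : ∀ (X : C) (n : ℕ) (r : ℚ), tr X (pw (F.app X) n) = r • 𝟙 (𝟙_ C) →
    (r : ℂ) = ((α X).map (fun z => z ^ n)).sum - ((β X).map (fun z => z ^ n)).sum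
  odd : ∀ X : C, (1 : ℂ) ∉ β X

namespace Frob

variable {C} (W : Frob C)

/-- the scalar of an endomorphism of the unit -/
def val (f : 𝟙_ C ⟶ 𝟙_ C) : ℚ := (W.scalar f).choose

lemma val_spec (f : 𝟙_ C ⟶ 𝟙_ C) : f = W.val f • 𝟙 (𝟙_ C) := (W.scalar f).choose_spec

lemma smul_inj (W : Frob C) {r s : ℚ} (h : r • 𝟙 (𝟙_ C) = s • 𝟙 (𝟙_ C)) : r = s := by
  have h1 : (r - s) • 𝟙 (𝟙_ C) = 0 := by rw [sub_smul, h, sub_self]
  rcases smul_eq_zero.mp h1 with h2 | h2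
  · linarith
  · exact absurd h2 W.ne

lemma val_eq {f : 𝟙_ C ⟶ 𝟙_ C} {r : ℚ} (h : f = r • 𝟙 (𝟙_ C)) : W.val f = r :=
  W.smul_inj ((W.val_spec f).symm.trans h)

lemma val_add (f g : 𝟙_ C ⟶ 𝟙_ C) : W.val (f + g) = W.val f + W.val g := by
  apply W.val_eq
  rw [add_smul, ← W.val_spec, ← W.val_spec]

lemma val_smul (r : ℚ) (f : 𝟙_ C ⟶ 𝟙_ C) : W.val (r • f) = r * W.val f := by
  apply W.val_eq
  rw [mul_smul, ← W.val_spec]

lemma val_zero : W.val (0 : 𝟙_ C ⟶ 𝟙_ C) = 0 := W.val_eq (by simp)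

lemma val_id : W.val (𝟙 (𝟙_ C)) = 1 := W.val_eq (by simp)

/-- iterates of the Frobenius -/
def Fp (X : C) (n : ℕ) : X ⟶ X := pw (W.F.app X) n

lemma F_nat {X Y : C} (f : X ⟶ Y) : f ≫ W.F.app Y = W.F.app X ≫ f := W.F.naturality f

lemma Fp_nat {X Y : C} (f : X ⟶ Y) (n : ℕ) : f ≫ W.Fp Y n = W.Fp X n ≫ f := by
  induction n with
  | zero => simp [Fp, pw]
  | succ n ih =>
    have h1 : W.Fp Y (n + 1) = W.Fp Y n ≫ W.F.app Y := rfl
    have h2 : W.Fp X (n + 1) = W.Fp X n ≫ W.F.app X := rfl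
    rw [h1, h2, ← Category.assoc, ih, Category.assoc, W.F_nat, Category.assoc]

lemma Fp_tensor (X Y : C) (n : ℕ) : W.Fp (X ⊗ Y) n = W.Fp X n ⊗ₘ W.Fp Y n := by
  induction n with
  | zero => simp [Fp, pw]
  | succ n ih =>
    have h1 : W.Fp (X ⊗ Y) (n + 1) = W.Fp (X ⊗ Y) n ≫ W.F.app (X ⊗ Y) := rfl
    have h2 : W.Fp X (n + 1) = W.Fp X n ≫ W.F.app X := rfl
    have h3 : W.Fp Y (n + 1) = W.Fp Y n ≫ W.F.app Y := rfl
    rw [h1, h2, h3, ih, W.F_tensor, MonoidalCategory.tensorHom_comp_tensorHom]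

lemma Fp_of_one {X : C} (h : W.F.app X = 𝟙 X) (n : ℕ) : W.Fp X n = 𝟙 X := by
  induction n with
  | zero => rfl
  | succ n ih =>
    have h2 : W.Fp X (n + 1) = W.Fp X n ≫ W.F.app X := rfl
    rw [h2, ih, h]
    exact Category.comp_id _

/-- the traces of the Frobenius -/
def t (X : C) (n : ℕ) : ℚ := W.val (tr X (W.Fp X n))

lemma t_formula (X : C) (n : ℕ) :
    (W.t X n : ℂ) = ((W.α X).map (fun z => z ^ n)).sum - ((W.β X).map (fun z => z ^ n)).sum :=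
  W.trace X n _ (W.val_spec _)

lemma t_add {S : ShortComplex C} (hS : S.ShortExact) (n : ℕ) :
    W.t S.X₂ n = W.t S.X₁ n + W.t S.X₃ n := by
  unfold t tr
  rw [trP_additive hS S.X₁ᘁ S.X₂ᘁ S.X₃ᘁ (W.Fp_nat S.f n) (W.Fp_nat S.g n).symm, W.val_add]

lemma tr_tensor (X Y : C) (f : X ⟶ X) (g : Y ⟶ Y) :
    tr (X ⊗ Y) (f ⊗ₘ g) = W.val (tr Y g) • tr X f := by
  unfold tr
  rw [trP_indep (X' := (X ⊗ Y)ᘁ) (X'' := Yᘁ ⊗ Xᘁ)]
  exact trP_tensor f g _ (W.val_spec _)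

lemma t_tensor (X Y : C) (n : ℕ) : W.t (X ⊗ Y) n = W.t X n * W.t Y n := by
  unfold t
  rw [W.Fp_tensor, W.tr_tensor, W.val_smul, mul_comm]

lemma tr_unit : tr (𝟙_ C) (𝟙 (𝟙_ C)) = 𝟙 (𝟙_ C) := by
  unfold tr
  rw [trP_indep (X'' := 𝟙_ C)]
  unfold trP ev
  have h1 : η_ (𝟙_ C) (𝟙_ C) = (ρ_ (𝟙_ C)).inv := rfl
  have h2 : ε_ (𝟙_ C) (𝟙_ C) = (ρ_ (𝟙_ C)).hom := rfl
  rw [h1, h2, braiding_tensorUnit_right, unitors_inv_equal]
  simp

lemma t_unit (n : ℕ) : W.t (𝟙_ C) n = 1 := by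
  unfold t
  rw [W.Fp_of_one W.F_unit, tr_unit, W.val_id]

/-- the multiplicity of the even eigenvalue 1 -/
def mult (X : C) : ℕ := (W.α X).count 1

end Frob

end

end Mot
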