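import Pool.Agent.Mot.Unit

/-!
# Hom spaces, nilpotence of numerically trivial endomorphisms (MP_6c4da4_ag, by helper97)
-/

open CategoryTheory MonoidalCategory BraidedCategory Limits

universe v u

namespace Mot

noncomputable section

set_option linter.unusedSectionVars false

variable {C : Type u} [Category.{v} C] [Abelian C] [Linear ℚ C] [MonoidalCategory C]
  [SymmetricCategory C] [MonoidalPreadditive C] [MonoidalLinear ℚ C] [RightRigidCategory C]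

/-- the name of a morphism -/
def nm {X Y : C} (f : X ⟶ Y) : 𝟙_ C ⟶ Y ⊗ Xᘁ := η_ X Xᘁ ≫ f ▷ Xᘁ

lemma nm_back {X Y : C} (f : X ⟶ Y) :
    nm f ▷ X ≫ (α_ Y Xᘁ X).hom ≫ Y ◁ ε_ X Xᘁ ≫ (ρ_ Y).hom = (λ_ X).hom ≫ f := by
  unfold nm
  rw [comp_whiskerRight, Category.assoc, associator_naturality_left_assoc,
    ← whisker_exchange_assoc, ExactPairing.evaluation_coevaluation_assoc]
  simp

lemma nm_inj {X Y : C} {f g : X ⟶ Y} (h : nm f = nm g) : f = g := by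
  have h1 := nm_back f
  rw [h, nm_back g] at h1
  exact ((cancel_epi _).mp h1).symm

/-- the name as a linear map -/
def nmL (X Y : C) : (X ⟶ Y) →ₗ[ℚ] (𝟙_ C ⟶ Y ⊗ Xᘁ) where
  toFun := nm
  map_add' f g := by
    unfold nm
    rw [MonoidalPreadditive.add_whiskerRight, Preadditive.comp_add]
  map_smul' r f := by
    unfold nm
    rw [MonoidalLinear.smul_whiskerRight, Linear.comp_smul]
    rfl

lemma nm_comp {X Y Z : C} (f : X ⟶ Y) (g : Y ⟶ Z) : nm (f ≫ g) = nm f ≫ g ▷ Xᘁ := by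
  unfold nm
  rw [comp_whiskerRight, Category.assoc]

/-- every morphism from the unit is a name -/
lemma nm_surj {X Y : C} (s : 𝟙_ C ⟶ Y ⊗ Xᘁ) : ∃ f : X ⟶ Y, nm f = s := by
  refine ⟨(λ_ X).inv ≫ s ▷ X ≫ (α_ Y Xᘁ X).hom ≫ Y ◁ ε_ X Xᘁ ≫ (ρ_ Y).hom, ?_⟩
  have h := (tensorRightHomEquiv (𝟙_ C) X Xᘁ Y).right_inv s
  have h1 : (tensorRightHomEquiv (𝟙_ C) X Xᘁ Y).toFun
      ((tensorRightHomEquiv (𝟙_ C) X Xᘁ Y).invFun s) = nm ((λ_ X).inv ≫ s ▷ X ≫
        (α_ Y Xᘁ X).hom ≫ Y ◁ ε_ X Xᘁ ≫ (ρ_ Y).hom) := by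
    unfold nm
    change (ρ_ (𝟙_ C)).inv ≫ (𝟙_ C) ◁ η_ X Xᘁ ≫ (α_ _ _ _).inv ≫
      (s ▷ X ≫ (α_ _ _ _).hom ≫ Y ◁ ε_ X Xᘁ ≫ (ρ_ Y).hom) ▷ Xᘁ = _
    monoidal
  rw [← h1, h]

namespace Frob

variable (W : Frob C)

/-- Hom spaces are finite-dimensional -/
theorem rank_hom_le (X Y : C) : Module.rank ℚ (X ⟶ Y) ≤ W.mult (Y ⊗ Xᘁ) := by
  refine le_trans ?_ (W.rank_le (Y ⊗ Xᘁ))
  exact LinearMap.rank_le_of_injective (nmL X Y) (fun f g h => nm_inj h)

include W in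
theorem finite_hom (X Y : C) : Module.Finite ℚ (X ⟶ Y) := by
  have h := (W.rank_hom_le X Y).trans_lt Cardinal.natCast_lt_aleph0
  exact Module.rank_lt_aleph0_iff.mp h

theorem finrank_hom_le (X Y : C) : Module.finrank ℚ (X ⟶ Y) ≤ W.mult (Y ⊗ Xᘁ) :=
  Module.finrank_le_of_rank_le (W.rank_hom_le X Y)

/-- an object with zero traces is zero -/
theorem isZero_of_t {X : C} (h : ∀ n, W.t X n = 0) : IsZero X := by
  have h1 : W.mult (X ⊗ Xᘁ) = 0 := by
    apply W.mult_of_zero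
    intro n
    rw [W.t_tensor, h n, zero_mul]
  have h2 := W.rank_hom_le X X
  rw [h1, Nat.cast_zero, nonpos_iff_eq_zero, rank_zero_iff] at h2
  rw [IsZero.iff_id_eq_zero]
  exact Subsingleton.elim _ _

lemma tr_comm {X Y : C} (f : X ⟶ Y) (g : Y ⟶ X) : tr X (f ≫ g) = tr Y (g ≫ f) := trP_comm f g

include W in
/-- numerically trivial endomorphisms are nilpotent -/
theorem nilpotent {X : C} (f : End X) (hf : ∀ g : X ⟶ X, tr X (f ≫ g) = 0) : IsNilpotent f := by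
  have := W.finite_hom X X
  have hfin : Module.Finite ℚ (End X) := this
  by_contra hn
  obtain ⟨b, hb1, hb2⟩ := exIdem f hn
  obtain ⟨e, he⟩ : ∃ e : X ⟶ X, e = b ≫ f := ⟨_, rfl⟩
  have he1 : e ≫ e = e := by
    rw [he]
    exact hb1
  have he2 : e ≠ 0 := by
    rw [he]
    exact hb2
  obtain ⟨Y, i, p, h1, h2⟩ := IsIdempotentComplete.idempotents_split X e he1
  have h3 : IsZero Y := by
    apply W.isZero_of_t
    intro n
    have h4 : tr Y (W.Fp Y n) = 0 := by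
      have h5 : W.Fp Y n = i ≫ (p ≫ W.Fp Y n) := by rw [← Category.assoc, h1, Category.id_comp]
      rw [h5, tr_comm]
      have h6 : (p ≫ W.Fp Y n) ≫ i = b ≫ (f ≫ W.Fp X n) := by
        rw [Category.assoc, ← W.Fp_nat, ← Category.assoc, h2, he]
        exact Category.assoc _ _ _
      rw [h6, tr_comm, Category.assoc]
      exact hf _
    unfold t
    rw [h4, W.val_zero]
  apply he2
  rw [← h2, h3.eq_of_src i 0, Limits.comp_zero]

end Frob

end

end Mot
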