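import Pool.Agent.Mot.Conv

/-!
# The index of nilpotence (MP_6c4da4_ag, by helper97)
-/

open CategoryTheory MonoidalCategory BraidedCategory Limits

universe v u

namespace Mot

noncomputable section

set_option linter.unusedSectionVars false

variable {C : Type u} [Category.{v} C] [Abelian C] [Linear ℚ C] [MonoidalCategory C]
  [SymmetricCategory C] [MonoidalPreadditive C] [MonoidalLinear ℚ C] [RightRigidCategory C]

lemma pow_stop {X : C} (f : End X) (n : ℕ)
    (h : ∀ (Y : C) (g : Y ⟶ X), g ≫ (f ^ (n + 1) : End X) = 0 → g ≫ (f ^ n : End X) = 0) :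
    ∀ j : ℕ, f ^ (n + j) = 0 → f ^ n = 0 := by
  intro j
  induction j with
  | zero => exact fun h => h
  | succ j ih =>
    intro hj
    apply ih
    have h1 : (f ^ j : End X) ≫ (f ^ (n + 1) : End X) = 0 := by
      have h2 : f ^ (n + 1) * f ^ j = 0 := by
        rw [← pow_add, ← hj]
        congr 1
        omega
      exact h2
    have h3 : f ^ n * f ^ j = 0 := h X (f ^ j : End X) h1
    rw [← pow_add] at h3
    exact h3

namespace Frob

variable (W : Frob C)

theorem index {X : C} (f : End X) (hf : ∀ g : X ⟶ X, tr X (f ≫ g) = 0) :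
    f ^ (W.mult (X ⊗ Xᘁ)) = 0 := by
  classical
  have hex : ∃ n, f ^ n = 0 := W.nilpotent f hf
  set k := Nat.find hex with hk
  have hk0 : f ^ k = 0 := Nat.find_spec hex
  have hlt : ∀ n < k, kernelSubobject (f ^ n : X ⟶ X) < kernelSubobject (f ^ (n + 1) : X ⟶ X) := by
    intro n hn
    have h1 : ¬ f ^ n = 0 := Nat.find_min hex hn
    have h2 : kernelSubobject (f ^ n : X ⟶ X) ≤ kernelSubobject (f ^ (n + 1) : X ⟶ X) := by
      have h3 : (kernelSubobject (f ^ n : X ⟶ X)).arrow ≫ (f ^ (n + 1) : X ⟶ X) = 0 := by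
        have h4 : (f ^ (n + 1) : End X) = ((f ^ n : End X) ≫ f : X ⟶ X) := by
          rw [pow_succ']
          rfl
        rw [h4, ← Category.assoc, kernelSubobject_arrow_comp, Limits.zero_comp]
      exact le_kernelSubobject _ _ h3
    refine lt_of_le_of_ne h2 ?_
    intro h3
    apply h1
    have h4 : ∀ (Y : C) (g : Y ⟶ X), g ≫ (f ^ (n + 1) : End X) = 0 →
        g ≫ (f ^ n : End X) = 0 := by
      intro Y g hg
      have h5 : (kernelSubobject (f ^ (n + 1) : X ⟶ X)).Factors g := by
        rw [kernelSubobject_factors_iff]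
        exact hg
      rw [← h3, kernelSubobject_factors_iff] at h5
      exact h5
    apply pow_stop f n h4 (k - n)
    rw [← hk0]
    congr 1
    omega
  have hle : ∀ n ≤ k, n ≤ W.mult ((kernelSubobject (f ^ n : X ⟶ X) : C) ⊗ Xᘁ) := by
    intro n
    induction n with
    | zero => intro _; exact Nat.zero_le _
    | succ n ih =>
      intro hn
      have h1 := ih (by omega)
      have h2 := W.mult_lt (hlt n (by omega))
      omega
  have h1 := hle k le_rfl
  have h2 := W.mult_le_of_mono ((kernelSubobject (f ^ k : X ⟶ X)).arrow ▷ Xᘁ)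
  have h3 : k ≤ W.mult (X ⊗ Xᘁ) := by omega
  obtain ⟨j, hj⟩ := Nat.exists_eq_add_of_le h3
  rw [hj, pow_add, hk0, zero_mul]

end Frob

end

end Mot
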