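import Pool.Agent.Mot.Gal

/-!
# The decomposition into an even and an odd part (MP_6c4da4_ag, by helper97)
-/

open CategoryTheory MonoidalCategory BraidedCategory Limits Polynomial

universe v u

namespace Mot

noncomputable section

set_option linter.unusedSectionVars false

/-- in a finite-dimensional algebra, an element which is not nilpotent has a polynomial multiple
which is a nonzero idempotent -/
lemma exIdem' {A : Type v} [Ring A] [Algebra ℚ A] [Module.Finite ℚ A] (a : A)
    (h : ¬ IsNilpotent a) : ∃ g : ℚ[X], (a * aeval a g) * (a * aeval a g) = a * aeval a g ∧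
      a * aeval a g ≠ 0 := by
  have hint : IsIntegral ℚ a := IsIntegral.of_finite ℚ a
  have hm : minpoly ℚ a ≠ 0 := minpoly.ne_zero hint
  obtain ⟨q, hq, hdvd⟩ := Polynomial.exists_eq_pow_rootMultiplicity_mul_and_not_dvd
    (minpoly ℚ a) hm 0
  rw [Polynomial.C_0, sub_zero] at hq hdvd
  set k := Polynomial.rootMultiplicity 0 (minpoly ℚ a)
  have hcop : IsCoprime ((Polynomial.X : Polynomial ℚ) ^ (k + 1)) q :=
    ((Polynomial.irreducible_X.coprime_iff_not_dvd).mpr hdvd).pow_left
  obtain ⟨c, d, hcd⟩ := hcop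
  have hkill : a ^ (k + 1) * Polynomial.aeval a q = 0 := by
    have h1 := minpoly.aeval ℚ a
    rw [hq, map_mul, map_pow, Polynomial.aeval_X] at h1
    rw [pow_succ', mul_assoc, h1, mul_zero]
  have hone : Polynomial.aeval a c * a ^ (k + 1) + Polynomial.aeval a d * Polynomial.aeval a q
      = 1 := by
    have h1 := congrArg (Polynomial.aeval a) hcd
    rw [map_add, map_mul, map_mul, map_pow, Polynomial.aeval_X, map_one] at h1
    exact h1
  have hcomm : ∀ p : Polynomial ℚ, Commute a (Polynomial.aeval a p) := by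
    intro p
    have h1 : Commute (Polynomial.aeval a (Polynomial.X : Polynomial ℚ)) (Polynomial.aeval a p) := by
      unfold Commute SemiconjBy
      rw [← map_mul, ← map_mul, mul_comm]
    rwa [Polynomial.aeval_X] at h1
  refine ⟨X ^ k * c, ?_, ?_⟩
  · rw [map_mul, map_pow, aeval_X]
    set e := a * (a ^ k * Polynomial.aeval a c) with he
    have he' : e = Polynomial.aeval a c * a ^ (k + 1) := by
      rw [he, ← mul_assoc, ← pow_succ', ((hcomm c).pow_left (k + 1)).eq]
    have h2 : Polynomial.aeval a d * Polynomial.aeval a q = 1 - e := by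
      rw [he', ← hone]
      abel
    have h3 : e * (1 - e) = 0 := by
      rw [← h2]
      have h4 : Commute (Polynomial.aeval a d) (Polynomial.aeval a q) := by
        unfold Commute SemiconjBy
        rw [← map_mul, ← map_mul, mul_comm]
      rw [h4.eq, ← mul_assoc, he', mul_assoc (Polynomial.aeval a c), hkill, mul_zero, zero_mul]
    rw [mul_sub, mul_one, sub_eq_zero] at h3
    exact h3.symm
  · intro h0
    rw [map_mul, map_pow, aeval_X] at h0
    apply h
    refine ⟨k + 1, ?_⟩
    have he' : Polynomial.aeval a c * a ^ (k + 1) = 0 := by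
      rw [← ((hcomm c).pow_left (k + 1)).eq, pow_succ', mul_assoc, h0]
    have h4 : Commute (Polynomial.aeval a d) (Polynomial.aeval a q) := by
      unfold Commute SemiconjBy
      rw [← map_mul, ← map_mul, mul_comm]
    rw [he', zero_add, h4.eq] at hone
    calc a ^ (k + 1) = a ^ (k + 1) * (Polynomial.aeval a q * Polynomial.aeval a d) := by
          rw [hone, mul_one]
      _ = 0 := by rw [← mul_assoc, hkill, zero_mul]

variable {C : Type u} [Category.{v} C] [Abelian C] [Linear ℚ C] [MonoidalCategory C]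
  [SymmetricCategory C] [MonoidalPreadditive C] [MonoidalLinear ℚ C] [RightRigidCategory C]

lemma end_pow {X : C} (f : End X) (n : ℕ) : f ^ n = (pw (f : X ⟶ X) n : End X) := by
  induction n with
  | zero => rfl
  | succ n ih =>
    have h : pw (f : X ⟶ X) (n + 1) = pw (f : X ⟶ X) n ≫ f := rfl
    rw [pow_succ, ih, h, ← pw_comm]
    rfl

namespace Frob

variable (W : Frob C)

/-- the Frobenius as an element of the endomorphism algebra -/
def FE (X : C) : End X := W.F.app X

lemma FE_pow (X : C) (n : ℕ) : (W.FE X) ^ n = (W.Fp X n : End X) := end_pow _ n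

/-- the set of eigenvalues -/
def S (X : C) : Finset ℂ := (W.α X + W.β X).toFinset

/-- net multiplicities -/
def ν (X : C) (z : ℂ) : ℤ := nu (W.α X) (W.β X) z

lemma tr_poly (X : C) (g : ℚ[X]) :
    (W.val (tr X (aeval (W.FE X) g : End X)) : ℂ) = ∑ z ∈ W.S X, (W.ν X z : ℂ) * aeval z g := by
  induction g using Polynomial.induction_on' with
  | add p q hp hq =>
    rw [map_add]
    have h1 : tr X ((aeval (W.FE X) p + aeval (W.FE X) q : End X)) =
        tr X (aeval (W.FE X) p : End X) + tr X (aeval (W.FE X) q : End X) := tr_add _ _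
    rw [h1, W.val_add]
    push_cast
    rw [hp, hq, ← Finset.sum_add_distrib]
    apply Finset.sum_congr rfl
    intro z _
    rw [map_add]
    ring
  | monomial n a =>
    rw [aeval_monomial, FE_pow, ← Algebra.smul_def]
    have h1 : tr X ((a • (W.Fp X n : End X) : End X)) = a • tr X (W.Fp X n) := tr_smul _ _
    rw [h1, W.val_smul]
    push_cast
    have h2 := W.t_formula X n
    unfold t at h2
    rw [h2, sum_nu, Finset.mul_sum]
    apply Finset.sum_congr rfl
    intro z _
    rw [aeval_monomial]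
    unfold ν
    change _ = _ * ((algebraMap ℚ ℂ a) * z ^ n)
    simp
    ring

lemma ν_of_notMem {X : C} {z : ℂ} (h : z ∉ W.S X) : W.ν X z = 0 := nu_of_notMem h

lemma mem_of_ν {X : C} {z : ℂ} (h : W.ν X z ≠ 0) : z ∈ W.S X := by
  by_contra h1
  exact h (W.ν_of_notMem h1)

lemma ν_integral {X : C} {z : ℂ} (h : W.ν X z ≠ 0) : IsIntegral ℚ z := by
  have hfin : Module.Finite ℚ (End X) := W.finite_hom X X
  have hint : IsIntegral ℚ (W.FE X) := IsIntegral.of_finite ℚ _
  set g := minpoly ℚ (W.FE X) with hg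
  have hg0 : g ≠ 0 := minpoly.ne_zero hint
  have h1 : ∀ n : ℕ, ∑ z ∈ W.S X, ((W.ν X z : ℂ) * aeval z g) * z ^ n = 0 := by
    intro n
    have h2 := W.tr_poly X (g * Polynomial.X ^ n)
    have h3 : aeval (W.FE X) (g * Polynomial.X ^ n) = 0 := by
      rw [map_mul, hg, minpoly.aeval, zero_mul]
    rw [h3] at h2
    have h4 : tr X ((0 : End X) : X ⟶ X) = 0 := tr_zero
    rw [h4, W.val_zero] at h2
    rw [Rat.cast_zero] at h2
    rw [h2]
    apply Finset.sum_congr rfl
    intro z _
    rw [map_mul, map_pow, aeval_X]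
    ring
  have h2 := lag (W.S X) _ h1 z (W.mem_of_ν h)
  have h3 : aeval z g = 0 := by
    rcases mul_eq_zero.mp h2 with h4 | h4
    · exfalso
      apply h
      exact_mod_cast h4
    · exact h4
  exact (isAlgebraic_iff_isIntegral.mp ⟨g, hg0, h3⟩)

lemma ν_galois {X : C} {z w : ℂ} (hz : W.ν X z ≠ 0) (hw : aeval w (minpoly ℚ z) = 0) :
    W.ν X w = W.ν X z :=
  galois (W.α X) (W.β X) (fun g => ⟨_, W.tr_poly X g⟩) (fun _ h => W.ν_integral h) z w hz hw

/-- the decomposition of an object into its even part and its odd part -/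
theorem decomp (X : C) : ∃ A B : C, Nonempty (X ≅ A ⊞ B) ∧
    (∀ n, (W.t A n : ℂ) = ((W.α X - W.β X).map (fun z => z ^ n)).sum) ∧
    (∀ n, (W.t B n : ℂ) = -((W.β X - W.α X).map (fun z => z ^ n)).sum) := by
  classical
  have hfin : Module.Finite ℚ (End X) := W.finite_hom X X
  set Sp := (W.S X).filter (fun z => 0 < W.ν X z) with hSp
  set Sm := (W.S X).filter (fun z => W.ν X z < 0) with hSm
  set gp : ℚ[X] := ∏ z ∈ Sp, minpoly ℚ z with hgp
  set gm : ℚ[X] := ∏ z ∈ Sm, minpoly ℚ z with hgm
  have hgp0 : ∀ z ∈ Sp, aeval z gp = 0 := by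
    intro z hz
    rw [hgp, map_prod]
    exact Finset.prod_eq_zero hz (minpoly.aeval ℚ z)
  have hgm0 : ∀ z ∈ Sm, aeval z gm = 0 := by
    intro z hz
    rw [hgm, map_prod]
    exact Finset.prod_eq_zero hz (minpoly.aeval ℚ z)
  have hcop : IsCoprime gp gm := by
    apply IsCoprime.prod_left
    intro z hz
    apply IsCoprime.prod_right
    intro w hw
    rw [hSp, Finset.mem_filter] at hz
    rw [hSm, Finset.mem_filter] at hw
    have hzi := W.ν_integral (X := X) (z := z) (by omega)
    have hwi := W.ν_integral (X := X) (z := w) (by omega)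
    have h1 := minpoly.irreducible hzi
    have h2 := minpoly.irreducible hwi
    rw [h1.coprime_iff_not_dvd]
    intro hd
    have h3 : minpoly ℚ w ∣ minpoly ℚ z := h1.dvd_symm h2 hd
    have h4 : aeval w (minpoly ℚ z) = 0 := by
      obtain ⟨q, hq⟩ := h3
      rw [hq, map_mul, minpoly.aeval, zero_mul]
    have h5 := W.ν_galois (X := X) (z := z) (w := w) (by omega) h4
    omega
  -- nilpotence
  have hnil : IsNilpotent (aeval (W.FE X) (gp * gm)) := by
    by_contra hn
    obtain ⟨g, hg1, hg2⟩ := exIdem' _ hn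
    apply hg2
    have h1 : aeval (W.FE X) (gp * gm) * aeval (aeval (W.FE X) (gp * gm)) g =
        aeval (W.FE X) ((gp * gm) * g.comp (gp * gm)) := by
      rw [map_mul (aeval (W.FE X)) (gp * gm) (g.comp (gp * gm)), aeval_comp]
    rw [h1] at hg1 ⊢
    apply W.idem_zero _ hg1
    intro m
    have h2 : (aeval (W.FE X) ((gp * gm) * g.comp (gp * gm)) : End X) ≫ W.Fp X m =
        (aeval (W.FE X) (Polynomial.X ^ m * ((gp * gm) * g.comp (gp * gm))) : End X) := by
      rw [map_mul _ (Polynomial.X ^ m), map_pow, aeval_X, FE_pow]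
      rfl
    have h3 := W.tr_poly X (Polynomial.X ^ m * ((gp * gm) * g.comp (gp * gm)))
    have h4 : ∑ z ∈ W.S X, (W.ν X z : ℂ) * aeval z (Polynomial.X ^ m * ((gp * gm) * g.comp (gp * gm))) = 0 := by
      apply Finset.sum_eq_zero
      intro z hz
      rcases lt_trichotomy (W.ν X z) 0 with h5 | h5 | h5
      · have h6 : aeval z gm = 0 := hgm0 z (Finset.mem_filter.mpr ⟨hz, h5⟩)
        rw [map_mul, map_mul, map_mul, h6]
        ring
      · rw [h5]
        simp
      · have h6 : aeval z gp = 0 := hgp0 z (Finset.mem_filter.mpr ⟨hz, h5⟩)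
        rw [map_mul, map_mul, map_mul, h6]
        ring
    rw [h4] at h3
    have h5 : W.val (tr X (aeval (W.FE X) (Polynomial.X ^ m * ((gp * gm) * g.comp (gp * gm))) : End X)) = 0 := by
      exact_mod_cast h3
    rw [← h5]
    exact congrArg (fun f => W.val (tr X f)) h2
  obtain ⟨K, hK⟩ := hnil
  have hK1 : aeval (W.FE X) (gp ^ (K + 1) * gm ^ (K + 1)) = 0 := by
    rw [← mul_pow, map_pow, pow_succ, hK, zero_mul]
  obtain ⟨c, d, hcd⟩ := (hcop.pow : IsCoprime (gp ^ (K + 1)) (gm ^ (K + 1)))
  set ep : End X := aeval (W.FE X) (d * gm ^ (K + 1)) with hep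
  set em : End X := aeval (W.FE X) (c * gp ^ (K + 1)) with hem
  have hsum : em + ep = 1 := by
    rw [hep, hem, ← map_add, hcd, map_one]
  have hmp : em * ep = 0 := by
    rw [hep, hem, ← map_mul]
    have h1 : c * gp ^ (K + 1) * (d * gm ^ (K + 1)) = c * d * (gp ^ (K + 1) * gm ^ (K + 1)) := by
      ring
    rw [h1, map_mul, hK1, mul_zero]
  have hpm : ep * em = 0 := by
    rw [hep, hem, ← map_mul]
    have h1 : d * gm ^ (K + 1) * (c * gp ^ (K + 1)) = c * d * (gp ^ (K + 1) * gm ^ (K + 1)) := by
      ring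
    rw [h1, map_mul, hK1, mul_zero]
  have hep2 : ep * ep = ep := by
    have h1 : (em + ep) * ep = ep := by rw [hsum, one_mul]
    rw [add_mul, hmp, zero_add] at h1
    exact h1
  have hem2 : em * em = em := by
    have h1 : (em + ep) * em = em := by rw [hsum, one_mul]
    rw [add_mul, hpm, add_zero] at h1
    exact h1
  obtain ⟨A, iA, pA, hA1, hA2⟩ := IsIdempotentComplete.idempotents_split X ep hep2
  obtain ⟨B, iB, pB, hB1, hB2⟩ := IsIdempotentComplete.idempotents_split X em hem2
  have ht : ∀ (Y : C) (i : Y ⟶ X) (p : X ⟶ Y) (g : ℚ[X]), i ≫ p = 𝟙 Y →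
      p ≫ i = (aeval (W.FE X) g : End X) → ∀ n,
      (W.t Y n : ℂ) = ∑ z ∈ W.S X, (W.ν X z : ℂ) * aeval z (Polynomial.X ^ n * g) := by
    intro Y i p g h1 h2 n
    have h5 : W.Fp Y n = i ≫ (p ≫ W.Fp Y n) := by rw [← Category.assoc, h1, Category.id_comp]
    have h6 : (p ≫ W.Fp Y n) ≫ i = (aeval (W.FE X) (Polynomial.X ^ n * g) : End X) := by
      rw [Category.assoc, ← W.Fp_nat, ← Category.assoc, h2, map_mul _ (Polynomial.X ^ n), map_pow, aeval_X,
        FE_pow]
      rfl
    unfold t
    rw [h5, tr_comm]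
    refine Eq.trans ?_ (W.tr_poly X (Polynomial.X ^ n * g))
    exact congrArg (fun f => ((W.val (tr X f) : ℚ) : ℂ)) h6
  refine ⟨A, B, ⟨⟨biprod.lift pA pB, biprod.desc iA iB, ?_, ?_⟩⟩, ?_, ?_⟩
  · rw [biprod.lift_desc, hA2, hB2]
    have h1 : ep + em = 1 := by rw [add_comm, hsum]
    exact h1
  · have hAB : iA ≫ pB = 0 := by
      have h1 : iA ≫ pB = iA ≫ ((pA ≫ iA) ≫ (pB ≫ iB)) ≫ pB := by
        simp only [Category.assoc, hB1, Category.comp_id]
        rw [← Category.assoc iA pA, hA1, Category.id_comp]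
      have h2 : (pA ≫ iA) ≫ (pB ≫ iB) = 0 := by
        rw [hA2, hB2]
        exact hmp
      rw [h1, h2, Limits.zero_comp, Limits.comp_zero]
    have hBA : iB ≫ pA = 0 := by
      have h1 : iB ≫ pA = iB ≫ ((pB ≫ iB) ≫ (pA ≫ iA)) ≫ pA := by
        simp only [Category.assoc, hA1, Category.comp_id]
        rw [← Category.assoc iB pB, hB1, Category.id_comp]
      have h2 : (pB ≫ iB) ≫ (pA ≫ iA) = 0 := by
        rw [hA2, hB2]
        exact hpm
      rw [h1, h2, Limits.zero_comp, Limits.comp_zero]
    ext <;> simp [hA1, hB1, hAB, hBA]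
  · intro n
    rw [ht A iA pA _ hA1 hA2 n]
    have h0 : ((W.α X - W.β X).map (fun z => z ^ n)).sum =
        ∑ z ∈ W.S X, ((W.α X - W.β X).count z : ℂ) * z ^ n := by
      have h1 := sum_nu (W.α X - W.β X) 0 (fun z => z ^ n)
      rw [Multiset.map_zero, Multiset.sum_zero, sub_zero, add_zero] at h1
      rw [h1]
      have h2 : ∀ z, (nu (W.α X - W.β X) 0 z : ℂ) = ((W.α X - W.β X).count z : ℂ) := by
        intro z
        unfold nu
        simp
      rw [Finset.sum_congr rfl (fun z _ => by rw [h2 z])]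
      apply Finset.sum_subset
      · intro z hz
        rw [Multiset.mem_toFinset] at hz
        unfold S
        rw [Multiset.mem_toFinset, Multiset.mem_add]
        exact Or.inl (Multiset.mem_of_le (Multiset.sub_le_self _ _) hz)
      · intro z _ hz
        rw [Multiset.mem_toFinset] at hz
        rw [Multiset.count_eq_zero.mpr hz]
        simp
    rw [h0]
    apply Finset.sum_congr rfl
    intro z hz
    rw [Multiset.count_sub, map_mul, map_pow, aeval_X]
    rcases lt_trichotomy (W.ν X z) 0 with h5 | h5 | h5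
    · have h6 : aeval z gm = 0 := hgm0 z (Finset.mem_filter.mpr ⟨hz, h5⟩)
      have h7 : (W.α X).count z - (W.β X).count z = 0 := by
        unfold ν nu at h5
        omega
      rw [h7, map_mul, map_pow, h6, zero_pow (Nat.succ_ne_zero K)]
      simp
    · have h7 : (W.α X).count z - (W.β X).count z = 0 := by
        unfold ν nu at h5
        omega
      rw [h7, h5]
      simp
    · have h6 : aeval z gp = 0 := hgp0 z (Finset.mem_filter.mpr ⟨hz, h5⟩)
      have h7 := congrArg (aeval z) hcd
      rw [map_add, map_mul, map_pow, h6, zero_pow (Nat.succ_ne_zero K), mul_zero, zero_add,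
        map_one] at h7
      rw [h7]
      have h8 : (W.ν X z : ℂ) = (((W.α X).count z - (W.β X).count z : ℕ) : ℂ) := by
        have h9 : W.ν X z = (((W.α X).count z - (W.β X).count z : ℕ) : ℤ) := by
          unfold ν nu at h5 ⊢
          omega
        rw [h9]
        simp
      rw [h8]
      ring
  · intro n
    rw [ht B iB pB _ hB1 hB2 n]
    have h0 : ((W.β X - W.α X).map (fun z => z ^ n)).sum =
        ∑ z ∈ W.S X, ((W.β X - W.α X).count z : ℂ) * z ^ n := by
      have h1 := sum_nu (W.β X - W.α X) 0 (fun z => z ^ n)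
      rw [Multiset.map_zero, Multiset.sum_zero, sub_zero, add_zero] at h1
      rw [h1]
      have h2 : ∀ z, (nu (W.β X - W.α X) 0 z : ℂ) = ((W.β X - W.α X).count z : ℂ) := by
        intro z
        unfold nu
        simp
      rw [Finset.sum_congr rfl (fun z _ => by rw [h2 z])]
      apply Finset.sum_subset
      · intro z hz
        rw [Multiset.mem_toFinset] at hz
        unfold S
        rw [Multiset.mem_toFinset, Multiset.mem_add]
        exact Or.inr (Multiset.mem_of_le (Multiset.sub_le_self _ _) hz)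
      · intro z _ hz
        rw [Multiset.mem_toFinset] at hz
        rw [Multiset.count_eq_zero.mpr hz]
        simp
    rw [h0, ← Finset.sum_neg_distrib]
    apply Finset.sum_congr rfl
    intro z hz
    rw [Multiset.count_sub, map_mul, map_pow, aeval_X]
    rcases lt_trichotomy (W.ν X z) 0 with h5 | h5 | h5
    · have h6 : aeval z gm = 0 := hgm0 z (Finset.mem_filter.mpr ⟨hz, h5⟩)
      have h7 := congrArg (aeval z) hcd
      rw [map_add, map_mul _ d, map_pow, h6, zero_pow (Nat.succ_ne_zero K), mul_zero, add_zero,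
        map_one] at h7
      rw [h7]
      have h8 : (W.ν X z : ℂ) = -(((W.β X).count z - (W.α X).count z : ℕ) : ℂ) := by
        have h9 : W.ν X z = -(((W.β X).count z - (W.α X).count z : ℕ) : ℤ) := by
          unfold ν nu at h5 ⊢
          omega
        rw [h9]
        simp
      rw [h8]
      ring
    · have h7 : (W.β X).count z - (W.α X).count z = 0 := by
        unfold ν nu at h5
        omega
      rw [h7, h5]
      simp
    · have h6 : aeval z gp = 0 := hgp0 z (Finset.mem_filter.mpr ⟨hz, h5⟩)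
      have h7 : (W.β X).count z - (W.α X).count z = 0 := by
        unfold ν nu at h5
        omega
      rw [h7, map_mul, map_pow, h6, zero_pow (Nat.succ_ne_zero K)]
      simp

/-- Kimura finiteness -/
theorem kimura (X : C) : ∃ A B : C, Nonempty (X ≅ A ⊞ B) ∧
    (∀ (Z : C) (g : T A (Multiset.card (W.α X) + 1) ⟶ Z),
      (∀ s, Adj A (Multiset.card (W.α X) + 1) s → s ≫ g = -g) → g = 0) ∧
    (∀ (Z : C) (g : T B (Multiset.card (W.β X) + 1) ⟶ Z),
      (∀ s, Adj B (Multiset.card (W.β X) + 1) s → s ≫ g = g) → g = 0) := by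
  obtain ⟨A, B, h1, h2, h3⟩ := W.decomp X
  refine ⟨A, B, h1, ?_, ?_⟩
  · intro Z g hg
    have h4 := W.pj_zero (ε := 1) (by norm_num) A (W.α X - W.β X)
      (fun n => by rw [h2 n]; simp) (Multiset.card (W.α X))
      (Multiset.card_le_card (Multiset.sub_le_self _ _))
    exact pj_univ (ε := 1) (by norm_num) A _ h4 Z g (fun s hs => by
      rw [hg s hs, neg_smul, one_smul])
  · intro Z g hg
    have h4 := W.pj_zero (ε := -1) (by norm_num) B (W.β X - W.α X)
      (fun n => by rw [h3 n]; simp) (Multiset.card (W.β X))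
      (Multiset.card_le_card (Multiset.sub_le_self _ _))
    exact pj_univ (ε := -1) (by norm_num) B _ h4 Z g (fun s hs => by
      rw [hg s hs, neg_neg, one_smul])

end Frob

end

end Mot
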