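import Pool.Agent.Mot.Dual

/-!
# The linear bound for the length (MP_6c4da4_ag, by helper97)
-/

open CategoryTheory MonoidalCategory BraidedCategory Limits Polynomial

universe v u

namespace Mot

noncomputable section

set_option linter.unusedSectionVars false

variable {C : Type u} [Category.{v} C] [Abelian C] [Linear ℚ C] [MonoidalCategory C]
  [SymmetricCategory C] [MonoidalPreadditive C] [MonoidalLinear ℚ C] [RightRigidCategory C]

namespace Frob

variable (W : Frob C)

lemma t_sum (X : C) (n : ℕ) : (W.t X n : ℂ) = ∑ z ∈ W.S X, (W.ν X z : ℂ) * z ^ n := by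
  rw [W.t_formula, sum_nu]
  rfl

/-- uniqueness of the net multiplicities -/
lemma ν_unique (X : C) (a : ℂ → ℤ) (U : Finset ℂ) (ha : ∀ z, z ∉ U → a z = 0)
    (h : ∀ n, (W.t X n : ℂ) = ∑ z ∈ U, (a z : ℂ) * z ^ n) (z : ℂ) : W.ν X z = a z := by
  classical
  have h1 : ∀ n : ℕ, ∑ z ∈ W.S X ∪ U, ((W.ν X z : ℂ) - (a z : ℂ)) * z ^ n = 0 := by
    intro n
    have e1 : ∑ z ∈ W.S X, (W.ν X z : ℂ) * z ^ n = ∑ z ∈ W.S X ∪ U, (W.ν X z : ℂ) * z ^ n := by
      apply Finset.sum_subset Finset.subset_union_left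
      intro w _ hw
      rw [W.ν_of_notMem hw]
      simp
    have e2 : ∑ z ∈ U, (a z : ℂ) * z ^ n = ∑ z ∈ W.S X ∪ U, (a z : ℂ) * z ^ n := by
      apply Finset.sum_subset Finset.subset_union_right
      intro w _ hw
      rw [ha w hw]
      simp
    have e3 : ∑ z ∈ W.S X ∪ U, ((W.ν X z : ℂ) - (a z : ℂ)) * z ^ n =
        ∑ z ∈ W.S X ∪ U, (W.ν X z : ℂ) * z ^ n - ∑ z ∈ W.S X ∪ U, (a z : ℂ) * z ^ n := by
      rw [← Finset.sum_sub_distrib]
      apply Finset.sum_congr rfl
      intro w _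
      ring
    rw [e3, ← e1, ← e2, ← W.t_sum, ← h n, sub_self]
  by_cases hz : z ∈ W.S X ∪ U
  · have h2 := lag _ _ h1 z hz
    rw [sub_eq_zero] at h2
    exact_mod_cast h2
  · rw [Finset.mem_union, not_or] at hz
    rw [W.ν_of_notMem hz.1, ha z hz.2]

lemma ν_add {S : ShortComplex C} (hS : S.ShortExact) (z : ℂ) :
    W.ν S.X₂ z = W.ν S.X₁ z + W.ν S.X₃ z := by
  classical
  apply W.ν_unique S.X₂ (fun z => W.ν S.X₁ z + W.ν S.X₃ z) (W.S S.X₁ ∪ W.S S.X₃)
  · intro w hw
    rw [Finset.mem_union, not_or] at hw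
    rw [W.ν_of_notMem hw.1, W.ν_of_notMem hw.2, add_zero]
  · intro n
    rw [W.t_add hS]
    push_cast
    have e1 : ∑ z ∈ W.S S.X₁, (W.ν S.X₁ z : ℂ) * z ^ n =
        ∑ z ∈ W.S S.X₁ ∪ W.S S.X₃, (W.ν S.X₁ z : ℂ) * z ^ n := by
      apply Finset.sum_subset Finset.subset_union_left
      intro w _ hw
      rw [W.ν_of_notMem hw]
      simp
    have e2 : ∑ z ∈ W.S S.X₃, (W.ν S.X₃ z : ℂ) * z ^ n =
        ∑ z ∈ W.S S.X₁ ∪ W.S S.X₃, (W.ν S.X₃ z : ℂ) * z ^ n := by
      apply Finset.sum_subset Finset.subset_union_right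
      intro w _ hw
      rw [W.ν_of_notMem hw]
      simp
    rw [W.t_sum, W.t_sum, e1, e2, ← Finset.sum_add_distrib]
    apply Finset.sum_congr rfl
    intro w _
    ring

/-- no number is a positive eigenvalue of one object and a negative eigenvalue of another -/
lemma sign_const (X Y : C) (z : ℂ) (hX : 0 < W.ν X z) (hY : W.ν Y z < 0) : False := by
  classical
  obtain ⟨A, -, -, hA, -⟩ := W.decomp X
  obtain ⟨-, B, -, -, hB⟩ := W.decomp Y
  have hA1 : ∀ w, W.ν A w = ((W.α X - W.β X).count w : ℤ) := by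
    intro w
    apply W.ν_unique A (fun w => ((W.α X - W.β X).count w : ℤ)) (W.α X - W.β X).toFinset
    · intro w hw
      rw [Multiset.mem_toFinset] at hw
      rw [Multiset.count_eq_zero.mpr hw]
      rfl
    · intro n
      rw [hA n, Finset.sum_multiset_map_count]
      apply Finset.sum_congr rfl
      intro w _
      rw [nsmul_eq_mul]
      push_cast
      rfl
  have hB1 : ∀ w, W.ν B w = -((W.β Y - W.α Y).count w : ℤ) := by
    intro w
    apply W.ν_unique B (fun w => -((W.β Y - W.α Y).count w : ℤ)) (W.β Y - W.α Y).toFinset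
    · intro w hw
      rw [Multiset.mem_toFinset] at hw
      rw [Multiset.count_eq_zero.mpr hw]
      rfl
    · intro n
      rw [hB n, Finset.sum_multiset_map_count, ← Finset.sum_neg_distrib]
      apply Finset.sum_congr rfl
      intro w _
      rw [nsmul_eq_mul]
      push_cast
      ring
  have hAz : 0 < W.ν A z := by
    rw [hA1, Multiset.count_sub]
    unfold ν nu at hX
    omega
  have hBz : W.ν B z < 0 := by
    rw [hB1, Multiset.count_sub]
    unfold ν nu at hY
    omega
  have hz0 : z ≠ 0 := (W.t_dual A).2 z (by omega)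
  have hm := W.mult_hom A B
  have hm' : (W.mult (A ⊗ Bᘁ) : ℤ) =
      ∑ z ∈ W.S A, ∑ w ∈ W.S B, W.ν A z * W.ν B w * (if z * w⁻¹ = 1 then 1 else 0) := by
    have h1 : ((W.mult (A ⊗ Bᘁ) : ℤ) : ℂ) =
        ((∑ z ∈ W.S A, ∑ w ∈ W.S B, W.ν A z * W.ν B w * (if z * w⁻¹ = 1 then 1 else 0) : ℤ) : ℂ) := by
      push_cast
      exact hm
    exact_mod_cast h1
  have hterm : ∀ z ∈ W.S A, ∀ w ∈ W.S B,
      W.ν A z * W.ν B w * (if z * w⁻¹ = 1 then 1 else 0) ≤ 0 := by
    intro z _ w _
    have e1 : 0 ≤ W.ν A z := by rw [hA1]; positivity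
    have e2 : W.ν B w ≤ 0 := by
      rw [hB1]
      have : (0 : ℤ) ≤ ((W.β Y - W.α Y).count w : ℤ) := by positivity
      omega
    split_ifs
    · rw [mul_one]
      exact mul_nonpos_of_nonneg_of_nonpos e1 e2
    · rw [mul_zero]
  have h2 : ∑ z ∈ W.S A, ∑ w ∈ W.S B, W.ν A z * W.ν B w * (if z * w⁻¹ = 1 then 1 else 0) < 0 := by
    apply Finset.sum_neg'
    · intro x hx
      exact Finset.sum_nonpos (hterm x hx)
    · refine ⟨z, W.mem_of_ν (by omega), ?_⟩
      apply Finset.sum_neg'
      · intro w hw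
        exact hterm z (W.mem_of_ν (by omega)) w hw
      · refine ⟨z, W.mem_of_ν (by omega), ?_⟩
        rw [if_pos (mul_inv_cancel₀ hz0), mul_one]
        exact mul_neg_of_pos_of_neg hAz hBz
  have h3 : (0 : ℤ) ≤ (W.mult (A ⊗ Bᘁ) : ℤ) := by positivity
  omega

/-- the total net multiplicity -/
def tv (X : C) : ℕ := ∑ z ∈ W.S X, (W.ν X z).natAbs

lemma tv_sum (X : C) (U : Finset ℂ) (h : W.S X ⊆ U) : W.tv X = ∑ z ∈ U, (W.ν X z).natAbs := by
  unfold tv
  apply Finset.sum_subset h
  intro z _ hz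
  rw [W.ν_of_notMem hz]
  rfl

lemma tv_add {S : ShortComplex C} (hS : S.ShortExact) :
    W.tv S.X₂ = W.tv S.X₁ + W.tv S.X₃ := by
  classical
  set U := W.S S.X₁ ∪ (W.S S.X₂ ∪ W.S S.X₃) with hU
  rw [W.tv_sum S.X₁ U Finset.subset_union_left,
    W.tv_sum S.X₂ U (Finset.subset_union_left.trans Finset.subset_union_right),
    W.tv_sum S.X₃ U (Finset.subset_union_right.trans Finset.subset_union_right),
    ← Finset.sum_add_distrib]
  apply Finset.sum_congr rfl
  intro z _
  have h1 := W.ν_add hS z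
  have h2 : ¬ (0 < W.ν S.X₁ z ∧ W.ν S.X₃ z < 0) := fun h => W.sign_const _ _ z h.1 h.2
  have h3 : ¬ (0 < W.ν S.X₃ z ∧ W.ν S.X₁ z < 0) := fun h => W.sign_const _ _ z h.1 h.2
  omega

lemma tv_pos {Q : C} (hQ : ¬ IsZero Q) : 1 ≤ W.tv Q := by
  by_contra h
  apply hQ
  apply W.isZero_of_t
  intro n
  have h1 : W.tv Q = 0 := by omega
  unfold tv at h1
  rw [Finset.sum_eq_zero_iff] at h1
  have h2 : (W.t Q n : ℂ) = 0 := by
    rw [W.t_sum]
    apply Finset.sum_eq_zero
    intro z hz
    have h3 := Int.natAbs_eq_zero.mp (h1 z hz)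
    rw [h3]
    simp
  exact_mod_cast h2

lemma tv_le (X : C) : W.tv X ≤ Multiset.card (W.α X) + Multiset.card (W.β X) := by
  classical
  have h1 : W.tv X ≤ ∑ z ∈ W.S X, ((W.α X).count z + (W.β X).count z) := by
    apply Finset.sum_le_sum
    intro z _
    unfold ν nu
    omega
  have h2 : ∑ z ∈ W.S X, (W.α X).count z = Multiset.card (W.α X) := by
    apply Multiset.sum_count_eq_card
    intro z hz
    unfold S
    rw [Multiset.mem_toFinset, Multiset.mem_add]
    exact Or.inl hz
  have h3 : ∑ z ∈ W.S X, (W.β X).count z = Multiset.card (W.β X) := by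
    apply Multiset.sum_count_eq_card
    intro z hz
    unfold S
    rw [Multiset.mem_toFinset, Multiset.mem_add]
    exact Or.inr hz
  rw [Finset.sum_add_distrib, h2, h3] at h1
  exact h1

lemma tv_le_of_mono {X Y : C} (f : X ⟶ Y) [hf : Mono f] : W.tv X ≤ W.tv Y := by
  have hS : (ShortComplex.mk f (cokernel.π f) (cokernel.condition f)).ShortExact :=
    { exact := ShortComplex.exact_cokernel f
      mono_f := hf
      epi_g := inferInstanceAs (Epi (cokernel.π f)) }
  have h := W.tv_add hS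
  change W.tv Y = W.tv X + W.tv (cokernel f) at h
  omega

lemma tv_lt {X : C} {U V : Subobject X} (h : U < V) : W.tv (U : C) < W.tv (V : C) := by
  set i := U.ofLE V h.le with hi
  have hS : (ShortComplex.mk i (cokernel.π i) (cokernel.condition i)).ShortExact :=
    { exact := ShortComplex.exact_cokernel i
      mono_f := inferInstanceAs (Mono (U.ofLE V h.le))
      epi_g := inferInstanceAs (Epi (cokernel.π i)) }
  have h1 := W.tv_add hS
  change W.tv (V : C) = W.tv (U : C) + W.tv (cokernel i) at h1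
  have hQ : ¬ IsZero (cokernel i) := by
    intro hz
    have h2 : Epi i := Abelian.epi_of_cokernel_π_eq_zero i (hz.eq_of_tgt _ _)
    have h3 : Mono i := inferInstanceAs (Mono (U.ofLE V h.le))
    have h4 : IsIso i := isIso_of_mono_of_epi i
    apply absurd h (not_lt_of_ge _)
    apply Subobject.le_of_comm (inv i)
    rw [IsIso.inv_comp_eq]
    exact (Subobject.ofLE_arrow h.le).symm
  have h2 := W.tv_pos hQ
  omega

/-- the linear bound for the length -/
theorem length_le' (X : C) (s : LTSeries (Subobject X)) :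
    s.length ≤ Multiset.card (W.α X) + Multiset.card (W.β X) := by
  have hmon : StrictMono (fun U : Subobject X => W.tv (U : C)) := fun U V h => W.tv_lt h
  have h1 := LTSeries.head_add_length_le_nat (s.map _ hmon)
  have h2 : (s.map _ hmon).last = W.tv (s.last : C) := rfl
  have h3 : (s.map _ hmon).length = s.length := rfl
  have h4 := W.tv_le_of_mono s.last.arrow
  have h5 := W.tv_le X
  omega

/-- the linear bound for the index of nilpotence -/
theorem index' {X : C} (f : End X) (hf : ∀ g : X ⟶ X, tr X (f ≫ g) = 0) :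
    f ^ (Multiset.card (W.α X) + Multiset.card (W.β X)) = 0 := by
  classical
  have hex : ∃ n, f ^ n = 0 := W.nilpotent f hf
  set k := Nat.find hex with hk
  have hk0 : f ^ k = 0 := Nat.find_spec hex
  have hlt : ∀ n < k, kernelSubobject (f ^ n : X ⟶ X) < kernelSubobject (f ^ (n + 1) : X ⟶ X) := by
    intro n hn
    have h1 : ¬ f ^ n = 0 := Nat.find_min hex hn
    have h2 : kernelSubobject (f ^ n : X ⟶ X) ≤ kernelSubobject (f ^ (n + 1) : X ⟶ X) := by
      have h3 : (kernelSubobject (f ^ n : X ⟶ X)).arrow ≫ (f ^ (n + 1) : X ⟶ X) = 0 := by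
        have h4 : (f ^ (n + 1) : End X) = ((f ^ n : End X) ≫ f : X ⟶ X) := by
          rw [pow_succ']
          rfl
        rw [h4, ← Category.assoc, kernelSubobject_arrow_comp, Limits.zero_comp]
      exact le_kernelSubobject _ _ h3
    refine lt_of_le_of_ne h2 ?_
    intro h3
    apply h1
    have h4 : ∀ (Y : C) (g : Y ⟶ X), g ≫ (f ^ (n + 1) : End X) = 0 →
        g ≫ (f ^ n : End X) = 0 := by
      intro Y g hg
      have h5 : (kernelSubobject (f ^ (n + 1) : X ⟶ X)).Factors g := by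
        rw [kernelSubobject_factors_iff]
        exact hg
      rw [← h3, kernelSubobject_factors_iff] at h5
      exact h5
    apply pow_stop f n h4 (k - n)
    rw [← hk0]
    congr 1
    omega
  have hle : ∀ n ≤ k, n ≤ W.tv (kernelSubobject (f ^ n : X ⟶ X) : C) := by
    intro n
    induction n with
    | zero => intro _; exact Nat.zero_le _
    | succ n ih =>
      intro hn
      have h1 := ih (by omega)
      have h2 := W.tv_lt (hlt n (by omega))
      omega
  have h1 := hle k le_rfl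
  have h2 := W.tv_le_of_mono (kernelSubobject (f ^ k : X ⟶ X)).arrow
  have h5 := W.tv_le X
  have h3 : k ≤ Multiset.card (W.α X) + Multiset.card (W.β X) := by omega
  obtain ⟨j, hj⟩ := Nat.exists_eq_add_of_le h3
  rw [hj, pow_add, hk0, zero_mul]

end Frob

end

end Mot
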