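import Pool.Agent.Mot.Frob

/-!
# Multiplicities, the unit is simple, finiteness (MP_6c4da4_ag, by helper97)
-/

open CategoryTheory MonoidalCategory BraidedCategory Limits

universe v u

namespace Mot

noncomputable section

set_option linter.unusedSectionVars false

lemma exP (s : Finset ℂ) : ∃ P : Polynomial ℂ, P.eval 1 = 1 ∧ ∀ z ∈ s, z ≠ 1 → P.eval z = 0 := by
  refine ⟨∏ z ∈ s.erase 1, (Polynomial.C (1 - z)⁻¹ * (Polynomial.X - Polynomial.C z)), ?_, ?_⟩
  · rw [Polynomial.eval_prod]
    apply Finset.prod_eq_one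
    intro z hz
    have h1 : (1 : ℂ) - z ≠ 0 := sub_ne_zero.mpr (Finset.ne_of_mem_erase hz).symm
    simp [h1]
  · intro z hz h1
    rw [Polynomial.eval_prod]
    apply Finset.prod_eq_zero (Finset.mem_erase.mpr ⟨h1, hz⟩)
    simp

lemma sum_eval (P : Polynomial ℂ) (m : Multiset ℂ) :
    (m.map (fun z => P.eval z)).sum =
      ∑ k ∈ P.support, P.coeff k * (m.map (fun z => z ^ k)).sum := by
  induction m using Multiset.induction_on with
  | empty => simp
  | cons a m ih =>
    rw [Multiset.map_cons, Multiset.sum_cons, ih, Polynomial.eval_eq_sum, Polynomial.sum,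
      ← Finset.sum_add_distrib]
    apply Finset.sum_congr rfl
    intro k _
    rw [Multiset.map_cons, Multiset.sum_cons]
    ring

lemma sum_count (P : Polynomial ℂ) (h1 : P.eval 1 = 1) (m : Multiset ℂ)
    (h : ∀ z ∈ m, z ≠ 1 → P.eval z = 0) :
    (m.map (fun z => P.eval z)).sum = m.count 1 := by
  induction m using Multiset.induction_on with
  | empty => simp
  | cons a m ih =>
    rw [Multiset.map_cons, Multiset.sum_cons, ih (fun z hz => h z (Multiset.mem_cons_of_mem hz))]
    by_cases ha : a = 1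
    · subst ha
      rw [h1, Multiset.count_cons_self]
      push_cast
      ring
    · rw [h a (Multiset.mem_cons_self a m) ha, Multiset.count_cons_of_ne (Ne.symm ha)]
      ring

/-- in a finite-dimensional algebra, an element which is not nilpotent has a multiple which is a
nonzero idempotent -/
lemma exIdem {A : Type v} [Ring A] [Algebra ℚ A] [Module.Finite ℚ A] (a : A)
    (h : ¬ IsNilpotent a) : ∃ b : A, (a * b) * (a * b) = a * b ∧ a * b ≠ 0 := by
  have hint : IsIntegral ℚ a := IsIntegral.of_finite ℚ a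
  have hm : minpoly ℚ a ≠ 0 := minpoly.ne_zero hint
  obtain ⟨q, hq, hdvd⟩ := Polynomial.exists_eq_pow_rootMultiplicity_mul_and_not_dvd
    (minpoly ℚ a) hm 0
  rw [Polynomial.C_0, sub_zero] at hq hdvd
  set k := Polynomial.rootMultiplicity 0 (minpoly ℚ a)
  have hcop : IsCoprime ((Polynomial.X : Polynomial ℚ) ^ (k + 1)) q :=
    ((Polynomial.irreducible_X.coprime_iff_not_dvd).mpr hdvd).pow_left
  obtain ⟨c, d, hcd⟩ := hcop
  have hkill : a ^ (k + 1) * Polynomial.aeval a q = 0 := by
    have h1 := minpoly.aeval ℚ a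
    rw [hq, map_mul, map_pow, Polynomial.aeval_X] at h1
    rw [pow_succ', mul_assoc, h1, mul_zero]
  have hone : Polynomial.aeval a c * a ^ (k + 1) + Polynomial.aeval a d * Polynomial.aeval a q
      = 1 := by
    have h1 := congrArg (Polynomial.aeval a) hcd
    rw [map_add, map_mul, map_mul, map_pow, Polynomial.aeval_X, map_one] at h1
    exact h1
  have hcomm : ∀ p : Polynomial ℚ, Commute a (Polynomial.aeval a p) := by
    intro p
    have h1 : Commute (Polynomial.aeval a (Polynomial.X : Polynomial ℚ)) (Polynomial.aeval a p) := by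
      unfold Commute SemiconjBy
      rw [← map_mul, ← map_mul, mul_comm]
    rwa [Polynomial.aeval_X] at h1
  refine ⟨a ^ k * Polynomial.aeval a c, ?_, ?_⟩
  · set e := a * (a ^ k * Polynomial.aeval a c) with he
    have he' : e = Polynomial.aeval a c * a ^ (k + 1) := by
      rw [he, ← mul_assoc, ← pow_succ', ((hcomm c).pow_left (k + 1)).eq]
    have h2 : Polynomial.aeval a d * Polynomial.aeval a q = 1 - e := by
      rw [he', ← hone]
      abel
    have h3 : e * (1 - e) = 0 := by
      rw [← h2]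
      have h4 : Commute (Polynomial.aeval a d) (Polynomial.aeval a q) := by
        unfold Commute SemiconjBy
        rw [← map_mul, ← map_mul, mul_comm]
      rw [h4.eq, ← mul_assoc, he', mul_assoc (Polynomial.aeval a c), hkill, mul_zero, zero_mul]
    rw [mul_sub, mul_one, sub_eq_zero] at h3
    exact h3.symm
  · intro h0
    apply h
    refine ⟨k + 1, ?_⟩
    have he' : Polynomial.aeval a c * a ^ (k + 1) = 0 := by
      rw [← ((hcomm c).pow_left (k + 1)).eq, pow_succ', mul_assoc, h0]
    have h4 : Commute (Polynomial.aeval a d) (Polynomial.aeval a q) := by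
      unfold Commute SemiconjBy
      rw [← map_mul, ← map_mul, mul_comm]
    rw [he', zero_add, h4.eq] at hone
    calc a ^ (k + 1) = a ^ (k + 1) * (Polynomial.aeval a q * Polynomial.aeval a d) := by
          rw [hone, mul_one]
      _ = 0 := by rw [← mul_assoc, hkill, zero_mul]

variable {C : Type u} [Category.{v} C] [Abelian C] [Linear ℚ C] [MonoidalCategory C]
  [SymmetricCategory C] [MonoidalPreadditive C] [MonoidalLinear ℚ C] [RightRigidCategory C]

namespace Frob

variable (W : Frob C)

lemma mult_eq (X : C) (P : Polynomial ℂ) (h1 : P.eval 1 = 1)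
    (hα : ∀ z ∈ W.α X, z ≠ 1 → P.eval z = 0) (hβ : ∀ z ∈ W.β X, z ≠ 1 → P.eval z = 0) :
    ∑ k ∈ P.support, P.coeff k * (W.t X k : ℂ) = W.mult X := by
  have h2 := sum_count P h1 (W.α X) hα
  have h3 := sum_count P h1 (W.β X) hβ
  rw [sum_eval] at h2 h3
  have h4 : (W.β X).count 1 = 0 := Multiset.count_eq_zero.mpr (W.odd X)
  rw [h4, Nat.cast_zero] at h3
  have h5 : ∀ k ∈ P.support, P.coeff k * (W.t X k : ℂ) =
      P.coeff k * ((W.α X).map (fun z => z ^ k)).sum -
        P.coeff k * ((W.β X).map (fun z => z ^ k)).sum := by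
    intro k _
    rw [W.t_formula, mul_sub]
  rw [Finset.sum_congr rfl h5, Finset.sum_sub_distrib, h2, h3, sub_zero]
  rfl

/-- additivity of the multiplicity -/
lemma mult_add {S : ShortComplex C} (hS : S.ShortExact) :
    W.mult S.X₂ = W.mult S.X₁ + W.mult S.X₃ := by
  classical
  obtain ⟨P, h1, hP⟩ := exP ((W.α S.X₁ + W.β S.X₁ + (W.α S.X₂ + W.β S.X₂) +
    (W.α S.X₃ + W.β S.X₃)).toFinset)
  have e1 := W.mult_eq S.X₁ P h1 (fun z hz => hP z (by simp [hz])) (fun z hz => hP z (by simp [hz]))
  have e2 := W.mult_eq S.X₂ P h1 (fun z hz => hP z (by simp [hz])) (fun z hz => hP z (by simp [hz]))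
  have e3 := W.mult_eq S.X₃ P h1 (fun z hz => hP z (by simp [hz])) (fun z hz => hP z (by simp [hz]))
  have h2 : (W.mult S.X₂ : ℂ) = W.mult S.X₁ + W.mult S.X₃ := by
    rw [← e1, ← e2, ← e3, ← Finset.sum_add_distrib]
    apply Finset.sum_congr rfl
    intro k _
    rw [W.t_add hS]
    push_cast
    ring
  exact_mod_cast h2

lemma mult_of_const {X : C} (h : ∀ n, W.t X n = W.t X 0) : (W.mult X : ℚ) = W.t X 0 := by
  classical
  obtain ⟨P, h1, hP⟩ := exP ((W.α X + W.β X).toFinset)
  have e1 := W.mult_eq X P h1 (fun z hz => hP z (by simp [hz])) (fun z hz => hP z (by simp [hz]))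
  have h2 : (W.mult X : ℂ) = ((W.t X 0 : ℚ) : ℂ) := by
    rw [← e1]
    have h3 : ∀ k ∈ P.support, P.coeff k * (W.t X k : ℂ) = P.coeff k * 1 ^ k * (W.t X 0 : ℂ) := by
      intro k _
      rw [h k]
      simp
    rw [Finset.sum_congr rfl h3, ← Finset.sum_mul]
    have h4 : ∑ k ∈ P.support, P.coeff k * 1 ^ k = P.eval 1 := by
      rw [Polynomial.eval_eq_sum, Polynomial.sum]
    rw [h4, h1, one_mul]
  have h5 : (((W.mult X : ℚ)) : ℂ) = ((W.t X 0 : ℚ) : ℂ) := by
    rw [← h2]
    push_cast
    rfl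
  exact_mod_cast h5

lemma mult_of_one {X : C} (h : W.F.app X = 𝟙 X) : (W.mult X : ℚ) = W.t X 0 := by
  apply W.mult_of_const
  intro n
  unfold t
  rw [W.Fp_of_one h, W.Fp_of_one h]

lemma mult_unit : W.mult (𝟙_ C) = 1 := by
  have h := W.mult_of_one W.F_unit
  rw [W.t_unit] at h
  exact_mod_cast h

lemma mult_of_zero {X : C} (h : ∀ n, W.t X n = 0) : W.mult X = 0 := by
  have h1 := W.mult_of_const (X := X) (fun n => by rw [h n, h 0])
  rw [h 0] at h1
  exact_mod_cast h1

end Frob

end

end Mot
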