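import Pool.Agent.Mot.Defs

/-!
# Projectors on tensor powers (MP_6c4da4_ag, by helper97)
-/

open CategoryTheory MonoidalCategory BraidedCategory Limits

universe v u

namespace Mot

noncomputable section

set_option linter.unusedSectionVars false

section Alg

variable {R : Type v} [Ring R] [Algebra ℚ R]

/-- the algebra behind the projectors -/
lemma proj_alg {a b s w : R} {N : ℚ} (ha : N • a = b * (1 - (N - 1) • w) * b) (hs : s * s = 1)
    (hsb : s * b = b * s) (hbr : s * w * s = w * s * w) (hba : b * a = a) (hwa : w * a = -a)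
    (haa : a * a = a) :
    s * (a * (1 - N • s) * a) = -(a * (1 - N • s) * a) := by
  have h1 : N • (s * a * s * a) = a + (N - 1) • (b * w * s * a) := by
    have e1 : N • (s * a * s * a) = s * (N • a) * s * a := by
      simp only [mul_smul_comm, smul_mul_assoc]
    have e2 : s * (b * (1 - (N - 1) • w) * b) * s * a =
        (b * (s * (1 - (N - 1) • w) * s)) * (b * a) := by
      calc s * (b * (1 - (N - 1) • w) * b) * s * a
          = (s * b) * (1 - (N - 1) • w) * (b * s) * a := by noncomm_ring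
        _ = (b * s) * (1 - (N - 1) • w) * (s * b) * a := by rw [hsb]
        _ = _ := by noncomm_ring
    have e3 : s * (1 - (N - 1) • w) * s = 1 - (N - 1) • (w * s * w) := by
      calc s * (1 - (N - 1) • w) * s = s * s - (N - 1) • (s * w * s) := by
            simp only [mul_sub, sub_mul, mul_one, mul_smul_comm, smul_mul_assoc]
        _ = _ := by rw [hs, hbr]
    rw [e1, ha, e2, e3, hba]
    calc b * (1 - (N - 1) • (w * s * w)) * a = b * a - (N - 1) • (b * w * s * (w * a)) := by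
          simp only [mul_sub, sub_mul, mul_one, mul_smul_comm, smul_mul_assoc, mul_assoc]
      _ = _ := by
          rw [hba, hwa]
          simp only [mul_neg, smul_neg, sub_neg_eq_add]
  have h2 : N • (a * s * a) = s * a - (N - 1) • (b * w * s * a) := by
    have e1 : N • (a * s * a) = (N • a) * s * a := by
      simp only [smul_mul_assoc]
    have e2 : b * (1 - (N - 1) • w) * b * s * a = b * (1 - (N - 1) • w) * s * (b * a) := by
      calc b * (1 - (N - 1) • w) * b * s * a = b * (1 - (N - 1) • w) * (b * s) * a := by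
            noncomm_ring
        _ = _ := by
            rw [← hsb]
            noncomm_ring
    rw [e1, ha, e2, hba]
    calc b * (1 - (N - 1) • w) * s * a = (b * s) * a - (N - 1) • (b * w * s * a) := by
          simp only [mul_sub, sub_mul, mul_one, mul_smul_comm, smul_mul_assoc]
      _ = _ := by rw [← hsb, mul_assoc s, hba]
  have e1 : a * (1 - N • s) * a = a - N • (a * s * a) := by
    simp only [mul_sub, sub_mul, mul_one, mul_smul_comm, smul_mul_assoc, haa]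
  have e2 : s * (a - N • (a * s * a)) = s * a - N • (s * a * s * a) := by
    simp only [mul_sub, mul_smul_comm, mul_assoc]
  rw [e1, e2, h1, h2]
  abel

lemma idem_alg {a s : R} {N : ℚ} (haa : a * a = a)
    (h : s * (a * (1 - N • s) * a) = -(a * (1 - N • s) * a)) :
    (a * (1 - N • s) * a) * (a * (1 - N • s) * a) = (N + 1) • (a * (1 - N • s) * a) := by
  set E := a * (1 - N • s) * a with hE
  have h1 : a * E = E := by
    rw [hE, ← mul_assoc, ← mul_assoc, haa]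
  calc E * E = a * (1 - N • s) * (a * E) := by
        nth_rw 1 [hE]
        rw [mul_assoc]
    _ = a * ((1 - N • s) * E) := by rw [h1, mul_assoc]
    _ = a * (E - N • (s * E)) := by rw [sub_mul, one_mul, smul_mul_assoc]
    _ = (N + 1) • E := by
        rw [h, smul_neg, sub_neg_eq_add, mul_add, mul_smul_comm, h1, add_smul, one_smul, add_comm]

end Alg

variable {C : Type u} [Category.{v} C] [MonoidalCategory C] [SymmetricCategory C]

lemma sw_sq (P X : C) : sw P X ≫ sw P X = 𝟙 _ := by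
  unfold sw
  simp only [Category.assoc, Iso.inv_hom_id_assoc]
  rw [← MonoidalCategory.whiskerLeft_comp_assoc, SymmetricCategory.symmetry]
  simp

lemma sw_nat {P Q : C} (f : P ⟶ Q) (X : C) :
    (f ▷ X) ▷ X ≫ sw Q X = sw P X ≫ (f ▷ X) ▷ X := by
  unfold sw
  simp only [Category.assoc]
  rw [associator_naturality_left_assoc, ← whisker_exchange_assoc, associator_inv_naturality_left]

lemma sw_nat' {P Q X Y : C} (f : P ⟶ Q) (g h : X ⟶ Y) :
    ((f ⊗ₘ g) ⊗ₘ h) ≫ sw Q Y = sw P X ≫ ((f ⊗ₘ h) ⊗ₘ g) := by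
  unfold sw
  simp only [Category.assoc]
  rw [associator_naturality_assoc, ← associator_inv_naturality]
  congr 1
  rw [← Category.assoc, ← Category.assoc]
  congr 1
  rw [← id_tensorHom, ← id_tensorHom, MonoidalCategory.tensorHom_comp_tensorHom,
    MonoidalCategory.tensorHom_comp_tensorHom, braiding_naturality, Category.comp_id,
    Category.id_comp]

lemma sw_braid (P X : C) : sw (P ⊗ X) X ≫ (sw P X) ▷ X ≫ sw (P ⊗ X) X =
    (sw P X) ▷ X ≫ sw (P ⊗ X) X ≫ (sw P X) ▷ X := by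
  have h := yang_baxter' X X X
  unfold sw
  symm
  calc _ = 𝟙 (((P ⊗ X) ⊗ X) ⊗ X) ⊗≫ P ◁ ((β_ X X).hom ▷ X ⊗≫ X ◁ (β_ X X).hom ⊗≫
          (β_ X X).hom ▷ X) ⊗≫ 𝟙 (((P ⊗ X) ⊗ X) ⊗ X) := by
        monoidal
    _ = _ := by
        rw [h]
        monoidal

variable [Preadditive C] [Linear ℚ C] [MonoidalPreadditive C] [MonoidalLinear ℚ C]

lemma smul_sq {ε : ℚ} (hε : ε * ε = 1) (P X : C) :
    (ε • sw P X) ≫ (ε • sw P X) = 𝟙 ((P ⊗ X) ⊗ X) := by
  rw [Linear.smul_comp, Linear.comp_smul, smul_smul, hε, one_smul, sw_sq]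

/-- the step in the construction of the projectors -/
def stp (ε N : ℚ) (P X : C) (A : P ⊗ X ⟶ P ⊗ X) : (P ⊗ X) ⊗ X ⟶ (P ⊗ X) ⊗ X :=
  (N + 1)⁻¹ • (A ▷ X ≫ (𝟙 ((P ⊗ X) ⊗ X) - N • (ε • sw P X)) ≫ A ▷ X)

/-- the property of two consecutive projectors -/
def Good (ε : ℚ) (P X : C) (A : P ⊗ X ⟶ P ⊗ X) (B : (P ⊗ X) ⊗ X ⟶ (P ⊗ X) ⊗ X) : Prop :=
  B ≫ B = B ∧ B ≫ (A ▷ X) = B ∧ B ≫ (ε • sw P X) = -B

lemma good_zero {ε : ℚ} (hε : ε * ε = 1) (P X : C) :
    Good ε P X (𝟙 (P ⊗ X)) (stp ε 1 P X (𝟙 (P ⊗ X))) := by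
  have h2 : stp ε 1 P X (𝟙 (P ⊗ X)) = (2 : ℚ)⁻¹ • (𝟙 ((P ⊗ X) ⊗ X) - ε • sw P X) := by
    unfold stp
    rw [id_whiskerRight, Category.id_comp, Category.comp_id]
    norm_num
  have hs := smul_sq hε P X
  unfold Good
  rw [h2]
  set S := ε • sw P X with hS
  have h3 : ((𝟙 ((P ⊗ X) ⊗ X) - S) ≫ (𝟙 ((P ⊗ X) ⊗ X) - S)) =
      (2 : ℚ) • (𝟙 ((P ⊗ X) ⊗ X) - S) := by
    rw [Preadditive.sub_comp, Preadditive.comp_sub, Preadditive.comp_sub, hs, Category.id_comp,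
      Category.id_comp, Category.comp_id, two_smul]
    abel
  refine ⟨?_, ?_, ?_⟩
  · rw [Linear.smul_comp, Linear.comp_smul, h3, smul_smul, smul_smul]
    norm_num
  · rw [id_whiskerRight, Category.comp_id]
  · rw [Linear.smul_comp, Preadditive.sub_comp, hs, Category.id_comp, ← smul_neg, neg_sub]

lemma good_succ {ε : ℚ} (hε : ε * ε = 1) {N : ℚ} (hN : 0 < N) (P X : C) (A : P ⊗ X ⟶ P ⊗ X)
    (h : Good ε P X A (stp ε N P X A)) :
    Good ε (P ⊗ X) X (stp ε N P X A) (stp ε (N + 1) (P ⊗ X) X (stp ε N P X A)) := by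
  obtain ⟨h2, h3, h4⟩ := h
  have e1 : (N + 1) • stp ε N P X A =
      A ▷ X ≫ (𝟙 ((P ⊗ X) ⊗ X) - N • (ε • sw P X)) ≫ A ▷ X := by
    unfold stp
    rw [smul_smul, mul_inv_cancel₀ (by positivity), one_smul]
  obtain ⟨B, hB⟩ : ∃ B, B = stp ε N P X A := ⟨_, rfl⟩
  rw [← hB] at h2 h3 h4 e1 ⊢
  obtain ⟨a, ha⟩ : ∃ a : End (((P ⊗ X) ⊗ X) ⊗ X), a = B ▷ X := ⟨_, rfl⟩
  obtain ⟨b, hb⟩ : ∃ b : End (((P ⊗ X) ⊗ X) ⊗ X), b = (A ▷ X) ▷ X := ⟨_, rfl⟩
  obtain ⟨s, hs⟩ : ∃ s : End (((P ⊗ X) ⊗ X) ⊗ X), s = ε • sw (P ⊗ X) X := ⟨_, rfl⟩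
  obtain ⟨w, hw⟩ : ∃ w : End (((P ⊗ X) ⊗ X) ⊗ X), w = (ε • sw P X) ▷ X := ⟨_, rfl⟩
  have k1 : (N + 1) • a = b * (1 - ((N + 1) - 1) • w) * b := by
    have e2 : (N + 1) • (B ▷ X) = ((N + 1) • B) ▷ X := by
      rw [MonoidalLinear.smul_whiskerRight]
    have e3 : (𝟙 ((P ⊗ X) ⊗ X) - N • (ε • sw P X)) ▷ X =
        𝟙 (((P ⊗ X) ⊗ X) ⊗ X) - ((N + 1) - 1) • ((ε • sw P X) ▷ X) := by
      have e4 : (N + 1) - 1 = N := by ring
      rw [e4, sub_eq_add_neg, MonoidalPreadditive.add_whiskerRight, id_whiskerRight,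
        ← neg_smul, MonoidalLinear.smul_whiskerRight, neg_smul, ← sub_eq_add_neg]
    rw [ha, hb, hw]
    refine Eq.trans e2 ?_
    rw [e1, comp_whiskerRight, comp_whiskerRight, e3]
    rfl
  have k2 : s * s = 1 := by
    rw [hs]
    exact smul_sq hε _ _
  have k3 : s * b = b * s := by
    rw [hs, hb]
    change ((A ▷ X) ▷ X) ≫ (ε • sw (P ⊗ X) X) = (ε • sw (P ⊗ X) X) ≫ ((A ▷ X) ▷ X)
    rw [Linear.smul_comp, Linear.comp_smul, sw_nat]
  have k4 : s * w * s = w * s * w := by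
    rw [hs, hw]
    change (ε • sw (P ⊗ X) X) ≫ ((ε • sw P X) ▷ X) ≫ (ε • sw (P ⊗ X) X) =
      ((ε • sw P X) ▷ X) ≫ (ε • sw (P ⊗ X) X) ≫ ((ε • sw P X) ▷ X)
    rw [MonoidalLinear.smul_whiskerRight]
    simp only [Linear.smul_comp, Linear.comp_smul]
    rw [sw_braid]
  have k5 : b * a = a := by
    rw [ha, hb]
    change (B ▷ X) ≫ ((A ▷ X) ▷ X) = B ▷ X
    rw [← comp_whiskerRight, h3]
  have k6 : w * a = -a := by
    rw [ha, hw]
    change (B ▷ X) ≫ ((ε • sw P X) ▷ X) = -(B ▷ X)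
    rw [← comp_whiskerRight, h4, ← neg_one_smul ℚ B, MonoidalLinear.smul_whiskerRight,
      neg_one_smul]
  have k7 : a * a = a := by
    rw [ha]
    change (B ▷ X) ≫ (B ▷ X) = B ▷ X
    rw [← comp_whiskerRight, h2]
  have r1 := proj_alg k1 k2 k3 k4 k5 k6 k7
  have r2 := idem_alg k7 r1
  obtain ⟨E, hE⟩ : ∃ E : End (((P ⊗ X) ⊗ X) ⊗ X), E = a * (1 - (N + 1) • s) * a := ⟨_, rfl⟩
  rw [← hE] at r1 r2
  obtain ⟨D, hD⟩ : ∃ D : End (((P ⊗ X) ⊗ X) ⊗ X), D = stp ε (N + 1) (P ⊗ X) X B := ⟨_, rfl⟩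
  have r3 : D = (N + 1 + 1)⁻¹ • E := by
    rw [hD, hE, ha, hs]
    rfl
  have r4 : a * E = E := by
    rw [hE, ← mul_assoc, ← mul_assoc, k7]
  unfold Good
  rw [← hD]
  refine ⟨?_, ?_, ?_⟩
  · have e5 : D * D = D := by
      rw [r3, smul_mul_assoc, mul_smul_comm, r2, smul_smul, smul_smul]
      congr 1
      have : N + 1 + 1 ≠ 0 := by positivity
      field_simp
    exact e5
  · have e5 : a * D = D := by
      rw [r3, mul_smul_comm, r4]
    rw [ha] at e5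
    exact e5
  · have e5 : s * D = -D := by
      rw [r3, mul_smul_comm, r1, smul_neg]
    rw [hs] at e5
    exact e5

/-- the projectors: ε = 1 antisymmetric, ε = -1 symmetric -/
def pj (ε : ℚ) (X : C) : ∀ n, T X n ⟶ T X n
  | 0 => 𝟙 _
  | 1 => 𝟙 _
  | n + 2 => stp ε ((n : ℚ) + 1) (T X n) X (pj ε X (n + 1))

lemma pj_two (ε : ℚ) (X : C) (n : ℕ) :
    pj ε X (n + 2) = stp ε ((n : ℚ) + 1) (T X n) X (pj ε X (n + 1)) := rfl

lemma good {ε : ℚ} (hε : ε * ε = 1) (X : C) (n : ℕ) :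
    Good ε (T X n) X (pj ε X (n + 1)) (pj ε X (n + 2)) := by
  induction n with
  | zero =>
    have h := good_zero hε (𝟙_ C) X
    have h1 : ((0 : ℕ) : ℚ) + 1 = 1 := by norm_num
    rw [pj_two, h1]
    exact h
  | succ n ih =>
    have h := good_succ hε (N := (n : ℚ) + 1) (by positivity) (T X n) X (pj ε X (n + 1)) ih
    have h1 : ((n + 1 : ℕ) : ℚ) + 1 = (n : ℚ) + 1 + 1 := by push_cast; ring
    rw [pj_two ε X (n + 1), h1]
    exact h

/-- the projectors are idempotent -/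
lemma pj_idem {ε : ℚ} (hε : ε * ε = 1) (X : C) (n : ℕ) : pj ε X n ≫ pj ε X n = pj ε X n := by
  rcases n with _ | n
  · exact Category.id_comp _
  · rcases n with _ | n
    · exact Category.id_comp _
    · exact (good hε X n).1

omit [Preadditive C] [Linear ℚ C] [MonoidalPreadditive C] [MonoidalLinear ℚ C] in
lemma up_aux {P X Y Z : C} (s : P ⟶ P) (g : (P ⊗ X) ⊗ Y ⟶ Z) :
    s ▷ (X ⊗ Y) ≫ ((α_ P X Y).inv ≫ g) = (α_ P X Y).inv ≫ ((s ▷ X) ▷ Y ≫ g) := by
  rw [associator_inv_naturality_left_assoc]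

lemma pj_fix {ε : ℚ} (hε : ε * ε = 1) (X : C) (n : ℕ) :
    ∀ (Y Z : C) (g : T X (n + 1) ⊗ Y ⟶ Z),
      (∀ s, Adj X (n + 1) s → (s ▷ Y) ≫ g = (-ε) • g) → (pj ε X (n + 1) ▷ Y) ≫ g = g := by
  induction n with
  | zero =>
    intro Y Z g _
    have h : pj ε X (0 + 1) = 𝟙 _ := rfl
    rw [h, id_whiskerRight, Category.id_comp]
  | succ n ih =>
    intro Y Z g hg
    -- the previous projector fixes g
    have h1 : ((pj ε X (n + 1) ▷ X) ▷ Y) ≫ g = g := by
      have h2 := ih (X ⊗ Y) Z ((α_ (T X (n + 1)) X Y).inv ≫ g) (by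
        intro s hs
        have h3 := hg _ (Adj.up _ s hs)
        refine (up_aux (P := T X (n + 1)) s g).trans ?_
        refine Eq.trans (congrArg (fun z => (α_ (T X (n + 1)) X Y).inv ≫ z) h3) ?_
        exact Linear.comp_smul (R := ℚ) (C := C) _ _ _ (α_ (T X (n + 1)) X Y).inv (-ε) g)
      have h5 := (up_aux (P := T X (n + 1)) (pj ε X (n + 1)) g).symm.trans h2
      exact (cancel_epi (α_ (T X (n + 1)) X Y).inv).mp h5
    have h2 : (sw (T X n) X ▷ Y) ≫ g = (-ε) • g := hg _ (Adj.last n)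
    have key : ∀ (P : C) (A : P ⊗ X ⟶ P ⊗ X) (g : ((P ⊗ X) ⊗ X) ⊗ Y ⟶ Z),
        ((A ▷ X) ▷ Y) ≫ g = g → (sw P X ▷ Y) ≫ g = (-ε) • g →
        (stp ε ((n : ℚ) + 1) P X A ▷ Y) ≫ g = g := by
      intro P A g k1 k2
      unfold stp
      have e1 : ((((n : ℚ) + 1 + 1)⁻¹ • (A ▷ X ≫ (𝟙 ((P ⊗ X) ⊗ X) - ((n : ℚ) + 1) • (ε • sw P X)) ≫
          A ▷ X)) ▷ Y) = ((n : ℚ) + 1 + 1)⁻¹ • (((A ▷ X) ▷ Y) ≫
            (𝟙 (((P ⊗ X) ⊗ X) ⊗ Y) - (((n : ℚ) + 1) * ε) • (sw P X ▷ Y)) ≫ ((A ▷ X) ▷ Y)) := by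
        rw [MonoidalLinear.smul_whiskerRight, comp_whiskerRight, comp_whiskerRight, smul_smul,
          sub_eq_add_neg, MonoidalPreadditive.add_whiskerRight, id_whiskerRight,
          ← neg_smul, MonoidalLinear.smul_whiskerRight, neg_smul, ← sub_eq_add_neg]
      rw [e1, Linear.smul_comp, Category.assoc, Category.assoc, k1, Preadditive.sub_comp,
        Category.id_comp, Linear.smul_comp, k2, smul_smul]
      have e2 : ((n : ℚ) + 1) * ε * -ε = -((n : ℚ) + 1) := by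
        have : ((n : ℚ) + 1) * ε * -ε = -((n : ℚ) + 1) * (ε * ε) := by ring
        rw [this, hε, mul_one]
      rw [e2, neg_smul, sub_neg_eq_add]
      have e3 : g + ((n : ℚ) + 1) • g = ((n : ℚ) + 1 + 1) • g := by
        rw [add_smul ((n : ℚ) + 1) 1 g, one_smul, add_comm]
      rw [e3, Linear.comp_smul, k1, smul_smul, inv_mul_cancel₀ (by positivity), one_smul]
    exact key (T X n) (pj ε X (n + 1)) g h1 h2

/-- if the projector vanishes then so does every (anti)symmetric morphism -/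
lemma pj_univ {ε : ℚ} (hε : ε * ε = 1) (X : C) (n : ℕ) (h0 : pj ε X (n + 1) = 0) (Z : C)
    (g : T X (n + 1) ⟶ Z) (hg : ∀ s, Adj X (n + 1) s → s ≫ g = (-ε) • g) : g = 0 := by
  have h1 := pj_fix hε X n (𝟙_ C) Z ((ρ_ _).hom ≫ g) (by
    intro s hs
    rw [← Category.assoc, rightUnitor_naturality, Category.assoc, hg s hs, Linear.comp_smul])
  rw [h0, MonoidalPreadditive.zero_whiskerRight, Limits.zero_comp] at h1
  rw [← cancel_epi (ρ_ (T X (n + 1))).hom, ← h1, Limits.comp_zero]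

end

end Mot
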