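import Pool.Agent.Mot.Bound
import Pool.Agent.Mot.Proj

/-!
# Traces of the projectors (MP_6c4da4_ag, by helper97)
-/

open CategoryTheory MonoidalCategory BraidedCategory Limits

universe v u

namespace Mot

noncomputable section

set_option linter.unusedSectionVars false

section Newton

lemma esymm_cons' (a : ℂ) (s : Multiset ℂ) (n : ℕ) :
    (a ::ₘ s).esymm (n + 1) = s.esymm (n + 1) + a * s.esymm n := by
  unfold Multiset.esymm
  rw [Multiset.powersetCard_cons, Multiset.map_add, Multiset.sum_add, Multiset.map_map]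
  congr 1
  rw [← Multiset.sum_map_mul_left]
  congr 1
  apply Multiset.map_congr rfl
  intro x _
  simp

lemma esymm_erase {s : Multiset ℂ} {x : ℂ} (hx : x ∈ s) (n : ℕ) :
    s.esymm (n + 1) = (s.erase x).esymm (n + 1) + x * (s.erase x).esymm n := by
  conv_lhs => rw [← Multiset.cons_erase hx]
  exact esymm_cons' _ _ _

lemma esymm_zero' (s : Multiset ℂ) : s.esymm 0 = 1 := by
  simp [Multiset.esymm]

lemma cons_erase' (a x : ℂ) {s : Multiset ℂ} (hx : x ∈ s) :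
    (a ::ₘ s).erase x = a ::ₘ (s.erase x) := by
  by_cases h : a = x
  · subst h
    rw [Multiset.erase_cons_head, Multiset.cons_erase hx]
  · rw [Multiset.erase_cons_tail s h]

lemma sum_erase (s : Multiset ℂ) : ∀ n : ℕ,
    (s.map (fun x => x * (s.erase x).esymm n)).sum = (n + 1) * s.esymm (n + 1) := by
  induction s using Multiset.induction_on with
  | empty =>
    intro n
    simp [Multiset.esymm, Multiset.powersetCard_zero_right]
  | cons a s ih =>
    intro n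
    rw [Multiset.map_cons, Multiset.sum_cons, Multiset.erase_cons_head]
    have h1 : (s.map (fun x => x * ((a ::ₘ s).erase x).esymm n)).sum =
        (s.map (fun x => x * (a ::ₘ (s.erase x)).esymm n)).sum := by
      congr 1
      apply Multiset.map_congr rfl
      intro x hx
      rw [cons_erase' a x hx]
    rw [h1]
    rcases n with _ | n
    · have h2 := ih 0
      simp only [esymm_zero', mul_one, Nat.cast_zero, zero_add, one_mul] at h2 ⊢
      rw [h2]
      have h3 := esymm_cons' a s 0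
      rw [zero_add, esymm_zero', mul_one] at h3
      rw [h3, add_comm]
    · have h2 : (s.map (fun x => x * (a ::ₘ (s.erase x)).esymm (n + 1))).sum =
          (s.map (fun x => x * (s.erase x).esymm (n + 1))).sum +
            a * (s.map (fun x => x * (s.erase x).esymm n)).sum := by
        rw [← Multiset.sum_map_mul_left, ← Multiset.sum_map_add]
        congr 1
        apply Multiset.map_congr rfl
        intro x _
        rw [esymm_cons']
        ring
      rw [h2, ih (n + 1), ih n, esymm_cons']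
      push_cast
      ring

lemma newton (γ : Multiset ℂ) (c : ℕ → ℕ → ℂ) (ε : ℂ)
    (h0 : ∀ k, c 0 k = ε * (γ.map (fun x => x ^ k)).sum)
    (h1 : ∀ n k : ℕ, ((n : ℂ) + 2) * c (n + 1) k = c n 1 * (ε * (γ.map (fun x => x ^ k)).sum) -
      ε * (((n : ℂ) + 1) * c n (k + 1))) (n : ℕ) :
    (∀ k, ((n : ℂ) + 1) * c n k =
      ε ^ (n + 1) * (γ.map (fun x => x ^ k * (γ.erase x).esymm n)).sum) ∧
    c n 1 = ε ^ (n + 1) * γ.esymm (n + 1) := by
  have hn : ∀ n : ℕ, (∀ k, ((n : ℂ) + 1) * c n k =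
      ε ^ (n + 1) * (γ.map (fun x => x ^ k * (γ.erase x).esymm n)).sum) →
      c n 1 = ε ^ (n + 1) * γ.esymm (n + 1) := by
    intro n h
    have h2 := h 1
    simp only [pow_one] at h2
    rw [sum_erase] at h2
    have h3 : (n : ℂ) + 1 ≠ 0 := by exact_mod_cast Nat.succ_ne_zero n
    apply mul_left_cancel₀ h3
    rw [h2]
    ring
  refine ⟨?_, ?_⟩
  · induction n with
    | zero =>
      intro k
      simp [esymm_zero', h0 k]
    | succ n ih =>
      intro k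
      have e1 := h1 n k
      rw [hn n ih, ih (k + 1)] at e1
      have e2 : (γ.map (fun x => x ^ k * (γ.erase x).esymm (n + 1))).sum =
          γ.esymm (n + 1) * (γ.map (fun x => x ^ k)).sum -
            (γ.map (fun x => x ^ (k + 1) * (γ.erase x).esymm n)).sum := by
        rw [← Multiset.sum_map_mul_left, ← Multiset.sum_map_sub]
        congr 1
        apply Multiset.map_congr rfl
        intro x hx
        rw [esymm_erase hx]
        ring
      rw [e2]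
      push_cast
      have e3 : (n : ℂ) + 1 + 1 = (n : ℂ) + 2 := by ring
      rw [e3, e1]
      ring
  · apply hn
    induction n with
    | zero =>
      intro k
      simp [esymm_zero', h0 k]
    | succ n ih =>
      intro k
      have e1 := h1 n k
      rw [hn n ih, ih (k + 1)] at e1
      have e2 : (γ.map (fun x => x ^ k * (γ.erase x).esymm (n + 1))).sum =
          γ.esymm (n + 1) * (γ.map (fun x => x ^ k)).sum -
            (γ.map (fun x => x ^ (k + 1) * (γ.erase x).esymm n)).sum := by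
        rw [← Multiset.sum_map_mul_left, ← Multiset.sum_map_sub]
        congr 1
        apply Multiset.map_congr rfl
        intro x hx
        rw [esymm_erase hx]
        ring
      rw [e2]
      push_cast
      have e3 : (n : ℂ) + 1 + 1 = (n : ℂ) + 2 := by ring
      rw [e3, e1]
      ring

lemma newton_zero (γ : Multiset ℂ) (c : ℕ → ℕ → ℂ) (ε : ℂ)
    (h0 : ∀ k, c 0 k = ε * (γ.map (fun x => x ^ k)).sum)
    (h1 : ∀ n k : ℕ, ((n : ℂ) + 2) * c (n + 1) k = c n 1 * (ε * (γ.map (fun x => x ^ k)).sum) -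
      ε * (((n : ℂ) + 1) * c n (k + 1))) (n : ℕ) (hn : Multiset.card γ ≤ n) : c n 1 = 0 := by
  rw [(newton γ c ε h0 h1 n).2]
  have h2 : γ.esymm (n + 1) = 0 := by
    unfold Multiset.esymm
    rw [Multiset.powersetCard_eq_empty (n + 1) (by omega)]
    simp
  rw [h2, mul_zero]

end Newton

variable {C : Type u} [Category.{v} C] [Abelian C] [Linear ℚ C] [MonoidalCategory C]
  [SymmetricCategory C] [MonoidalPreadditive C] [MonoidalLinear ℚ C] [RightRigidCategory C]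

/-- the partial trace -/
def ptr {Q X : C} (h : Q ⊗ X ⟶ Q ⊗ X) : Q ⟶ Q :=
  (ρ_ Q).inv ≫ Q ◁ η_ X Xᘁ ≫ (α_ Q X Xᘁ).inv ≫ h ▷ Xᘁ ≫ (α_ Q X Xᘁ).hom ≫ Q ◁ ev X Xᘁ ≫
    (ρ_ Q).hom

lemma tr_ptr {Q X : C} (h : Q ⊗ X ⟶ Q ⊗ X) : tr (Q ⊗ X) h = tr Q (ptr h) := by
  unfold tr
  rw [trP_indep (X' := (Q ⊗ X)ᘁ) (X'' := Xᘁ ⊗ Qᘁ)]
  unfold trP
  rw [ExactPairing.tensor_coevaluation, ev_tensor]
  unfold ptr
  monoidal

lemma ptr_left {Q X : C} (A : Q ⟶ Q) (h : Q ⊗ X ⟶ Q ⊗ X) : ptr (A ▷ X ≫ h) = A ≫ ptr h := by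
  unfold ptr
  rw [comp_whiskerRight, Category.assoc, ← associator_inv_naturality_left_assoc,
    whisker_exchange_assoc, rightUnitor_inv_naturality_assoc]

lemma ptr_core (X : C) : X ◁ η_ X Xᘁ ≫ (α_ X X Xᘁ).inv ≫ (β_ X X).hom ▷ Xᘁ ≫ (α_ X X Xᘁ).hom ≫
    X ◁ ev X Xᘁ = 𝟙 (X ⊗ 𝟙_ C) := by
  unfold ev
  have h1 : (α_ X X Xᘁ).inv ≫ (β_ X X).hom ▷ Xᘁ ≫ (α_ X X Xᘁ).hom ≫ X ◁ (β_ X Xᘁ).hom =
      (β_ X (X ⊗ Xᘁ)).hom ≫ (α_ X Xᘁ X).hom := by
    rw [braiding_tensor_right_hom]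
    simp
  rw [MonoidalCategory.whiskerLeft_comp]
  have h2 : X ◁ η_ X Xᘁ ≫ (α_ X X Xᘁ).inv ≫ (β_ X X).hom ▷ Xᘁ ≫ (α_ X X Xᘁ).hom ≫
      X ◁ (β_ X Xᘁ).hom ≫ X ◁ ε_ X Xᘁ = X ◁ η_ X Xᘁ ≫ ((α_ X X Xᘁ).inv ≫ (β_ X X).hom ▷ Xᘁ ≫
        (α_ X X Xᘁ).hom ≫ X ◁ (β_ X Xᘁ).hom) ≫ X ◁ ε_ X Xᘁ := by
    simp only [Category.assoc]
  rw [h2, h1, Category.assoc, ← Category.assoc, braiding_naturality_right, Category.assoc,
    ExactPairing.evaluation_coevaluation, braiding_tensorUnit_right]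
  simp

lemma ptr_sw (P X : C) : ptr (sw P X) = 𝟙 (P ⊗ X) := by
  have h := ptr_core X
  unfold ptr sw
  calc _ = 𝟙 (P ⊗ X) ⊗≫ P ◁ (X ◁ η_ X Xᘁ ≫ (α_ X X Xᘁ).inv ≫ (β_ X X).hom ▷ Xᘁ ≫
          (α_ X X Xᘁ).hom ≫ X ◁ ev X Xᘁ) ⊗≫ 𝟙 (P ⊗ X) := by
        monoidal
    _ = _ := by
        rw [h]
        monoidal

lemma ptr_swB (P X : C) (B : X ⟶ X) : ptr (sw P X ≫ (P ⊗ X) ◁ B) = P ◁ B := by
  have h := sw_nat' (𝟙 P) B (𝟙 X)
  have h1 : ((𝟙 P ⊗ₘ B) ⊗ₘ 𝟙 X) = (P ◁ B) ▷ X := by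
    rw [id_tensorHom, tensorHom_id]
  have h2 : ((𝟙 P ⊗ₘ 𝟙 X) ⊗ₘ B) = (P ⊗ X) ◁ B := by
    rw [id_tensorHom_id, id_tensorHom]
  rw [h1, h2] at h
  rw [← h, ptr_left, ptr_sw, Category.comp_id]

lemma tr_swap {P X : C} (A : P ⊗ X ⟶ P ⊗ X) (B : X ⟶ X) :
    tr ((P ⊗ X) ⊗ X) (A ▷ X ≫ sw P X ≫ (P ⊗ X) ◁ B) = tr (P ⊗ X) (A ≫ P ◁ B) := by
  rw [tr_ptr, ptr_left, ptr_swB]

lemma pw_comm {X : C} (f : X ⟶ X) (n : ℕ) : f ≫ pw f n = pw f n ≫ f := by
  induction n with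
  | zero => simp [pw]
  | succ n ih =>
    have h : pw f (n + 1) = pw f n ≫ f := rfl
    rw [h, ← Category.assoc, ih]

lemma pw_add {X : C} (f : X ⟶ X) (m n : ℕ) : pw f (m + n) = pw f m ≫ pw f n := by
  induction n with
  | zero => simp [pw]
  | succ n ih =>
    have h : pw f (m + (n + 1)) = pw f (m + n) ≫ f := rfl
    have h' : pw f (n + 1) = pw f n ≫ f := rfl
    rw [h, ih, h', Category.assoc]

end

end Mot
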