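import Pool.Agent.Mot.Hom

/-!
# The strong Tate conjecture, and lengths (MP_6c4da4_ag, by helper97)
-/

open CategoryTheory MonoidalCategory BraidedCategory Limits

universe v u

namespace Mot

noncomputable section

set_option linter.unusedSectionVars false

variable {C : Type u} [Category.{v} C] [Abelian C] [Linear ℚ C] [MonoidalCategory C]
  [SymmetricCategory C] [MonoidalPreadditive C] [MonoidalLinear ℚ C] [RightRigidCategory C]

/-- the numerically trivial morphisms from the unit to X -/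
def Nt (X : C) : Submodule ℚ (𝟙_ C ⟶ X) where
  carrier := {f | ∀ g : X ⟶ 𝟙_ C, f ≫ g = 0}
  add_mem' {a b} ha hb g := by
    rw [Preadditive.add_comp, ha g, hb g, add_zero]
  zero_mem' g := Limits.zero_comp
  smul_mem' r a ha g := by
    rw [Linear.smul_comp, ha g, smul_zero]

/-- numerically trivial morphisms -/
def NumTriv {X Y : C} (f : X ⟶ Y) : Prop := ∀ g : Y ⟶ X, tr X (f ≫ g) = 0

lemma ev_surj {X Y : C} (g : Y ⊗ Xᘁ ⟶ 𝟙_ C) : ∃ h : Y ⟶ X, g = h ▷ Xᘁ ≫ ev X Xᘁ := by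
  let inst := exactPairing_swap X Xᘁ
  obtain ⟨k, hk⟩ : ∃ k : Y ⟶ 𝟙_ C ⊗ X, k ▷ Xᘁ ≫ (α_ _ _ _).hom ≫ (𝟙_ C) ◁ ev X Xᘁ ≫
      (ρ_ (𝟙_ C)).hom = g :=
    ⟨(tensorRightHomEquiv Y Xᘁ X (𝟙_ C)).toFun g,
      (tensorRightHomEquiv Y Xᘁ X (𝟙_ C)).left_inv g⟩
  refine ⟨k ≫ (λ_ X).hom, ?_⟩
  rw [← hk]
  monoidal

lemma nm_ev {X Y : C} (f : X ⟶ Y) (h : Y ⟶ X) : nm f ≫ h ▷ Xᘁ ≫ ev X Xᘁ = tr X (f ≫ h) := by
  unfold nm tr trP
  rw [comp_whiskerRight, Category.assoc, Category.assoc]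

lemma back_coev {X Y : C} (g : Xᘁ ⟶ Y) :
    Xᘁ ◁ (η_ X Xᘁ ≫ X ◁ g) ≫ (α_ _ _ _).inv ≫ ε_ X Xᘁ ▷ Y ≫ (λ_ Y).hom = (ρ_ _).hom ≫ g := by
  rw [MonoidalCategory.whiskerLeft_comp, Category.assoc, associator_inv_naturality_right_assoc,
    whisker_exchange_assoc, ExactPairing.coevaluation_evaluation_assoc]
  simp

lemma back_ev {X P : C} (g : P ⟶ Xᘁ) :
    P ◁ η_ X Xᘁ ≫ (α_ _ _ _).inv ≫ (g ▷ X ≫ ε_ X Xᘁ) ▷ Xᘁ ≫ (λ_ _).hom = (ρ_ P).hom ≫ g := by
  rw [comp_whiskerRight, Category.assoc, ← associator_inv_naturality_left_assoc,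
    whisker_exchange_assoc, ExactPairing.coevaluation_evaluation_assoc]
  simp

instance epi_mt {X Y : C} (f : X ⟶ Y) [Mono f] : Epi (mt Xᘁ Yᘁ f) := by
  apply Preadditive.epi_of_cancel_zero
  intro R g hg
  have h1 : (η_ X Xᘁ ≫ X ◁ g) ≫ f ▷ R = 0 := by
    rw [Category.assoc, whisker_exchange, ← Category.assoc, ← mt_coev (Y' := Yᘁ) f, Category.assoc,
      ← MonoidalCategory.whiskerLeft_comp, hg, MonoidalPreadditive.whiskerLeft_zero,
      Limits.comp_zero]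
  have h2 : η_ X Xᘁ ≫ X ◁ g = 0 := by
    rw [← cancel_mono (f ▷ R), h1, Limits.zero_comp]
  have h3 := back_coev g
  rw [h2, MonoidalPreadditive.whiskerLeft_zero, Limits.zero_comp] at h3
  rw [← cancel_epi (ρ_ Xᘁ).hom, ← h3, Limits.comp_zero]

instance mono_mt {X Y : C} (f : X ⟶ Y) [Epi f] : Mono (mt Xᘁ Yᘁ f) := by
  apply Preadditive.mono_of_cancel_zero
  intro P g hg
  have h1 : P ◁ f ≫ g ▷ Y ≫ ε_ Y Yᘁ = 0 := by
    rw [whisker_exchange_assoc, ← mt_ev' (X' := Xᘁ) f, ← Category.assoc, ← comp_whiskerRight, hg,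
      MonoidalPreadditive.zero_whiskerRight, Limits.zero_comp]
  have h2 : g ▷ Y ≫ ε_ Y Yᘁ = 0 := by
    rw [← cancel_epi (P ◁ f), h1, Limits.comp_zero]
  have h3 := back_ev g
  rw [h2, MonoidalPreadditive.zero_whiskerRight, Limits.zero_comp, Limits.comp_zero,
    Limits.comp_zero] at h3
  rw [← cancel_epi (ρ_ P).hom, ← h3, Limits.comp_zero]

namespace Frob

variable (W : Frob C)

include W in
lemma tr_self (s : 𝟙_ C ⟶ 𝟙_ C) : tr (𝟙_ C) s = s := by
  rw [W.val_spec s]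
  have h1 : tr (𝟙_ C) (W.val s • 𝟙 (𝟙_ C)) = W.val s • tr (𝟙_ C) (𝟙 (𝟙_ C)) := by
    unfold tr trP
    rw [MonoidalLinear.smul_whiskerRight, Linear.smul_comp, Linear.comp_smul]
  rw [h1, tr_unit]

/-- the strong form of the Tate conjecture -/
def Tate : Prop := ∀ X : C, W.mult X = Module.finrank ℚ ((𝟙_ C ⟶ X) ⧸ Nt X)

lemma nt_bot (hT : W.Tate) (X : C) : Nt X = ⊥ := by
  have := W.finite_hom (𝟙_ C) X
  have h1 := Module.finrank_le_of_rank_le (W.rank_le X)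
  have h2 := Submodule.finrank_quotient_add_finrank (Nt X)
  have h3 := hT X
  have h4 : Module.finrank ℚ (Nt X) = 0 := by omega
  exact Submodule.finrank_eq_zero.mp h4

theorem numTriv_zero (hT : W.Tate) {X Y : C} (f : X ⟶ Y) (hf : NumTriv f) : f = 0 := by
  have h1 : nm f ∈ Nt (Y ⊗ Xᘁ) := by
    intro g
    obtain ⟨h, rfl⟩ := ev_surj g
    rw [nm_ev]
    exact hf h
  rw [W.nt_bot hT, Submodule.mem_bot] at h1
  apply nm_inj
  rw [h1]
  exact (map_zero (nmL X Y)).symm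

theorem epi_split (hT : W.Tate) {B D : C} (p : B ⟶ D) [Epi p] : ∃ s : D ⟶ B, s ≫ p = 𝟙 D := by
  set q := pullback.fst (η_ D Dᘁ) (p ▷ Dᘁ) with hq
  set r := pullback.snd (η_ D Dᘁ) (p ▷ Dᘁ) with hr
  have hqr : q ≫ η_ D Dᘁ = r ≫ p ▷ Dᘁ := pullback.condition
  have hqe : Epi q := inferInstance
  have hq0 : q ≠ 0 := by
    intro h
    apply W.ne
    rw [← cancel_epi q, h, Limits.zero_comp, Limits.zero_comp]
  have h1 : ¬ NumTriv q := fun h => hq0 (W.numTriv_zero hT q h)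
  unfold NumTriv at h1
  push Not at h1
  obtain ⟨g, hg⟩ := h1
  rw [tr_comm, W.tr_self] at hg
  have h2 := W.val_spec (g ≫ q)
  have h3 : W.val (g ≫ q) ≠ 0 := by
    intro h4
    rw [h4, zero_smul] at h2
    exact hg h2
  obtain ⟨b, hb⟩ := nm_surj (((W.val (g ≫ q))⁻¹ • g) ≫ r)
  refine ⟨b, ?_⟩
  apply nm_inj
  rw [nm_comp, hb, Category.assoc, ← hqr, ← Category.assoc, Linear.smul_comp, h2, W.val_smul,
    W.val_id, mul_one, smul_smul, inv_mul_cancel₀ h3, one_smul, Category.id_comp]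
  unfold nm
  rw [id_whiskerRight, Category.comp_id]

lemma one_le_mult {X Q Z : C} (p : X ⟶ Z) [Epi p] (j : Q ⟶ Z) [Mono j] (hQ : ¬ IsZero Q) :
    1 ≤ W.mult (Q ⊗ Xᘁ) := by
  have h1 := W.mult_le_of_epi (Q ◁ mt Qᘁ Zᘁ j)
  have h2 := W.mult_le_of_mono (Q ◁ mt Xᘁ Zᘁ p)
  by_contra h3
  apply hQ
  have h4 : W.mult (Q ⊗ Qᘁ) = 0 := by omega
  have h5 := W.rank_hom_le Q Q
  rw [h4, Nat.cast_zero, nonpos_iff_eq_zero, rank_zero_iff] at h5
  rw [IsZero.iff_id_eq_zero]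
  exact Subsingleton.elim _ _

lemma mult_lt {X : C} {U V : Subobject X} (h : U < V) :
    W.mult ((U : C) ⊗ Xᘁ) < W.mult ((V : C) ⊗ Xᘁ) := by
  set i := U.ofLE V h.le with hi
  have hi1 : i ≫ V.arrow = U.arrow := Subobject.ofLE_arrow h.le
  set k := V.arrow ≫ cokernel.π U.arrow with hk
  set e := factorThruImage k with he
  have hek : e ≫ image.ι k = k := image.fac k
  have hie : i ≫ e = 0 := by
    rw [← cancel_mono (image.ι k), Category.assoc, hek, hk, ← Category.assoc, hi1,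
      cokernel.condition, Limits.zero_comp]
  have hfac : ∀ {A : C} (t : A ⟶ (V : C)), t ≫ e = 0 → ∃ l : A ⟶ (U : C), l ≫ i = t := by
    intro A t ht
    have h1 : (t ≫ V.arrow) ≫ cokernel.π U.arrow = 0 := by
      rw [Category.assoc, ← hk, ← hek, ← Category.assoc, ht, Limits.zero_comp]
    have hex := ShortComplex.exact_cokernel U.arrow
    have h2 : hex.lift (t ≫ V.arrow) h1 ≫ U.arrow = t ≫ V.arrow :=
      hex.lift_f (t ≫ V.arrow) h1
    refine ⟨hex.lift (t ≫ V.arrow) h1, ?_⟩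
    rw [← cancel_mono V.arrow, Category.assoc, hi1, h2]
  have hS : (ShortComplex.mk i e hie).ShortExact :=
    { exact := by
        apply ShortComplex.exact_of_f_is_kernel
        exact KernelFork.IsLimit.ofι' i hie (fun t ht => ⟨(hfac t ht).choose, (hfac t ht).choose_spec⟩)
      mono_f := inferInstanceAs (Mono (U.ofLE V h.le))
      epi_g := inferInstanceAs (Epi (factorThruImage k)) }
  have h2 := W.mult_add (shortExact_wR hS Xᘁ)
  change W.mult ((V : C) ⊗ Xᘁ) = W.mult ((U : C) ⊗ Xᘁ) + W.mult (image k ⊗ Xᘁ) at h2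
  have hQ : ¬ IsZero (image k) := by
    intro hz
    have h3 : 𝟙 (V : C) ≫ e = 0 := hz.eq_of_tgt _ _
    obtain ⟨l, hl⟩ := hfac _ h3
    apply absurd h (not_lt_of_ge _)
    apply Subobject.le_of_comm l
    rw [← hi1, ← Category.assoc, hl, Category.id_comp]
  have h3 := W.one_le_mult (cokernel.π U.arrow) (image.ι k) hQ
  omega

/-- chains of subobjects of X have length at most the multiplicity of 1 for X ⊗ X' -/
theorem length_le (X : C) (s : LTSeries (Subobject X)) : s.length ≤ W.mult (X ⊗ Xᘁ) := by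
  have hmon : StrictMono (fun U : Subobject X => W.mult ((U : C) ⊗ Xᘁ)) :=
    fun U V h => W.mult_lt h
  have h1 := LTSeries.head_add_length_le_nat (s.map _ hmon)
  have h2 : (s.map _ hmon).last = W.mult ((s.last : C) ⊗ Xᘁ) := rfl
  have h3 : (s.map _ hmon).length = s.length := rfl
  have h4 := W.mult_le_of_mono (s.last.arrow ▷ Xᘁ)
  omega

end Frob

end

end Mot
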