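import Pool.Agent.Mot.Mult

/-!
# The unit is simple and Hom spaces are finite-dimensional (MP_6c4da4_ag, by helper97)
-/

open CategoryTheory MonoidalCategory BraidedCategory Limits

universe v u

namespace Mot

noncomputable section

set_option linter.unusedSectionVars false

variable {C : Type u} [Category.{v} C] [Abelian C] [Linear ℚ C] [MonoidalCategory C]
  [SymmetricCategory C] [MonoidalPreadditive C] [MonoidalLinear ℚ C] [RightRigidCategory C]

lemma isZero_wR {X : C} (h : IsZero X) (Y : C) : IsZero (X ⊗ Y) := by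
  rw [IsZero.iff_id_eq_zero] at h ⊢
  rw [← id_whiskerRight, h, MonoidalPreadditive.zero_whiskerRight]

lemma isZero_wL {X : C} (h : IsZero X) (Y : C) : IsZero (Y ⊗ X) :=
  (isZero_wR h Y).of_iso (β_ Y X)

namespace Frob

variable (W : Frob C)

lemma t_zero_obj {X : C} (h : IsZero X) (n : ℕ) : W.t X n = 0 := by
  unfold t tr trP
  have h1 : W.Fp X n = 0 := h.eq_of_src _ _
  rw [h1, MonoidalPreadditive.zero_whiskerRight, Limits.zero_comp, Limits.comp_zero, W.val_zero]

lemma isZero_of_tensor {Z X : C} (h : IsZero (Z ⊗ X)) (hX : W.t X 0 ≠ 0) : IsZero Z := by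
  have h1 : tr X (𝟙 X) = W.t X 0 • 𝟙 (𝟙_ C) := W.val_spec _
  have h2 : IsZero (Z ⊗ (X ⊗ Xᘁ)) := (isZero_wR h Xᘁ).of_iso (α_ Z X Xᘁ).symm
  have h3 : Z ◁ tr X (𝟙 X) = 0 := by
    unfold tr trP
    rw [MonoidalCategory.whiskerLeft_comp, h2.eq_of_tgt (Z ◁ η_ X Xᘁ) 0, Limits.zero_comp]
  rw [h1, MonoidalLinear.whiskerLeft_smul, MonoidalCategory.whiskerLeft_id] at h3
  rcases smul_eq_zero.mp h3 with h4 | h4
  · exact absurd h4 hX
  · exact (((IsZero.iff_id_eq_zero _).mpr h4)).of_iso (ρ_ Z).symm

include W in
/-- the unit is simple -/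
theorem simple_unit : Simple (𝟙_ C) := by
  constructor
  intro U u hu
  constructor
  · intro h h0
    apply W.ne
    calc 𝟙 (𝟙_ C) = inv u ≫ u := (IsIso.inv_hom_id u).symm
      _ = inv u ≫ 0 := congrArg (fun z => inv u ≫ z) h0
      _ = 0 := Limits.comp_zero
  · intro hne
    set v := cokernel.π u with hv
    have hS : (ShortComplex.mk u v (cokernel.condition u)).ShortExact :=
      { exact := ShortComplex.exact_cokernel u
        mono_f := hu
        epi_g := inferInstanceAs (Epi (cokernel.π u)) }
    have hadd := W.t_add hS 0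
    have hve : Epi v := inferInstanceAs (Epi (cokernel.π u))
    have hcomp : v ▷ U ≫ (cokernel u) ◁ u = 0 := by
      rw [← whisker_exchange, id_whiskerLeft, MonoidalCategory.whiskerRight_id]
      rw [unitors_inv_equal]
      simp only [Category.assoc, Iso.inv_hom_id_assoc]
      have h1 : u ≫ v = 0 := cokernel.condition u
      rw [← Category.assoc u v, h1, Limits.zero_comp, Limits.comp_zero]
    have hVu : (cokernel u) ◁ u = 0 := by
      rw [← cancel_epi (v ▷ U), hcomp, Limits.comp_zero]
    have hVU : IsZero (cokernel u ⊗ U) := by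
      rw [IsZero.iff_id_eq_zero, ← cancel_mono ((cokernel u) ◁ u), hVu, Limits.comp_zero,
        Limits.comp_zero]
    have h0 := W.t_zero_obj hVU 0
    rw [W.t_tensor] at h0
    have hadd' : (1 : ℚ) = W.t U 0 + W.t (cokernel u) 0 := by
      rw [← W.t_unit 0]
      exact hadd
    by_cases hU : W.t U 0 = 0
    · exfalso
      apply hne
      have hV : W.t (cokernel u) 0 ≠ 0 := by
        intro h1
        rw [hU, h1] at hadd'
        norm_num at hadd'
      have h2 : IsZero (U ⊗ cokernel u) := hVU.of_iso (β_ _ _)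
      exact (W.isZero_of_tensor h2 hV).eq_of_src _ _
    · have h2 := W.isZero_of_tensor hVU hU
      have h3 : Epi u := Abelian.epi_of_cokernel_π_eq_zero u (h2.eq_of_tgt _ _)
      exact isIso_of_mono_of_epi u

lemma mult_le_of_mono {X Y : C} (f : X ⟶ Y) [hf : Mono f] : W.mult X ≤ W.mult Y := by
  have hS : (ShortComplex.mk f (cokernel.π f) (cokernel.condition f)).ShortExact :=
    { exact := ShortComplex.exact_cokernel f
      mono_f := hf
      epi_g := inferInstanceAs (Epi (cokernel.π f)) }
  have h := W.mult_add hS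
  change W.mult Y = W.mult X + W.mult (cokernel f) at h
  omega

lemma mult_le_of_epi {X Y : C} (f : X ⟶ Y) [hf : Epi f] : W.mult Y ≤ W.mult X := by
  have hS : (ShortComplex.mk (kernel.ι f) f (kernel.condition f)).ShortExact :=
    { exact := ShortComplex.exact_kernel f
      mono_f := inferInstanceAs (Mono (kernel.ι f))
      epi_g := hf }
  have h := W.mult_add hS
  change W.mult X = W.mult (kernel f) + W.mult Y at h
  omega

lemma rank_aux (n : ℕ) : ∀ X : C, W.F.app X = 𝟙 X → W.mult X = n →
    Module.rank ℚ (𝟙_ C ⟶ X) ≤ n := by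
  induction n with
  | zero =>
    intro X hX hm
    have h : Subsingleton (𝟙_ C ⟶ X) := by
      constructor
      have key : ∀ f : 𝟙_ C ⟶ X, f = 0 := by
        intro f
        by_contra hf
        have := W.simple_unit
        have hmono : Mono f := mono_of_nonzero_from_simple hf
        have h1 := W.mult_le_of_mono f
        rw [W.mult_unit, hm] at h1
        omega
      intro a b
      rw [key a, key b]
    rw [rank_subsingleton']
    simp
  | succ n ih =>
    intro X hX hm
    by_cases hex : ∃ f : 𝟙_ C ⟶ X, f ≠ 0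
    · obtain ⟨f, hf⟩ := hex
      have := W.simple_unit
      have hmono : Mono f := mono_of_nonzero_from_simple hf
      have hS : (ShortComplex.mk f (cokernel.π f) (cokernel.condition f)).ShortExact :=
        { exact := ShortComplex.exact_cokernel f
          mono_f := hmono
          epi_g := inferInstanceAs (Epi (cokernel.π f)) }
      have h := W.mult_add hS
      change W.mult X = W.mult (𝟙_ C) + W.mult (cokernel f) at h
      rw [W.mult_unit, hm] at h
      have hY : W.mult (cokernel f) = n := by omega
      have hFY : W.F.app (cokernel f) = 𝟙 (cokernel f) := by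
        rw [← cancel_epi (cokernel.π f), W.F_nat, hX, Category.comp_id]
        exact Category.id_comp _
      have hr := ih (cokernel f) hFY hY
      set φ : (𝟙_ C ⟶ X) →ₗ[ℚ] (𝟙_ C ⟶ cokernel f) :=
        Linear.rightComp ℚ (𝟙_ C) (cokernel.π f) with hφ
      rw [← LinearMap.rank_range_add_rank_ker φ]
      have h1 : Module.rank ℚ (LinearMap.range φ) ≤ n := (Submodule.rank_le _).trans hr
      have h2 : LinearMap.ker φ ≤ Submodule.span ℚ {f} := by
        intro g hg
        rw [LinearMap.mem_ker] at hg
        have hg' : g ≫ cokernel.π f = 0 := hg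
        have h3 : hS.exact.lift g hg' ≫ f = g := hS.exact.lift_f g hg'
        rw [W.val_spec (hS.exact.lift g hg'), Linear.smul_comp] at h3
        rw [Submodule.mem_span_singleton]
        refine ⟨W.val (hS.exact.lift g hg'), ?_⟩
        refine Eq.trans ?_ h3
        congr 1
        exact (Category.id_comp f).symm
      have h3 : Module.rank ℚ (LinearMap.ker φ) ≤ 1 := by
        refine (Submodule.rank_mono h2).trans ?_
        refine (rank_span_le _).trans ?_
        simp
      push_cast
      exact add_le_add h1 h3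
    · push Not at hex
      have h : Subsingleton (𝟙_ C ⟶ X) := ⟨fun a b => by rw [hex a, hex b]⟩
      rw [rank_subsingleton']
      simp

/-- the sections of X are finite-dimensional, of dimension at most the multiplicity of 1 -/
theorem rank_le (X : C) : Module.rank ℚ (𝟙_ C ⟶ X) ≤ W.mult X := by
  obtain ⟨F, hF⟩ : ∃ F : X ⟶ X, F = W.F.app X := ⟨_, rfl⟩
  set ι := kernel.ι (F - 𝟙 X) with hι
  have hmono : Mono ι := inferInstanceAs (Mono (kernel.ι _))
  have h1 : ι ≫ F = ι := by
    have h2 := kernel.condition (F - 𝟙 X)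
    rw [Preadditive.comp_sub, sub_eq_zero, Category.comp_id] at h2
    exact h2
  have hK : W.F.app (kernel (F - 𝟙 X)) = 𝟙 (kernel (F - 𝟙 X)) := by
    rw [← cancel_mono ι, ← W.F_nat, ← hF, h1]
    exact (Category.id_comp _).symm
  have h3 := W.rank_aux _ _ hK rfl
  have h4 := W.mult_le_of_mono ι
  have h5 : Function.Surjective (Linear.rightComp ℚ (𝟙_ C) ι) := by
    intro f
    have h6 : f ≫ (F - 𝟙 X) = 0 := by
      rw [Preadditive.comp_sub, hF, W.F_nat, W.F_unit, sub_eq_zero]
      exact (Category.id_comp f).trans (Category.comp_id f).symm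
    exact ⟨kernel.lift _ f h6, kernel.lift_ι _ _ _⟩
  calc Module.rank ℚ (𝟙_ C ⟶ X) ≤ Module.rank ℚ (𝟙_ C ⟶ kernel (F - 𝟙 X)) :=
        LinearMap.rank_le_of_surjective _ h5
    _ ≤ W.mult (kernel (F - 𝟙 X)) := h3
    _ ≤ W.mult X := by exact_mod_cast h4

end Frob

end

end Mot
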