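import Pool.Agent.Mot.Ptr

/-!
# Vanishing of exterior and symmetric powers (MP_6c4da4_ag, by helper97)
-/

open CategoryTheory MonoidalCategory BraidedCategory Limits

universe v u

namespace Mot

noncomputable section

set_option linter.unusedSectionVars false

variable {C : Type u} [Category.{v} C] [Abelian C] [Linear ℚ C] [MonoidalCategory C]
  [SymmetricCategory C] [MonoidalPreadditive C] [MonoidalLinear ℚ C] [RightRigidCategory C]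

lemma tr_add {X : C} (f g : X ⟶ X) : tr X (f + g) = tr X f + tr X g := by
  unfold tr trP
  rw [MonoidalPreadditive.add_whiskerRight, Preadditive.add_comp, Preadditive.comp_add]

lemma tr_smul {X : C} (r : ℚ) (f : X ⟶ X) : tr X (r • f) = r • tr X f := by
  unfold tr trP
  rw [MonoidalLinear.smul_whiskerRight, Linear.smul_comp, Linear.comp_smul]

lemma tr_sub {X : C} (f g : X ⟶ X) : tr X (f - g) = tr X f - tr X g := by
  rw [sub_eq_add_neg, ← neg_one_smul ℚ g, tr_add, tr_smul, neg_one_smul, ← sub_eq_add_neg]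

lemma tr_zero {X : C} : tr X (0 : X ⟶ X) = 0 := by
  rw [← zero_smul ℚ (0 : X ⟶ X), tr_smul, zero_smul]

namespace Frob

variable (W : Frob C)

lemma val_sub (f g : 𝟙_ C ⟶ 𝟙_ C) : W.val (f - g) = W.val f - W.val g := by
  rw [sub_eq_add_neg, ← neg_one_smul ℚ g, W.val_add, W.val_smul]
  ring

/-- an idempotent whose products with the powers of Frobenius have trace zero vanishes -/
lemma idem_zero {X : C} (e : X ⟶ X) (he : e ≫ e = e)
    (h : ∀ m, W.val (tr X (e ≫ W.Fp X m)) = 0) : e = 0 := by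
  obtain ⟨Y, i, p, h1, h2⟩ := IsIdempotentComplete.idempotents_split X e he
  have h3 : IsZero Y := by
    apply W.isZero_of_t
    intro n
    have h5 : W.Fp Y n = i ≫ (p ≫ W.Fp Y n) := by rw [← Category.assoc, h1, Category.id_comp]
    have h6 : (p ≫ W.Fp Y n) ≫ i = e ≫ W.Fp X n := by
      rw [Category.assoc, ← W.Fp_nat, ← Category.assoc, h2]
    unfold t
    rw [h5, tr_comm, h6, h]
  rw [← h2, h3.eq_of_src i 0, Limits.comp_zero]

/-- the recursion for the traces of the projectors -/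
lemma step_tr {ε N : ℚ} (hN : N + 1 ≠ 0) (P X : C) (A : P ⊗ X ⟶ P ⊗ X) (hA : A ≫ A = A) (m k : ℕ) :
    (N + 1) * W.val (tr ((P ⊗ X) ⊗ X) (stp ε N P X A ≫ (W.Fp (P ⊗ X) m ⊗ₘ W.Fp X (m * k)))) =
      W.val (tr (P ⊗ X) (A ≫ (W.Fp P m ⊗ₘ W.Fp X (m * 1)))) * W.val (tr X (W.Fp X (m * k))) -
        ε * (N * W.val (tr (P ⊗ X) (A ≫ (W.Fp P m ⊗ₘ W.Fp X (m * (k + 1)))))) := by
  obtain ⟨Φ, hΦ⟩ : ∃ Φ, Φ = W.Fp (P ⊗ X) m := ⟨_, rfl⟩
  obtain ⟨Ψ, hΨ⟩ : ∃ Ψ, Ψ = W.Fp X (m * k) := ⟨_, rfl⟩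
  have hΦ' : Φ = W.Fp P m ⊗ₘ W.Fp X (m * 1) := by rw [hΦ, W.Fp_tensor, mul_one]
  have hAΦ : A ≫ Φ = Φ ≫ A := by rw [hΦ, W.Fp_nat]
  rw [← hΦ, ← hΨ, ← hΦ']
  have hU : (Φ ⊗ₘ Ψ) = Φ ▷ X ≫ (P ⊗ X) ◁ Ψ := tensorHom_def _ _
  have hU' : (Φ ⊗ₘ Ψ) = (P ⊗ X) ◁ Ψ ≫ Φ ▷ X := tensorHom_def' _ _
  have hAU : A ▷ X ≫ (Φ ⊗ₘ Ψ) = (Φ ⊗ₘ Ψ) ≫ A ▷ X := by
    rw [hU, ← Category.assoc, ← comp_whiskerRight, hAΦ, comp_whiskerRight, Category.assoc,
      ← whisker_exchange, Category.assoc]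
  obtain ⟨M, hM⟩ : ∃ M : (P ⊗ X) ⊗ X ⟶ (P ⊗ X) ⊗ X, M = 𝟙 _ - N • (ε • sw P X) := ⟨_, rfl⟩
  have e1 : tr _ (stp ε N P X A ≫ (Φ ⊗ₘ Ψ)) = (N + 1)⁻¹ • tr _ (A ▷ X ≫ M ≫ (Φ ⊗ₘ Ψ)) := by
    unfold stp
    rw [← hM, Linear.smul_comp, tr_smul, Category.assoc, Category.assoc, hAU, ← Category.assoc,
      ← Category.assoc, tr_comm, ← Category.assoc, ← Category.assoc, ← comp_whiskerRight, hA,
      Category.assoc]
  have e2 : tr _ (A ▷ X ≫ M ≫ (Φ ⊗ₘ Ψ)) =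
      tr _ (A ▷ X ≫ (Φ ⊗ₘ Ψ)) - (N * ε) • tr _ (A ▷ X ≫ sw P X ≫ (Φ ⊗ₘ Ψ)) := by
    rw [hM, Preadditive.sub_comp, Category.id_comp, Preadditive.comp_sub, tr_sub, smul_smul,
      Linear.smul_comp, Linear.comp_smul, tr_smul]
  have e3 : tr _ (A ▷ X ≫ (Φ ⊗ₘ Ψ)) = W.val (tr X Ψ) • tr (P ⊗ X) (A ≫ Φ) := by
    have e4 : A ▷ X ≫ (Φ ⊗ₘ Ψ) = (A ≫ Φ) ⊗ₘ Ψ := by
      rw [← tensorHom_id, MonoidalCategory.tensorHom_comp_tensorHom, Category.id_comp]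
    rw [e4, W.tr_tensor]
  have e5 : tr _ (A ▷ X ≫ sw P X ≫ (Φ ⊗ₘ Ψ)) =
      tr (P ⊗ X) (A ≫ (W.Fp P m ⊗ₘ W.Fp X (m * (k + 1)))) := by
    have e6 : A ▷ X ≫ sw P X ≫ (Φ ⊗ₘ Ψ) = (A ▷ X ≫ sw P X ≫ (P ⊗ X) ◁ Ψ) ≫ Φ ▷ X := by
      rw [hU', Category.assoc, Category.assoc]
    rw [e6, tr_comm, ← Category.assoc, ← comp_whiskerRight, tr_swap, ← hAΦ, Category.assoc]
    congr 2
    rw [hΦ', ← id_tensorHom, MonoidalCategory.tensorHom_comp_tensorHom, Category.comp_id, hΨ]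
    congr 1
    have e7 : m * (k + 1) = m * 1 + m * k := by ring
    rw [e7]
    exact (pw_add _ _ _).symm
  rw [e1, e2, e3, e5, W.val_smul, W.val_sub, W.val_smul, W.val_smul]
  field_simp

/-- the traces of the projectors -/
def cc (ε : ℚ) (X : C) (m n k : ℕ) : ℚ :=
  W.val (tr (T X n ⊗ X) (pj ε X (n + 1) ≫ (W.Fp (T X n) m ⊗ₘ W.Fp X (m * k)) :
    (T X n ⊗ X) ⟶ (T X n ⊗ X)))

lemma cc_zero (ε : ℚ) (X : C) (m k : ℕ) : W.cc ε X m 0 k = W.t X (m * k) := by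
  unfold cc
  have h1 : (pj ε X (0 + 1) ≫ (W.Fp (T X 0) m ⊗ₘ W.Fp X (m * k)) :
      (T X 0 ⊗ X) ⟶ (T X 0 ⊗ X)) = (𝟙 (𝟙_ C) ⊗ₘ W.Fp X (m * k)) := by
    have h2 : W.Fp (T X 0) m = 𝟙 (𝟙_ C) := W.Fp_of_one W.F_unit m
    rw [h2]
    exact Category.id_comp _
  rw [h1]
  have h3 := W.tr_tensor (𝟙_ C) X (𝟙 _) (W.Fp X (m * k))
  refine (congrArg W.val h3).trans ?_
  rw [W.val_smul, tr_unit, W.val_id, mul_one]
  rfl

lemma cc_succ {ε : ℚ} (hε : ε * ε = 1) (X : C) (m n k : ℕ) :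
    ((n : ℚ) + 2) * W.cc ε X m (n + 1) k = W.cc ε X m n 1 * W.t X (m * k) -
      ε * (((n : ℚ) + 1) * W.cc ε X m n (k + 1)) := by
  have h := W.step_tr (ε := ε) (N := (n : ℚ) + 1) (by positivity) (T X n) X (pj ε X (n + 1))
    (pj_idem hε X (n + 1)) m k
  have e : (n : ℚ) + 1 + 1 = (n : ℚ) + 2 := by ring
  rw [e] at h
  exact h

/-- the projector vanishes when the traces are ε times power sums of few numbers -/
lemma pj_zero {ε : ℚ} (hε : ε * ε = 1) (X : C) (γ : Multiset ℂ)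
    (h : ∀ n, (W.t X n : ℂ) = ε * (γ.map (fun z => z ^ n)).sum) (n : ℕ)
    (hn : Multiset.card γ ≤ n) : pj ε X (n + 1) = 0 := by
  apply W.idem_zero _ (pj_idem hε X (n + 1))
  intro m
  have h1 : W.val (tr (T X (n + 1)) (pj ε X (n + 1) ≫ W.Fp (T X (n + 1)) m)) = W.cc ε X m n 1 := by
    unfold cc
    have e1 : W.Fp (T X (n + 1)) m = (W.Fp (T X n) m ⊗ₘ W.Fp X (m * 1)) := by
      rw [mul_one]
      exact W.Fp_tensor (T X n) X m
    rw [e1]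
    rfl
  rw [h1]
  have h2 := newton_zero (γ.map (fun z => z ^ m)) (fun n k => (W.cc ε X m n k : ℂ)) ε
    (by
      intro k
      rw [W.cc_zero, h, Multiset.map_map]
      congr 2
      apply Multiset.map_congr rfl
      intro z _
      exact pow_mul z m k)
    (by
      intro n k
      have h3 := W.cc_succ hε X m n k
      have h4 : (((n : ℚ) + 2) * W.cc ε X m (n + 1) k : ℂ) = (W.cc ε X m n 1 * W.t X (m * k) -
        ε * (((n : ℚ) + 1) * W.cc ε X m n (k + 1)) : ℂ) := by exact_mod_cast h3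
      rw [h] at h4
      have h5 : ((γ.map (fun z => z ^ m)).map (fun x => x ^ k)).sum =
          (γ.map (fun z => z ^ (m * k))).sum := by
        rw [Multiset.map_map]
        congr 1
        apply Multiset.map_congr rfl
        intro z _
        exact (pow_mul z m k).symm
      rw [h5]
      push_cast at h4
      exact h4)
    n (by rw [Multiset.card_map]; exact hn)
  exact_mod_cast h2

end Frob

end

end Mot
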